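import Mathlib

/-!
# Alexander-Spanier cochains on lists, coefficients in the field with two elements

A total augmented cochain on `M` is a function `List M → ZMod 2`.
-/

set_option autoImplicit false

namespace Pool.Agent.Helper10

/-- Total augmented cochains with coefficients in the field with two elements. -/
abbrev Coch (M : Type*) := List M → ZMod 2

namespace Coch

variable {M N L : Type*}

/-- The cochain `l ↦ c (x :: l)`. -/
def sh (x : M) (c : Coch M) : Coch M := fun l => c (x :: l)

/-- Auxiliary recursion for the coboundary. -/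
def delAux : List M → Coch M → ZMod 2
  | [], _ => 0
  | x :: l, c => c l + delAux l (sh x c)

/-- The (augmented) coboundary operator. -/
def del (c : Coch M) : Coch M := fun l => delAux l c

@[simp] lemma del_nil (c : Coch M) : del c [] = 0 := rfl

@[simp] lemma del_cons (c : Coch M) (x : M) (l : List M) :
    del c (x :: l) = c l + del (sh x c) l := rfl

@[simp] lemma sh_apply (x : M) (c : Coch M) (l : List M) : sh x c l = c (x :: l) := rfl

lemma sh_add (x : M) (a b : Coch M) : sh x (a + b) = sh x a + sh x b := rfl

lemma sh_zero (x : M) : sh x (0 : Coch M) = 0 := rfl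

lemma sh_del (x : M) (c : Coch M) : sh x (del c) = c + del (sh x c) := rfl

lemma del_add (a b : Coch M) : del (a + b) = del a + del b := by
  funext l
  induction l generalizing a b with
  | nil => simp
  | cons x l ih =>
    simp only [del_cons, sh_add, ih, Pi.add_apply]
    ring

lemma del_zero : del (0 : Coch M) = 0 := by
  funext l
  induction l with
  | nil => simp
  | cons x l ih => simp [del_cons, sh_zero, ih]

lemma add_self (c : Coch M) : c + c = 0 := by
  funext l
  simp [CharTwo.add_self_eq_zero]

lemma del_del (c : Coch M) : del (del c) = 0 := by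
  funext l
  induction l generalizing c with
  | nil => simp
  | cons x l ih =>
    have := ih (sh x c)
    simp only [del_cons, sh_del, del_add, Pi.add_apply, this, Pi.zero_apply]
    grind

/-- Pullback of cochains. -/
def pull (f : M → N) (c : Coch N) : Coch M := fun l => c (l.map f)

@[simp] lemma pull_apply (f : M → N) (c : Coch N) (l : List M) : pull f c l = c (l.map f) := rfl

lemma pull_add (f : M → N) (a b : Coch N) : pull f (a + b) = pull f a + pull f b := rfl

lemma pull_zero (f : M → N) : pull f (0 : Coch N) = 0 := rfl

lemma sh_pull (f : M → N) (c : Coch N) (x : M) : sh x (pull f c) = pull f (sh (f x) c) := by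
  funext l; simp

lemma del_pull (f : M → N) (c : Coch N) : del (pull f c) = pull f (del c) := by
  funext l
  induction l generalizing c with
  | nil => simp
  | cons x l ih => simp [sh_pull, ih]

lemma pull_pull (f : M → N) (g : N → L) (c : Coch L) : pull f (pull g c) = pull (g ∘ f) c := by
  funext l; simp

/-- Auxiliary recursion for the prism operator. -/
def prAux (f g : M → N) : List M → Coch N → ZMod 2
  | [], _ => 0
  | x :: l, c => c (f x :: g x :: l.map g) + prAux f g l (sh (f x) c)

/-- The prism operator between two maps. -/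
def pr (f g : M → N) (c : Coch N) : Coch M := fun l => prAux f g l c

@[simp] lemma pr_nil (f g : M → N) (c : Coch N) : pr f g c [] = 0 := rfl

@[simp] lemma pr_cons (f g : M → N) (c : Coch N) (x : M) (l : List M) :
    pr f g c (x :: l) = c (f x :: g x :: l.map g) + pr f g (sh (f x) c) l := rfl

lemma pr_add (f g : M → N) (a b : Coch N) : pr f g (a + b) = pr f g a + pr f g b := by
  funext l
  induction l generalizing a b with
  | nil => simp
  | cons x l ih =>
    simp only [pr_cons, sh_add, ih, Pi.add_apply]
    ring

lemma pr_zero (f g : M → N) : pr f g (0 : Coch N) = 0 := by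
  funext l
  induction l with
  | nil => simp
  | cons x l ih => simp [pr_cons, sh_zero, ih]

lemma sh_pr (f g : M → N) (c : Coch N) (x : M) :
    sh x (pr f g c) = pull g (sh (g x) (sh (f x) c)) + pr f g (sh (f x) c) := by
  funext l; simp

lemma del_pr (f g : M → N) (c : Coch N) :
    del (pr f g c) + pr f g (del c) = pull f c + pull g c := by
  funext l
  induction l generalizing c with
  | nil => simp [CharTwo.add_self_eq_zero]
  | cons x l ih =>
    have h := ih (sh (f x) c)
    simp only [Pi.add_apply] at h
    simp only [Pi.add_apply, del_cons, pr_cons, sh_pr, sh_del, del_add, del_pull, pr_add,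
      pull_apply, sh_apply, List.map_cons] at h ⊢
    grind

/-- The homogeneous component of length `k`. -/
def comp (k : ℕ) (c : Coch M) : Coch M := fun l => if l.length = k then c l else 0

lemma comp_apply (k : ℕ) (c : Coch M) (l : List M) :
    comp k c l = if l.length = k then c l else 0 := rfl

lemma comp_add (k : ℕ) (a b : Coch M) : comp k (a + b) = comp k a + comp k b := by
  funext l
  simp only [comp_apply, Pi.add_apply]
  split_ifs <;> simp

lemma comp_zero (k : ℕ) : comp k (0 : Coch M) = 0 := by
  funext l
  simp [comp_apply]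

lemma comp_comp (k : ℕ) (a : Coch M) : comp k (comp k a) = comp k a := by
  funext l
  simp only [comp_apply]
  split_ifs <;> rfl

lemma comp_comp_ne {j k : ℕ} (h : j ≠ k) (a : Coch M) : comp j (comp k a) = 0 := by
  funext l
  simp only [comp_apply, Pi.zero_apply]
  split_ifs <;> simp_all

lemma comp_pull (k : ℕ) (f : M → N) (c : Coch N) : comp k (pull f c) = pull f (comp k c) := by
  funext l
  simp [comp_apply]

lemma sh_comp_zero (x : M) (c : Coch M) : sh x (comp 0 c) = 0 := by
  funext l
  simp [comp_apply]

lemma sh_comp_succ (k : ℕ) (x : M) (c : Coch M) : sh x (comp (k + 1) c) = comp k (sh x c) := by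
  funext l
  simp [comp_apply]

lemma del_comp (k : ℕ) (c : Coch M) : del (comp k c) = comp (k + 1) (del c) := by
  funext l
  induction l generalizing c k with
  | nil => simp [comp_apply]
  | cons x l ih =>
    cases k with
    | zero =>
      simp only [del_cons, sh_comp_zero, del_zero, comp_apply, Pi.zero_apply, add_zero,
        List.length_cons]
      cases l with
      | nil => simp
      | cons y l => simp
    | succ k =>
      simp only [del_cons, sh_comp_succ, ih]
      simp only [comp_apply, List.length_cons, add_left_inj, del_cons]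
      split_ifs <;> simp

lemma comp_zero_del (c : Coch M) : comp 0 (del c) = 0 := by
  funext l
  simp only [comp_apply, Pi.zero_apply]
  split_ifs with h
  · simp [List.length_eq_zero_iff.mp h]
  · rfl

/-- The cochain vanishes on lists of length more than `n`. -/
def Sup (n : ℕ) (c : Coch M) : Prop := ∀ l : List M, n < l.length → c l = 0

lemma Sup.add {n : ℕ} {a b : Coch M} (ha : Sup n a) (hb : Sup n b) : Sup n (a + b) := by
  intro l hl
  simp [ha l hl, hb l hl]

lemma Sup.mono {n m : ℕ} (h : n ≤ m) {a : Coch M} (ha : Sup n a) : Sup m a :=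
  fun l hl => ha l (lt_of_le_of_lt h hl)

lemma Sup.zero (n : ℕ) : Sup n (0 : Coch M) := fun _ _ => rfl

lemma Sup.sh {n : ℕ} {a : Coch M} (ha : Sup n a) (x : M) : Sup n (sh x a) := by
  intro l hl
  exact ha _ (by simp; omega)

lemma Sup.sh' {n : ℕ} {a : Coch M} (ha : Sup (n + 1) a) (x : M) : Sup n (Coch.sh x a) := by
  intro l hl
  exact ha _ (by simp; omega)

lemma Sup.del {n : ℕ} {a : Coch M} (ha : Sup n a) : Sup (n + 1) (del a) := by
  intro l hl
  induction l generalizing n a with
  | nil => simp
  | cons x l ih =>
    simp only [List.length_cons, add_lt_add_iff_right] at hl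
    rw [del_cons, ha l hl, zero_add]
    cases n with
    | zero =>
      have : Coch.sh x a = 0 := by
        funext l
        exact ha _ (by simp)
      rw [this, del_zero]; rfl
    | succ n => exact ih (ha.sh' x) hl

lemma Sup.pull {n : ℕ} {a : Coch N} (ha : Sup n a) (f : M → N) : Sup n (pull f a) := by
  intro l hl
  exact ha _ (by simpa using hl)

lemma Sup.pr {n : ℕ} {a : Coch N} (ha : Sup n a) (f g : M → N) : Sup n (pr f g a) := by
  intro l hl
  induction l generalizing a n with
  | nil => simp
  | cons x l ih =>
    rw [pr_cons, ha _ (by simp at hl ⊢; omega), zero_add]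
    cases n with
    | zero =>
      have : Coch.sh (f x) a = 0 := by
        funext l
        exact ha _ (by simp)
      rw [this, pr_zero]; rfl
    | succ n =>
      exact ih (ha.sh' (f x)) (by simpa using hl)

lemma Sup.comp (k : ℕ) (a : Coch M) : Sup k (comp k a) := by
  intro l hl
  rw [comp_apply, if_neg (by omega)]

lemma comp_eq_zero_of_sup {n k : ℕ} {a : Coch M} (ha : Sup n a) (h : n < k) : Coch.comp k a = 0 := by
  funext l
  rw [comp_apply]
  split_ifs with hl
  · rw [ha l (by omega)]; rfl
  · rfl

/-- Boundedness. -/
def Bdd (c : Coch M) : Prop := ∃ n, Sup n c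

lemma Bdd.add {a b : Coch M} (ha : Bdd a) (hb : Bdd b) : Bdd (a + b) := by
  obtain ⟨n, hn⟩ := ha
  obtain ⟨m, hm⟩ := hb
  exact ⟨max n m, (hn.mono (le_max_left _ _)).add (hm.mono (le_max_right _ _))⟩

lemma Bdd.zero : Bdd (0 : Coch M) := ⟨0, Sup.zero 0⟩

lemma Bdd.del {a : Coch M} (ha : Bdd a) : Bdd (del a) := by
  obtain ⟨n, hn⟩ := ha
  exact ⟨n + 1, hn.del⟩

lemma Bdd.pull {a : Coch N} (ha : Bdd a) (f : M → N) : Bdd (pull f a) := by
  obtain ⟨n, hn⟩ := ha
  exact ⟨n, hn.pull f⟩

lemma Bdd.pr {a : Coch N} (ha : Bdd a) (f g : M → N) : Bdd (pr f g a) := by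
  obtain ⟨n, hn⟩ := ha
  exact ⟨n, hn.pr f g⟩

lemma Bdd.comp (k : ℕ) (a : Coch M) : Bdd (comp k a) := ⟨k, Sup.comp k a⟩

/-- Auxiliary recursion for the twisted cup product. -/
def twAux (S : M → M) : ℕ → List M → Coch M → Coch M → ZMod 2
  | _, [], _, _ => 0
  | t, x :: l, a, b => a [x] * b ((x :: l).map S^[t]) + twAux S (t + 1) l (sh x a) b

/-- The twisted cup product. -/
def tw (S : M → M) (t : ℕ) (a b : Coch M) : Coch M := fun l => twAux S t l a b

@[simp] lemma tw_nil (S : M → M) (t : ℕ) (a b : Coch M) : tw S t a b [] = 0 := rfl

lemma tw_cons (S : M → M) (t : ℕ) (a b : Coch M) (x : M) (l : List M) :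
    tw S t a b (x :: l) = a [x] * b ((x :: l).map S^[t]) + tw S (t + 1) (sh x a) b l := rfl

lemma tw_add_left (S : M → M) (t : ℕ) (a a' b : Coch M) :
    tw S t (a + a') b = tw S t a b + tw S t a' b := by
  funext l
  induction l generalizing t a a' with
  | nil => simp
  | cons x l ih =>
    simp only [tw_cons, sh_add, ih, Pi.add_apply]
    ring

lemma tw_add_right (S : M → M) (t : ℕ) (a b b' : Coch M) :
    tw S t a (b + b') = tw S t a b + tw S t a b' := by
  funext l
  induction l generalizing t a with
  | nil => simp
  | cons x l ih =>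
    simp only [tw_cons, ih, Pi.add_apply]
    ring

lemma del_smul (r : ZMod 2) (c : Coch M) : del (r • c) = r • del c := by
  funext l
  induction l generalizing c with
  | nil => simp
  | cons x l ih =>
    have : sh x (r • c) = r • sh x c := rfl
    simp only [del_cons, this, ih, Pi.smul_apply, smul_eq_mul]
    ring

lemma sh_tw (S : M → M) (t : ℕ) (a b : Coch M) (x : M) :
    sh x (tw S t a b) = a [x] • pull S^[t] (sh (S^[t] x) b) + tw S (t + 1) (sh x a) b := by
  funext l
  simp [tw_cons]

lemma del_tw (S : M → M) (t : ℕ) (a b : Coch M) :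
    del (tw S (t + 1) a b) =
      tw S t (del a) b + tw S (t + 1) a (del b) + a [] • pull S^[t] b + b [] • a := by
  funext l
  induction l generalizing t a with
  | nil =>
    simp only [del_nil, Pi.add_apply, tw_nil, Pi.smul_apply, smul_eq_mul, pull_apply, List.map_nil]
    grind
  | cons x l ih =>
    have h := ih (t + 1) (sh x a)
    simp only [del_cons, sh_tw, del_add, del_smul, del_pull, Pi.add_apply, Pi.smul_apply,
      smul_eq_mul, pull_apply, tw_cons, sh_del, tw_add_left, del_nil, add_zero, List.map_cons,
      sh_apply] at h ⊢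
    rw [h]
    grind

lemma pull_tw (S : M → M) (t : ℕ) (a b : Coch M) :
    pull S (tw S t a b) = tw S (t + 1) (pull S a) b := by
  funext l
  induction l generalizing t a with
  | nil => simp
  | cons x l ih =>
    have h := ih (t + 1) (sh (S x) a)
    simp only [pull_apply] at h
    simp only [pull_apply, List.map_cons, tw_cons, h, sh_pull, List.map_map,
      Function.iterate_succ, Function.comp_apply, List.map_nil]

lemma tw_pull (S : M → M) (t : ℕ) (a b : Coch M) :
    tw S t a (pull S b) = tw S (t + 1) a b := by
  funext l
  induction l generalizing t a with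
  | nil => simp
  | cons x l ih =>
    simp only [tw_cons, ih, pull_apply, List.map_map, List.map_cons]
    simp only [← Function.comp_apply (f := S), ← Function.iterate_succ']

lemma Sup.tw (S : M → M) (t : ℕ) {n m : ℕ} {a b : Coch M} (ha : Sup n a) (hb : Sup m b) :
    Sup (n + m) (tw S t a b) := by
  intro l hl
  induction l generalizing t n a with
  | nil => simp
  | cons x l ih =>
    rw [tw_cons]
    rw [hb _ (by simp only [List.length_map]; omega), mul_zero, zero_add]
    cases n with
    | zero =>
      have h0 : Coch.sh x a = 0 := by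
        funext l
        exact ha _ (by simp)
      rw [h0]
      have : ∀ (l : List M) (t : ℕ), Coch.tw S t 0 b l = 0 := by
        intro l
        induction l with
        | nil => simp
        | cons y l ih' => intro t; simp [tw_cons, sh_zero, ih']
      exact this l _
    | succ n =>
      exact ih (t + 1) (ha.sh' x) (by simp at hl; omega)

lemma Bdd.tw (S : M → M) (t : ℕ) {a b : Coch M} (ha : Bdd a) (hb : Bdd b) :
    Bdd (tw S t a b) := by
  obtain ⟨n, hn⟩ := ha
  obtain ⟨m, hm⟩ := hb
  exact ⟨n + m, Sup.tw S t hn hm⟩

end Coch

end Pool.Agent.Helper10
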