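import Pool.Agent.Helper10.AS1

/-!
# Locally zero cochains, involutions
-/

set_option autoImplicit false
set_option linter.unusedSectionVars false

noncomputable section

namespace Pool.Agent.Helper10

open Topology Set Filter

namespace Coch

variable {M N : Type*}

/-- `c` vanishes on all tuples of points in `V`. -/
def Van (c : Coch M) (V : Set M) : Prop := ∀ l : List M, (∀ y ∈ l, y ∈ V) → c l = 0

lemma Van.mono {c : Coch M} {V W : Set M} (h : Van c V) (hW : W ⊆ V) : Van c W :=
  fun l hl => h l fun y hy => hW (hl y hy)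

lemma Van.zero (V : Set M) : Van (0 : Coch M) V := fun _ _ => rfl

lemma Van.add {a b : Coch M} {V : Set M} (ha : Van a V) (hb : Van b V) : Van (a + b) V := by
  intro l hl
  simp [ha l hl, hb l hl]

lemma Van.nil {c : Coch M} {V : Set M} (h : Van c V) : c [] = 0 := h [] (by simp)

lemma Van.sh {c : Coch M} {V : Set M} (h : Van c V) {x : M} (hx : x ∈ V) : Van (sh x c) V := by
  intro l hl
  exact h _ (by simpa [hx] using hl)

lemma Van.del {c : Coch M} {V : Set M} (h : Van c V) : Van (del c) V := by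
  intro l hl
  induction l generalizing c with
  | nil => simp
  | cons x l ih =>
    have hx : x ∈ V := hl x (by simp)
    have hl' : ∀ y ∈ l, y ∈ V := fun y hy => hl y (by simp [hy])
    rw [del_cons, h l hl', ih (h.sh hx) hl', add_zero]

lemma Van.pull {c : Coch N} {W : Set N} (h : Van c W) {f : M → N} {V : Set M}
    (hf : MapsTo f V W) : Van (pull f c) V := by
  intro l hl
  refine h _ ?_
  intro y hy
  obtain ⟨z, hz, rfl⟩ := List.mem_map.mp hy
  exact hf (hl z hz)

lemma Van.pr {c : Coch N} {W : Set N} (h : Van c W) {f g : M → N} {V : Set M}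
    (hf : MapsTo f V W) (hg : MapsTo g V W) : Van (pr f g c) V := by
  intro l hl
  induction l generalizing c with
  | nil => simp
  | cons x l ih =>
    have hx : x ∈ V := hl x (by simp)
    have hl' : ∀ y ∈ l, y ∈ V := fun y hy => hl y (by simp [hy])
    rw [pr_cons, ih (h.sh (hf hx)) hl', add_zero]
    refine h _ ?_
    intro y hy
    simp only [List.mem_cons, List.mem_map] at hy
    rcases hy with rfl | rfl | ⟨z, hz, rfl⟩
    · exact hf hx
    · exact hg hx
    · exact hg (hl' z hz)

lemma Van.tw {S : M → M} {a b : Coch M} {V : Set M} (h : ∀ i, Van (Coch.pull S^[i] b) V) (t : ℕ) :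
    Van (tw S t a b) V := by
  intro l hl
  induction l generalizing t a with
  | nil => simp
  | cons x l ih =>
    have hl' : ∀ y ∈ l, y ∈ V := fun y hy => hl y (by simp [hy])
    rw [tw_cons, ih (t + 1) hl', add_zero]
    have := h t (x :: l) hl
    rw [pull_apply] at this
    rw [this, mul_zero]

lemma Van.comp {c : Coch M} {V : Set M} (h : Van c V) (k : ℕ) : Van (comp k c) V := by
  intro l hl
  rw [comp_apply, h l hl]
  split_ifs <;> rfl

variable [TopologicalSpace M] [TopologicalSpace N]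

/-- `c` is locally zero along `P`, as a cochain on `X`. -/
def LZ (X P : Set M) (c : Coch M) : Prop := c [] = 0 ∧ ∀ x ∈ P, ∃ V ∈ 𝓝[X] x, Van c V

namespace LZ

variable {X P Q : Set M} {a b c : Coch M}

lemma zero (X P : Set M) : LZ X P (0 : Coch M) :=
  ⟨rfl, fun _ _ => ⟨univ, univ_mem, Van.zero _⟩⟩

lemma add (ha : LZ X P a) (hb : LZ X P b) : LZ X P (a + b) := by
  refine ⟨by simp [ha.1, hb.1], fun x hx => ?_⟩
  obtain ⟨V, hV, hVa⟩ := ha.2 x hx
  obtain ⟨W, hW, hWb⟩ := hb.2 x hx
  exact ⟨V ∩ W, inter_mem hV hW, (hVa.mono inter_subset_left).add (hWb.mono inter_subset_right)⟩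

lemma del (ha : LZ X P a) : LZ X P (del a) := by
  refine ⟨by simp, fun x hx => ?_⟩
  obtain ⟨V, hV, hVa⟩ := ha.2 x hx
  exact ⟨V, hV, hVa.del⟩

lemma comp (ha : LZ X P a) (k : ℕ) : LZ X P (comp k a) := by
  refine ⟨by simp [comp_apply, ha.1], fun x hx => ?_⟩
  obtain ⟨V, hV, hVa⟩ := ha.2 x hx
  exact ⟨V, hV, hVa.comp k⟩

lemma mono (ha : LZ X P a) (h : Q ⊆ P) : LZ X Q a := ⟨ha.1, fun x hx => ha.2 x (h hx)⟩

lemma restrict {Y : Set M} (ha : LZ X P a) (h : Y ⊆ X) : LZ Y P a := by
  refine ⟨ha.1, fun x hx => ?_⟩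
  obtain ⟨V, hV, hVa⟩ := ha.2 x hx
  exact ⟨V, nhdsWithin_mono x h hV, hVa⟩

lemma sub {Y : Set M} (ha : LZ X X a) (h : Y ⊆ X) : LZ Y Y a := (ha.mono h).restrict h

lemma union (h1 : LZ X P a) (h2 : LZ X Q a) : LZ X (P ∪ Q) a := by
  refine ⟨h1.1, fun x hx => ?_⟩
  rcases hx with hx | hx
  · exact h1.2 x hx
  · exact h2.2 x hx

lemma of_van (h : Van a X) : LZ X P a :=
  ⟨h.nil, fun _ _ => ⟨X, self_mem_nhdsWithin, h⟩⟩

lemma pull {X P : Set M} {Y Q : Set N} {c : Coch N} (hc : LZ Y Q c) {f : M → N}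
    (hf : ContinuousOn f X) (hXY : MapsTo f X Y) (hPQ : MapsTo f P Q) (hPX : P ⊆ X) :
    LZ X P (pull f c) := by
  refine ⟨hc.1, fun x hx => ?_⟩
  obtain ⟨V, hV, hVc⟩ := hc.2 (f x) (hPQ hx)
  have : Tendsto f (𝓝[X] x) (𝓝[Y] (f x)) :=
    tendsto_nhdsWithin_of_tendsto_nhds_of_eventually_within _ (hf x (hPX hx))
      (eventually_mem_nhdsWithin.mono hXY)
  exact ⟨f ⁻¹' V, this hV, hVc.pull fun y hy => hy⟩

end LZ

/-- `S` is a continuous involution of `X`. -/
structure InvOn (S : M → M) (X : Set M) : Prop where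
  maps : MapsTo S X X
  cont : ContinuousOn S X
  inv : ∀ x ∈ X, S (S x) = x

/-- The total differential associated with `S`. -/
def Dif (S : M → M) (c : Coch M) : Coch M := del c + c + Coch.pull S c

lemma Dif_add (S : M → M) (a b : Coch M) : Dif S (a + b) = Dif S a + Dif S b := by
  simp only [Dif, del_add, pull_add]
  abel

lemma Dif_zero (S : M → M) : Dif S (0 : Coch M) = 0 := by
  simp [Dif, del_zero, pull_zero]

@[simp] lemma Dif_nil (S : M → M) (c : Coch M) : Dif S c [] = 0 := by
  simp [Dif, CharTwo.add_self_eq_zero]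

lemma Bdd.Dif {a : Coch M} (ha : Bdd a) (S : M → M) : Bdd (Dif S a) :=
  (ha.del.add ha).add (ha.pull S)

lemma InvOn.van_pull_pull {S : M → M} {X : Set M} (hS : InvOn S X) (c : Coch M) :
    Van (pull S (pull S c) + c) X := by
  intro l hl
  have : l.map (S ∘ S) = l := by
    conv_rhs => rw [← List.map_id l]
    exact List.map_congr_left fun x hx => hS.inv x (hl x hx)
  simp only [pull_pull, Pi.add_apply, pull_apply, this]
  exact CharTwo.add_self_eq_zero _

lemma InvOn.van_Dif_Dif {S : M → M} {X : Set M} (hS : InvOn S X) (c : Coch M) :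
    Van (Dif S (Dif S c)) X := by
  have h : Dif S (Dif S c) = pull S (pull S c) + c := by
    simp only [Dif, del_add, pull_add, del_del, del_pull]
    funext l
    simp only [Pi.add_apply, Pi.zero_apply]
    grind
  rw [h]
  exact hS.van_pull_pull c

lemma LZ.pullS {S : M → M} {X P : Set M} (hS : InvOn S X) (hP : MapsTo S P P) (hPX : P ⊆ X)
    {c : Coch M} (hc : LZ X P c) : LZ X P (Coch.pull S c) :=
  hc.pull hS.cont hS.maps hP hPX

lemma LZ.Dif {S : M → M} {X P : Set M} (hS : InvOn S X) (hP : MapsTo S P P) (hPX : P ⊆ X)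
    {c : Coch M} (hc : LZ X P c) : LZ X P (Dif S c) :=
  (hc.del.add hc).add (hc.pullS hS hP hPX)

/-- Multiply by a function of the first entry. -/
def hd (e : M → ZMod 2) (c : Coch M) : Coch M
  | [] => 0
  | x :: l => e x * c (x :: l)

@[simp] lemma hd_nil (e : M → ZMod 2) (c : Coch M) : hd e c [] = 0 := rfl

@[simp] lemma hd_cons (e : M → ZMod 2) (c : Coch M) (x : M) (l : List M) :
    hd e c (x :: l) = e x * c (x :: l) := rfl

lemma Bdd.hd {c : Coch M} (hc : Bdd c) (e : M → ZMod 2) : Bdd (hd e c) := by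
  obtain ⟨n, hn⟩ := hc
  refine ⟨n, fun l hl => ?_⟩
  cases l with
  | nil => rfl
  | cons x l => rw [hd_cons, hn _ hl, mul_zero]

lemma del_hd {e : M → ZMod 2} {c : Coch M} (hc : c [] = 0) {l : List M}
    (hl : ∀ x ∈ l, ∀ y ∈ l, e x = e y) : del (hd e c) l = hd e (del c) l := by
  cases l with
  | nil => rfl
  | cons x l =>
    have h1 : sh x (hd e c) = e x • sh x c := rfl
    rw [del_cons, h1, del_smul, hd_cons, del_cons]
    have h2 : hd e c l = e x * c l := by
      cases l with
      | nil => simp [hc]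
      | cons y l => rw [hd_cons, hl y (by simp) x (by simp)]
    rw [h2, mul_add]
    rfl

/-- Acyclicity of the free part: local version along an invariant set where some odd function
does not vanish. -/
lemma free_one {S : M → M} {X P : Set M} (hS : InvOn S X) (hP : MapsTo S P P) (hPX : P ⊆ X)
    {g : M → ℝ} (hg : ContinuousOn g X) (hodd : ∀ x ∈ X, g (S x) = - g x)
    (hne : ∀ x ∈ P, g x ≠ 0) {c : Coch M} (hc : Bdd c) (hc0 : c [] = 0)
    (hD : LZ X P (Dif S c)) :
    ∃ b, Bdd b ∧ b [] = 0 ∧ LZ X P (c + Dif S b) := by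
  classical
  let e : M → ZMod 2 := fun x => if 0 < g x then 1 else 0
  refine ⟨hd e (pull S c), (hc.pull S).hd e, rfl, by simp [hc0], fun x hx => ?_⟩
  -- near `x`, `e` is constant and `e ∘ S = 1 + e`
  have hxX := hPX hx
  obtain ⟨V, hV, hVD⟩ := hD.2 (S x) (hP hx)
  have hSx : Tendsto S (𝓝[X] x) (𝓝[X] (S x)) :=
    tendsto_nhdsWithin_of_tendsto_nhds_of_eventually_within _ (hS.cont x hxX)
      (eventually_mem_nhdsWithin.mono hS.maps)
  have hV' : S ⁻¹' V ∈ 𝓝[X] x := hSx hV
  have hsign : ∀ᶠ y in 𝓝[X] x, g y ≠ 0 ∧ e y = e x := by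
    rcases lt_or_gt_of_ne (hne x hx) with h | h
    · filter_upwards [(hg x hxX).eventually (gt_mem_nhds h)] with y hy
      refine ⟨hy.ne, ?_⟩
      simp only [e]
      rw [if_neg (not_lt.mpr hy.le), if_neg (not_lt.mpr h.le)]
    · filter_upwards [(hg x hxX).eventually (lt_mem_nhds h)] with y hy
      refine ⟨hy.ne', ?_⟩
      simp only [e]
      rw [if_pos hy, if_pos h]
  refine ⟨S ⁻¹' V ∩ {y | g y ≠ 0 ∧ e y = e x} ∩ X,
    inter_mem (inter_mem hV' hsign) self_mem_nhdsWithin, ?_⟩
  intro l hl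
  have hlX : ∀ y ∈ l, y ∈ X := fun y hy => (hl y hy).2
  have hle : ∀ y ∈ l, ∀ z ∈ l, e y = e z := fun y hy z hz =>
    (hl y hy).1.2.2.trans (hl z hz).1.2.2.symm
  have hSS : pull S (pull S c) l = c l := by
    have := hS.van_pull_pull c l hlX
    simp only [Pi.add_apply] at this
    grind
  have hDl : (Dif S c) (l.map S) = 0 := by
    refine hVD _ ?_
    intro y hy
    obtain ⟨z, hz, rfl⟩ := List.mem_map.mp hy
    exact (hl z hz).1.1
  cases l with
  | nil => simp [hc0]
  | cons y l =>
    have hy : y ∈ (y :: l) := by simp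
    have heS : e (S y) = 1 + e y := by
      have h1 : g y ≠ 0 := (hl y hy).1.2.1
      have h2 := hodd y (hlX y hy)
      simp only [e, h2]
      rcases lt_or_gt_of_ne h1 with h | h
      · rw [if_pos (by linarith), if_neg (by linarith)]
        simp
      · rw [if_neg (by linarith), if_pos h]
        decide
    have h3 := del_hd (e := e) (c := pull S c) (by simpa using hc0) hle
    simp only [Pi.add_apply, Dif, h3, hd_cons, pull_apply, List.map_cons, del_pull, heS] at hDl hSS ⊢
    rw [hSS]
    grind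

/-- Gluing of cochains: use `a` if the first entry is in `E` and `b` otherwise. -/
def glue (E : Set M) (a b : Coch M) : Coch M := by
  classical
  exact fun l => match l with
    | [] => a []
    | x :: l => if x ∈ E then a (x :: l) else b (x :: l)

lemma glue_nil (E : Set M) (a b : Coch M) : glue E a b [] = a [] := rfl

lemma glue_cons_mem {E : Set M} (a b : Coch M) {x : M} (hx : x ∈ E) (l : List M) :
    glue E a b (x :: l) = a (x :: l) := by
  simp [glue, hx]

lemma glue_cons_not_mem {E : Set M} (a b : Coch M) {x : M} (hx : x ∉ E) (l : List M) :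
    glue E a b (x :: l) = b (x :: l) := by
  simp [glue, hx]

lemma glue_mem_or {E : Set M} {a b : Coch M} (l : List M) :
    glue E a b l = a l ∨ glue E a b l = b l := by
  cases l with
  | nil => left; rfl
  | cons x l =>
    by_cases hx : x ∈ E
    · left; exact glue_cons_mem a b hx l
    · right; exact glue_cons_not_mem a b hx l

lemma Sup.glue {n : ℕ} {a b : Coch M} (ha : Sup n a) (hb : Sup n b) (E : Set M) :
    Sup n (glue E a b) := by
  intro l hl
  cases l with
  | nil => exact ha [] hl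
  | cons x l =>
    by_cases hx : x ∈ E
    · rw [glue_cons_mem a b hx l]; exact ha _ hl
    · rw [glue_cons_not_mem a b hx l]; exact hb _ hl

lemma Bdd.glue {a b : Coch M} (ha : Bdd a) (hb : Bdd b) (E : Set M) :
    Bdd (glue E a b) := by
  obtain ⟨n, hn⟩ := ha
  obtain ⟨m, hm⟩ := hb
  exact ⟨max n m, (hn.mono (le_max_left _ _)).glue (hm.mono (le_max_right _ _)) E⟩

/-- The gluing lemma. -/
lemma glue_spec {X U V E : Set M} {a b : Coch M}
    (hU : ∀ x ∈ U, x ∉ V → ∀ᶠ y in 𝓝[X] x, y ∈ E)
    (hV : ∀ x ∈ V, x ∉ U → ∀ᶠ y in 𝓝[X] x, y ∉ E)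
    (hab : LZ X (U ∩ V) (a + b)) :
    LZ X U (glue E a b + a) ∧ LZ X V (glue E a b + b) := by
  have h0 : a [] = b [] := by
    have := hab.1
    simp only [Pi.add_apply] at this
    grind
  constructor
  · refine ⟨by simp [glue_nil, CharTwo.add_self_eq_zero], fun x hx => ?_⟩
    by_cases hxV : x ∈ V
    · obtain ⟨W, hW, hWab⟩ := hab.2 x ⟨hx, hxV⟩
      refine ⟨W, hW, fun l hl => ?_⟩
      have h1 := hWab l hl
      simp only [Pi.add_apply] at h1 ⊢
      rcases glue_mem_or (E := E) (a := a) (b := b) l with h | h <;> rw [h] <;> grind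
    · refine ⟨{y | y ∈ E}, hU x hx hxV, fun l hl => ?_⟩
      cases l with
      | nil => simp [glue_nil, CharTwo.add_self_eq_zero]
      | cons y l =>
        have : y ∈ E := hl y (by simp)
        rw [Pi.add_apply, glue_cons_mem a b this l]
        exact CharTwo.add_self_eq_zero _
  · refine ⟨by simp [glue_nil, h0, CharTwo.add_self_eq_zero], fun x hx => ?_⟩
    by_cases hxU : x ∈ U
    · obtain ⟨W, hW, hWab⟩ := hab.2 x ⟨hxU, hx⟩
      refine ⟨W, hW, fun l hl => ?_⟩
      have h1 := hWab l hl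
      simp only [Pi.add_apply] at h1 ⊢
      rcases glue_mem_or (E := E) (a := a) (b := b) l with h | h <;> rw [h] <;> grind
    · refine ⟨{y | y ∉ E}, hV x hx hxU, fun l hl => ?_⟩
      cases l with
      | nil => simp [glue_nil, h0, CharTwo.add_self_eq_zero]
      | cons y l =>
        have : y ∉ E := hl y (by simp)
        rw [Pi.add_apply, glue_cons_not_mem a b this l]
        exact CharTwo.add_self_eq_zero _

/-- Acyclicity of the free part. -/
lemma free_acyc {S : M → M} {X : Set M} (hS : InvOn S X) :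
    ∀ (d : ℕ) (P : Set M), MapsTo S P P → P ⊆ X →
    ∀ (g : Fin d → M → ℝ), (∀ i, ContinuousOn (g i) X) →
      (∀ i, ∀ x ∈ X, g i (S x) = - g i x) → (∀ x ∈ P, ∃ i, g i x ≠ 0) →
    ∀ c : Coch M, Bdd c → c [] = 0 → LZ X P (Dif S c) →
      ∃ b, Bdd b ∧ b [] = 0 ∧ LZ X P (c + Dif S b) := by
  intro d
  induction d with
  | zero =>
    intro P _ _ g _ _ hne c _ hc0 _
    refine ⟨0, Bdd.zero, rfl, ?_⟩
    rw [Dif_zero, add_zero]
    exact ⟨hc0, fun x hx => (hne x hx).elim fun i => i.elim0⟩
  | succ d ih =>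
    intro P hP hPX g hg hodd hne c hc hc0 hD
    set U : Set M := {x ∈ P | g 0 x ≠ 0} with hUdef
    set V : Set M := {x ∈ P | ∃ i : Fin d, g i.succ x ≠ 0} with hVdef
    have hUP : U ⊆ P := fun x hx => hx.1
    have hVP : V ⊆ P := fun x hx => hx.1
    have hSU : MapsTo S U U := fun x hx =>
      ⟨hP hx.1, by rw [hodd 0 x (hPX hx.1)]; exact neg_ne_zero.mpr hx.2⟩
    have hSV : MapsTo S V V := fun x hx =>
      ⟨hP hx.1, hx.2.imp fun i hi => by rw [hodd _ x (hPX hx.1)]; exact neg_ne_zero.mpr hi⟩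
    have hSUV : MapsTo S (U ∩ V) (U ∩ V) := fun x hx => ⟨hSU hx.1, hSV hx.2⟩
    have hUVX : U ∩ V ⊆ X := fun x hx => hPX (hUP hx.1)
    obtain ⟨a, ha, ha0, haD⟩ := free_one hS hSU (hUP.trans hPX) (hg 0) (hodd 0)
      (fun x hx => hx.2) hc hc0 (hD.mono hUP)
    obtain ⟨b, hb, hb0, hbD⟩ := ih V hSV (hVP.trans hPX) (fun i => g i.succ)
      (fun i => hg _) (fun i => hodd _) (fun x hx => hx.2) c hc hc0 (hD.mono hVP)
    have hab : LZ X (U ∩ V) (Dif S (a + b)) := by
      have h1 := (haD.mono (inter_subset_left (t := V))).add (hbD.mono (inter_subset_right (s := U)))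
      have h2 : c + Dif S a + (c + Dif S b) = Dif S (a + b) := by
        rw [Dif_add]
        funext l
        simp only [Pi.add_apply]
        grind
      rwa [h2] at h1
    obtain ⟨f, hf, hf0, hfD⟩ := free_one hS hSUV hUVX (hg 0) (hodd 0)
      (fun x hx => hx.1.2) (ha.add hb) (by simp [ha0, hb0]) hab
    set E : Set M := {x | ∑ i : Fin d, |g i.succ x| < |g 0 x|} with hE
    have hU' : ∀ x ∈ U, x ∉ V → ∀ᶠ y in 𝓝[X] x, y ∈ E := by
      intro x hx hxV
      have hxX := hPX (hUP hx)
      have h0 : ∀ i : Fin d, g i.succ x = 0 := by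
        intro i
        by_contra hne
        exact hxV ⟨hx.1, i, hne⟩
      have h1 : ContinuousWithinAt (fun y => |g 0 y| - ∑ i : Fin d, |g i.succ y|) X x := by
        refine ContinuousWithinAt.sub (hg 0 x hxX).abs ?_
        exact tendsto_finsetSum _ fun i _ => (hg i.succ x hxX).abs
      have h2 : 0 < |g 0 x| - ∑ i : Fin d, |g i.succ x| := by
        simp only [h0, abs_zero, Finset.sum_const_zero, sub_zero, abs_pos]
        exact hx.2
      filter_upwards [h1.eventually (lt_mem_nhds h2)] with y hy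
      simp only [hE, Set.mem_ofPred_eq]
      linarith
    have hV' : ∀ x ∈ V, x ∉ U → ∀ᶠ y in 𝓝[X] x, y ∉ E := by
      intro x hx hxU
      have hxX := hPX (hVP hx)
      have h0 : g 0 x = 0 := by
        by_contra hne
        exact hxU ⟨hx.1, hne⟩
      have h1 : ContinuousWithinAt (fun y => ∑ i : Fin d, |g i.succ y| - |g 0 y|) X x := by
        refine ContinuousWithinAt.sub ?_ (hg 0 x hxX).abs
        exact tendsto_finsetSum _ fun i _ => (hg i.succ x hxX).abs
      have h2 : 0 < ∑ i : Fin d, |g i.succ x| - |g 0 x| := by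
        obtain ⟨i, hi⟩ := hx.2
        simp only [h0, abs_zero, sub_zero]
        exact Finset.sum_pos' (fun j _ => abs_nonneg _) ⟨i, Finset.mem_univ _, abs_pos.mpr hi⟩
      filter_upwards [h1.eventually (lt_mem_nhds h2)] with y hy
      simp only [hE, Set.mem_ofPred_eq, not_lt]
      linarith
    have hglue := glue_spec (a := a + Dif S f) (b := b) hU' hV' (by
      have : a + Dif S f + b = a + b + Dif S f := by abel
      rw [this]; exact hfD)
    set q := glue E (a + Dif S f) b with hq
    refine ⟨q, (ha.add (hf.Dif S)).glue hb E, ?_, ?_⟩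
    · rw [hq, glue_nil]
      simp [ha0]
    · have hPUV : P = U ∪ V := by
        ext x
        constructor
        · intro hx
          obtain ⟨i, hi⟩ := hne x hx
          rcases Fin.eq_zero_or_eq_succ i with rfl | ⟨j, rfl⟩
          · exact Or.inl ⟨hx, hi⟩
          · exact Or.inr ⟨hx, j, hi⟩
        · rintro (hx | hx)
          · exact hUP hx
          · exact hVP hx
      rw [hPUV]
      refine LZ.union ?_ ?_
      · have h1 := hglue.1.Dif hS hSU (hUP.trans hPX)
        have h2 : LZ X U (Dif S (Dif S f)) := LZ.of_van (hS.van_Dif_Dif f)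
        have h3 := (h1.add h2).add haD
        convert h3 using 1
        simp only [Dif_add]
        funext l
        simp only [Pi.add_apply]
        grind
      · have h1 := hglue.2.Dif hS hSV (hVP.trans hPX)
        have h3 := h1.add hbD
        convert h3 using 1
        simp only [Dif_add]
        funext l
        simp only [Pi.add_apply]
        grind

end Coch

end Pool.Agent.Helper10
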