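import Pool.Agent.Helper10.AS2

/-!
# The localization theorem
-/

set_option autoImplicit false
set_option linter.unusedSectionVars false

noncomputable section

namespace Pool.Agent.Helper10

open Topology Set Filter

namespace Coch

variable {M : Type*}

/-- The fixed points of `S` in `X`. -/
def Fx (S : M → M) (X : Set M) : Set M := {x ∈ X | S x = x}

variable [MetricSpace M]

lemma exists_rho {S : M → M} {X : Set M} (hS : InvOn S X) (hne : (Fx S X).Nonempty) :
    ∃ ρ : M → M, (∀ x ∈ X, ρ x ∈ Fx S X) ∧ (∀ x ∈ X, ρ (S x) = ρ x) ∧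
      (∀ x ∈ Fx S X, ρ x = x) ∧ ∀ z ∈ Fx S X, Tendsto ρ (𝓝[X] z) (𝓝[Fx S X] z) := by
  classical
  have : Nonempty M := ⟨hne.some⟩
  set F := Fx S X with hF
  let Q : M → M → Prop := fun x z => z ∈ F ∧
    (dist x z < Metric.infDist x F + dist x (S x) ∨
      dist (S x) z < Metric.infDist (S x) F + dist (S x) x)
  have hQ : ∀ x ∈ X, S x ≠ x → ∃ z, Q x z := by
    intro x hx hne'
    have h1 : Metric.infDist x F < Metric.infDist x F + dist x (S x) := by
      have : 0 < dist x (S x) := dist_pos.mpr (Ne.symm hne')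
      linarith
    obtain ⟨z, hz, hz'⟩ := (Metric.infDist_lt_iff hne).mp h1
    exact ⟨z, hz, Or.inl hz'⟩
  let ρ : M → M := fun x => if S x = x then x else Classical.epsilon (Q x)
  have hρ1 : ∀ x, S x = x → ρ x = x := fun x hx => by simp only [ρ]; rw [if_pos hx]
  have hρ2 : ∀ x ∈ X, S x ≠ x → Q x (ρ x) := by
    intro x hx hne'
    simp only [ρ]
    rw [if_neg hne']
    exact Classical.epsilon_spec (hQ x hx hne')
  refine ⟨ρ, ?_, ?_, ?_, ?_⟩
  · intro x hx
    by_cases h : S x = x
    · rw [hρ1 x h]; exact ⟨hx, h⟩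
    · exact (hρ2 x hx h).1
  · intro x hx
    by_cases h : S x = x
    · rw [h]
    · have h' : ¬ S (S x) = S x := by
        rw [hS.inv x hx]; exact fun h2 => h h2.symm
      simp only [ρ]
      rw [if_neg h, if_neg h']
      have : Q (S x) = Q x := by
        funext z
        simp only [Q, hS.inv x hx]
        exact propext (and_congr_right fun _ => or_comm)
      rw [this]
  · intro x hx
    exact hρ1 x hx.2
  · intro z hz
    refine tendsto_nhdsWithin_of_tendsto_nhds_of_eventually_within _ ?_ ?_
    · rw [Metric.tendsto_nhds]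
      intro ε hε
      have h1 : ∀ᶠ x in 𝓝[X] z, dist x z < ε / 5 :=
        (eventually_nhdsWithin_of_eventually_nhds
          (Metric.ball_mem_nhds z (by positivity : (0 : ℝ) < ε / 5)))
      have h2 : ∀ᶠ x in 𝓝[X] z, dist (S x) z < ε / 5 := by
        have h3 := hS.cont z hz.1
        have h4 : Tendsto S (𝓝[X] z) (𝓝 z) := by
          have h5 : Tendsto S (𝓝[X] z) (𝓝 (S z)) := h3
          rwa [hz.2] at h5
        exact h4 (Metric.ball_mem_nhds z (by positivity : (0 : ℝ) < ε / 5))
      filter_upwards [h1, h2, self_mem_nhdsWithin] with x hx1 hx2 hxX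
      by_cases h : S x = x
      · rw [hρ1 x h]; linarith
      · have h3 := (hρ2 x hxX h).2
        have h4 : Metric.infDist x F ≤ dist x z := Metric.infDist_le_dist_of_mem hz
        have h5 : Metric.infDist (S x) F ≤ dist (S x) z := Metric.infDist_le_dist_of_mem hz
        have h6 : dist x (S x) ≤ dist x z + dist (S x) z := dist_triangle_right _ _ _
        have h7 : dist (S x) x ≤ dist x z + dist (S x) z := by rw [dist_comm (S x) x]; exact h6
        rcases h3 with h3 | h3
        · have : dist (ρ x) z ≤ dist x (ρ x) + dist x z := by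
            rw [dist_comm x (ρ x)]; exact dist_triangle _ _ _
          linarith
        · have : dist (ρ x) z ≤ dist (S x) (ρ x) + dist (S x) z := by
            rw [dist_comm (S x) (ρ x)]; exact dist_triangle _ _ _
          linarith
    · filter_upwards [self_mem_nhdsWithin] with x hxX
      by_cases h : S x = x
      · rw [hρ1 x h]; exact ⟨hxX, h⟩
      · exact (hρ2 x hxX h).1

/-- First step: make the cochain vanish near the fixed point set. -/
lemma step_retract {S : M → M} {X : Set M} (hS : InvOn S X) {c : Coch M} (hc : Bdd c)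
    (hD : LZ X X (Dif S c)) (hF : LZ (Fx S X) (Fx S X) c) :
    ∃ b, Bdd b ∧ LZ (Fx S X) (Fx S X) b ∧ LZ X (Fx S X) (c + Dif S b) := by
  rcases (Fx S X).eq_empty_or_nonempty with hemp | hne
  · refine ⟨0, Bdd.zero, LZ.zero _ _, ?_⟩
    rw [Dif_zero, add_zero, hemp]
    exact ⟨hF.1, fun x hx => hx.elim⟩
  obtain ⟨ρ, hρF, hρS, hρid, hρt⟩ := exists_rho hS hne
  have hFX : Fx S X ⊆ X := fun x hx => hx.1
  refine ⟨pr id ρ c, hc.pr _ _, ?_, ?_⟩
  · refine ⟨rfl, fun z hz => ?_⟩
    obtain ⟨V, hV, hVc⟩ := hF.2 z hz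
    refine ⟨V ∩ Fx S X, inter_mem hV self_mem_nhdsWithin, ?_⟩
    exact hVc.pr (fun x hx => hx.1) (fun x hx => by rw [hρid x hx.2]; exact hx.1)
  · -- the key identity on tuples in `X`
    have key : Van (c + Dif S (pr id ρ c) + (pull ρ c + pr id ρ (Dif S c))) X := by
      intro l hl
      have h1 : pull S (pr id ρ c) l = pr id ρ (pull S c) l := by
        clear hD hF hc
        rw [pull_apply]
        induction l generalizing c with
        | nil => rfl
        | cons x l ih =>
          have hx : x ∈ X := hl x (by simp)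
          have hl' : ∀ y ∈ l, y ∈ X := fun y hy => hl y (by simp [hy])
          have h2 : l.map (ρ ∘ S) = l.map (S ∘ ρ) := by
            refine List.map_congr_left fun y hy => ?_
            simp only [Function.comp_apply]
            rw [hρS y (hl' y hy), (hρF y (hl' y hy)).2]
          have h3 : ρ (S x) = S (ρ x) := by rw [hρS x hx, (hρF x hx).2]
          simp only [List.map_cons, pr_cons, id, pull_apply, List.map_map, h2, h3]
          rw [ih (c := sh (S x) c) hl', sh_pull]
      have h2 := congrFun (del_pr id ρ c) l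
      have h3 : pull id c = c := by funext l; simp
      simp only [Pi.add_apply, Dif, pr_add, h1, h3] at h2 ⊢
      grind
    have h2 : LZ X (Fx S X) (c + Dif S (pr id ρ c) + (pull ρ c + pr id ρ (Dif S c))) :=
      LZ.of_van key
    have h3 : LZ X (Fx S X) (pull ρ c + pr id ρ (Dif S c)) := by
      refine LZ.add ⟨hF.1, fun z hz => ?_⟩ ⟨rfl, fun z hz => ?_⟩
      · obtain ⟨V, hV, hVc⟩ := hF.2 z hz
        exact ⟨ρ ⁻¹' V, hρt z hz hV, hVc.pull fun x hx => hx⟩
      · obtain ⟨V, hV, hVc⟩ := hD.2 z hz.1
        have hV' : ρ ⁻¹' V ∈ 𝓝[X] z := (hρt z hz) (nhdsWithin_mono z hFX hV)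
        exact ⟨V ∩ ρ ⁻¹' V, inter_mem hV hV', hVc.pr (fun x hx => hx.1) (fun x hx => hx.2)⟩
    have h4 := h2.add h3
    convert h4 using 1
    funext l
    simp only [Pi.add_apply]
    grind

/-- The cochain which is one on tuples of length one. -/
def unit1 : Coch M := fun l => if l.length = 1 then 1 else 0

lemma Dif_unit1 (S : M → M) : Dif S (unit1 : Coch M) = 0 := by
  funext l
  have h : ∀ l : List M, del (unit1 : Coch M) l = 0 := by
    intro l
    cases l with
    | nil => rfl
    | cons x l =>
      cases l with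
      | nil => simp [unit1]
      | cons y l =>
        have h1 : sh x (unit1 : Coch M) = fun l => if l.length = 0 then 1 else 0 := by
          funext l; simp [unit1]
        have h2 : ∀ l : List M, sh y (fun l : List M => if l.length = 0 then (1 : ZMod 2) else 0)
            l = 0 := by
          intro l; simp
        have h3 : sh y (fun l : List M => if l.length = 0 then (1 : ZMod 2) else 0) = 0 := by
          funext l; exact h2 l
        rw [del_cons, h1, del_cons, h3, del_zero]
        cases l with
        | nil => simp [unit1, CharTwo.add_self_eq_zero]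
        | cons z l => simp [unit1]
  simp only [Dif, Pi.add_apply, h, pull_apply, Pi.zero_apply, zero_add, unit1, List.length_map]
  exact CharTwo.add_self_eq_zero _

lemma InvOn.iterate {S : M → M} {X : Set M} (hS : InvOn S X) (i : ℕ) :
    ∀ x ∈ X, S^[i] x = x ∨ S^[i] x = S x := by
  intro x hx
  induction i with
  | zero => left; rfl
  | succ i ih =>
    rw [Function.iterate_succ', Function.comp_apply]
    rcases ih with h | h
    · right; rw [h]
    · left; rw [h, hS.inv x hx]

lemma InvOn.iterate_even {S : M → M} {X : Set M} (hS : InvOn S X) (i : ℕ) :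
    ∀ x ∈ X, S^[i + 2] x = S^[i] x := by
  intro x hx
  rw [Function.iterate_add_apply]
  congr 1
  exact hS.inv x hx

lemma InvOn.parity {S : M → M} {X : Set M} (hS : InvOn S X) (i : ℕ) :
    (∀ x ∈ X, S^[i] x = x) ∨ (∀ x ∈ X, S^[i] x = S x) := by
  induction i with
  | zero => left; intro x _; rfl
  | succ i ih =>
    rcases ih with h | h
    · right; intro x hx; rw [Function.iterate_succ', Function.comp_apply, h x hx]
    · left; intro x hx; rw [Function.iterate_succ', Function.comp_apply, h x hx, hS.inv x hx]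

lemma tw_add_two {S : M → M} {X : Set M} (hS : InvOn S X) (t : ℕ) (a b : Coch M)
    (l : List M) (hl : ∀ y ∈ l, y ∈ X) : tw S (t + 2) a b l = tw S t a b l := by
  induction l generalizing t a with
  | nil => rfl
  | cons x l ih =>
    have hl' : ∀ y ∈ l, y ∈ X := fun y hy => hl y (by simp [hy])
    rw [tw_cons, tw_cons]
    have h1 := ih (t + 1) (sh x a) hl'
    have h2 : (x :: l).map S^[t + 2] = (x :: l).map S^[t] :=
      List.map_congr_left fun y hy => hS.iterate_even t y (hl y hy)
    rw [h2]
    congr 1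

/-- If `a` is the unit cochain on tuples in `V`, then the twisted product with `a` is trivial. -/
lemma tw_unit {S : M → M} {a b : Coch M} {V : Set M} (ha : Van (unit1 + a) V)
    (hb : b [] = 0) (l : List M) (hl : ∀ y ∈ l, y ∈ V) : tw S 0 a b l = b l := by
  have haux : ∀ (l : List M) (t : ℕ) (a : Coch M), Van a V → (∀ y ∈ l, y ∈ V) →
      tw S t a b l = 0 := by
    intro l
    induction l with
    | nil => intro t a _ _; rfl
    | cons x l ih =>
      intro t a ha hl
      have hx : x ∈ V := hl x (by simp)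
      have hl' : ∀ y ∈ l, y ∈ V := fun y hy => hl y (by simp [hy])
      rw [tw_cons, ih (t + 1) (sh x a) (ha.sh hx) hl', add_zero, ha [x] (by simpa using hx),
        zero_mul]
  have haux2 : ∀ (l : List M) (t : ℕ) (a : Coch M),
      (∀ l : List M, l ≠ [] → (∀ y ∈ l, y ∈ V) → a l = 0) → (∀ y ∈ l, y ∈ V) →
      tw S t a b l = 0 := by
    intro l
    induction l with
    | nil => intro t a _ _; rfl
    | cons x l ih =>
      intro t a ha hl
      have hx : x ∈ V := hl x (by simp)
      have hl' : ∀ y ∈ l, y ∈ V := fun y hy => hl y (by simp [hy])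
      rw [tw_cons, ih (t + 1) (sh x a) (fun m _ hm' => ha (x :: m) (by simp)
        (by simpa [hx] using hm')) hl', add_zero,
        ha [x] (by simp) (by simpa using hx), zero_mul]
  cases l with
  | nil => rw [tw_nil, hb]
  | cons x l =>
    have hx : x ∈ V := hl x (by simp)
    have hl' : ∀ y ∈ l, y ∈ V := fun y hy => hl y (by simp [hy])
    rw [tw_cons]
    have h1 : a [x] = 1 := by
      have := ha [x] (by simpa using hx)
      simp only [Pi.add_apply, unit1, List.length_singleton, if_true] at this
      grind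
    rw [h1, one_mul, haux2 l (0 + 1) (sh x a) _ hl', add_zero]
    · simp
    · intro m hm hm'
      have h2 := ha (x :: m) (by simpa [hx] using hm')
      have h3 : m.length ≠ 0 := by
        intro h; exact hm (List.length_eq_zero_iff.mp h)
      simpa [unit1, h3] using h2

/-- The localization theorem: cochains vanishing on the fixed point set form an acyclic complex
for the total differential. -/
theorem localization {S : M → M} {X : Set M} (hS : InvOn S X) {d : ℕ} (g : Fin d → M → ℝ)
    (hg : ∀ i, ContinuousOn (g i) X) (hodd : ∀ i, ∀ x ∈ X, g i (S x) = - g i x)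
    (hzero : ∀ x ∈ X, (∀ i, g i x = 0) → S x = x) {c : Coch M} (hc : Bdd c)
    (hD : LZ X X (Dif S c)) (hF : LZ (Fx S X) (Fx S X) c) :
    ∃ b, Bdd b ∧ LZ (Fx S X) (Fx S X) b ∧ LZ X X (c + Dif S b) := by
  classical
  set F := Fx S X with hFdef
  have hFX : F ⊆ X := fun x hx => hx.1
  obtain ⟨b', hb', hb'F, hb'X⟩ := step_retract hS hc hD hF
  set c' := c + Dif S b' with hc'
  have hc'0 : c' [] = 0 := hb'X.1
  have hSX : MapsTo S X X := hS.maps
  have hc'D : LZ X X (Dif S c') := by
    rw [hc', Dif_add]
    exact hD.add (LZ.of_van (hS.van_Dif_Dif b'))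
  have hc'B : Bdd c' := hc.add (hb'.Dif S)
  -- the contracting cochain on the free part
  have hSP : MapsTo S (X \ F) (X \ F) := by
    intro x hx
    refine ⟨hS.maps hx.1, fun h => hx.2 ⟨hx.1, ?_⟩⟩
    have h1 := h.2
    rw [hS.inv x hx.1] at h1
    exact h1.symm
  have hne : ∀ x ∈ X \ F, ∃ i, g i x ≠ 0 := by
    intro x hx
    by_contra hcon
    push Not at hcon
    exact hx.2 ⟨hx.1, hzero x hx.1 hcon⟩
  obtain ⟨ε, hε, hε0, hεD⟩ := free_acyc hS d (X \ F) hSP sdiff_subset g hg hodd hne unit1
    ⟨1, fun l hl => if_neg (by omega)⟩ (by simp [unit1])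
    (by rw [Dif_unit1]; exact LZ.zero _ _)
  set b'' := tw S 1 ε c' with hb''
  -- Leibniz identity on tuples in X
  have leib : ∀ l : List M, (∀ y ∈ l, y ∈ X) →
      Dif S b'' l = tw S 0 (Dif S ε) c' l + tw S 1 ε (Dif S c') l := by
    intro l hl
    have h1 := congrFun (del_tw S 0 ε c') l
    have h2 := congrFun (pull_tw S 1 ε c') l
    have h3 := congrFun (tw_pull S 1 ε c') l
    have h4 := tw_add_two hS 0 ε c' l hl
    have h5 := tw_add_two hS 0 (pull S ε) c' l hl
    simp only [Dif, hb'', Pi.add_apply, tw_add_left, tw_add_right, hε0, hc'0, zero_smul,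
      add_zero, zero_add, Nat.reduceAdd, Pi.zero_apply] at h1 h2 h3 h4 h5 ⊢
    grind
  refine ⟨b' + b'', hb'.add (Bdd.tw S 1 hε hc'B), ?_, ?_⟩
  · -- vanishing near F
    refine hb'F.add ⟨rfl, fun z hz => ?_⟩
    obtain ⟨V, hV, hVc⟩ := hb'X.2 z hz
    refine ⟨V ∩ F, inter_mem (nhdsWithin_mono z hFX hV) self_mem_nhdsWithin, ?_⟩
    refine Van.tw (fun i => hVc.pull fun x hx => ?_) 1
    rcases hS.iterate i x (hFX hx.2) with h | h
    · rw [h]; exact hx.1
    · rw [h, hx.2.2]; exact hx.1
  · have hgoal : c + Dif S (b' + b'') = c' + Dif S b'' := by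
      rw [Dif_add, hc']; abel
    rw [hgoal]
    refine ⟨by simp [hc'0], fun x hx => ?_⟩
    by_cases hxF : x ∈ F
    · obtain ⟨V, hV, hVc⟩ := hb'X.2 x hxF
      have hSx : Tendsto S (𝓝[X] x) (𝓝[X] x) := by
        have h1 : Tendsto S (𝓝[X] x) (𝓝[X] (S x)) :=
          tendsto_nhdsWithin_of_tendsto_nhds_of_eventually_within _ (hS.cont x hx)
            (eventually_mem_nhdsWithin.mono hS.maps)
        rwa [hxF.2] at h1
      set W : Set M := {y ∈ X | y ∈ V ∧ S y ∈ V} with hW
      have hWn : W ∈ 𝓝[X] x := by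
        filter_upwards [self_mem_nhdsWithin, hV, hSx hV] with y h1 h2 h3 using ⟨h1, h2, h3⟩
      have hWS : MapsTo S W W := by
        intro y hy
        refine ⟨hS.maps hy.1, hy.2.2, ?_⟩
        rw [hS.inv y hy.1]; exact hy.2.1
      refine ⟨W, hWn, ?_⟩
      have hcW : Van c' W := hVc.mono fun y hy => hy.2.1
      have htw : Van b'' W := by
        refine Van.tw (fun i => hcW.pull fun y hy => ?_) 1
        rcases hS.iterate i y hy.1 with h | h
        · rw [h]; exact hy
        · rw [h]; exact hWS hy
      exact hcW.add ((htw.del.add htw).add (htw.pull hWS))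
    · obtain ⟨V, hV, hVu⟩ := hεD.2 x ⟨hx, hxF⟩
      obtain ⟨V1, hV1, hVc1⟩ := hc'D.2 x hx
      obtain ⟨V2, hV2, hVc2⟩ := hc'D.2 (S x) (hS.maps hx)
      have hSx : Tendsto S (𝓝[X] x) (𝓝[X] (S x)) :=
        tendsto_nhdsWithin_of_tendsto_nhds_of_eventually_within _ (hS.cont x hx)
          (eventually_mem_nhdsWithin.mono hS.maps)
      set W : Set M := {y ∈ X | y ∈ V ∧ y ∈ V1 ∧ S y ∈ V2} with hW
      have hWn : W ∈ 𝓝[X] x := by
        filter_upwards [self_mem_nhdsWithin, hV, hV1, hSx hV2] with y h1 h2 h3 h4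
          using ⟨h1, h2, h3, h4⟩
      refine ⟨W, hWn, fun l hl => ?_⟩
      have hlX : ∀ y ∈ l, y ∈ X := fun y hy => (hl y hy).1
      have h1 : tw S 0 (Dif S ε) c' l = c' l :=
        tw_unit (V := W) (hVu.mono fun y hy => hy.2.1) hc'0 l hl
      have h2 : tw S 1 ε (Dif S c') l = 0 := by
        refine Van.tw (V := W) (fun i => ?_) 1 l hl
        rcases hS.parity i with h | h
        · exact hVc1.pull fun y hy => by rw [h y hy.1]; exact hy.2.2.1
        · exact hVc2.pull fun y hy => by rw [h y hy.1]; exact hy.2.2.2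
      rw [Pi.add_apply, leib l hlX, h1, h2, add_zero]
      exact CharTwo.add_self_eq_zero _

end Coch

end Pool.Agent.Helper10
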