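import Pool.Agent.Helper10.AS3

/-!
# Smith theory modulo two
-/

set_option autoImplicit false
set_option linter.unusedSectionVars false

noncomputable section

namespace Pool.Agent.Helper10

open Topology Set Filter

namespace Coch

variable {M : Type*}

section basic

variable [TopologicalSpace M]

/-- Reduced cohomology of `X` vanishes. -/
def Acyclic (X : Set M) : Prop :=
  ∀ c : Coch M, Bdd c → LZ X X (del c) → ∃ b, Bdd b ∧ LZ X X (c + del b)

/-- Reduced cohomology of `X` is one-dimensional, generated by the homogeneous class `θ`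
represented by a cochain on tuples of length `k`. -/
structure IsSph (X : Set M) (k : ℕ) (θ : Coch M) : Prop where
  homog : comp k θ = θ
  closed : LZ X X (del θ)
  nonexact : ∀ b, Bdd b → ¬ LZ X X (θ + del b)
  span : ∀ c, Bdd c → LZ X X (del c) →
    (∃ b, Bdd b ∧ LZ X X (c + del b)) ∨ (∃ b, Bdd b ∧ LZ X X (c + θ + del b))

variable {X : Set M} {k : ℕ} {θ : Coch M} {S : M → M}

lemma comp_del_eq (k : ℕ) (e : Coch M) : ∃ b, Bdd b ∧ comp k (del e) = del b := by
  cases k with
  | zero => exact ⟨0, Bdd.zero, by rw [comp_zero_del, del_zero]⟩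
  | succ k => exact ⟨comp k e, Bdd.comp k e, (del_comp k e).symm⟩

lemma IsSph.bdd (h : IsSph X k θ) : Bdd θ := by
  rw [← h.homog]; exact Bdd.comp k θ

lemma IsSph.sup (h : IsSph X k θ) : Sup k θ := by
  rw [← h.homog]; exact Sup.comp k θ

lemma IsSph.not_comp (h : IsSph X k θ) (e : Coch M) : ¬ LZ X X (θ + comp k (del e)) := by
  obtain ⟨b, hb, hbe⟩ := comp_del_eq k e
  rw [hbe]
  exact h.nonexact b hb

lemma IsSph.not_LZ (h : IsSph X k θ) : ¬ LZ X X θ := by
  have := h.nonexact 0 Bdd.zero
  rwa [del_zero, add_zero] at this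

/-- Homogeneous closed cochains in other degrees are exact. -/
lemma IsSph.exact_of_ne (h : IsSph X k θ) {j : ℕ} (hj : j ≠ k) {c : Coch M}
    (hcj : comp j c = c) (hc : LZ X X (del c)) : ∃ b, Bdd b ∧ LZ X X (c + del b) := by
  rcases h.span c (by rw [← hcj]; exact Bdd.comp j c) hc with h1 | ⟨b, hb, hbc⟩
  · exact h1
  · exfalso
    have h2 := hbc.comp k
    rw [comp_add, comp_add, ← hcj, comp_comp_ne (Ne.symm hj), zero_add, h.homog] at h2
    exact h.not_comp b h2

lemma top_closed {n : ℕ} {c : Coch M} (hc : Sup n c) (hD : LZ X X (Dif S c)) :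
    LZ X X (del (comp n c)) := by
  have h := hD.comp (n + 1)
  rw [Dif, comp_add, comp_add, comp_pull, comp_eq_zero_of_sup hc (Nat.lt_succ_self n),
    pull_zero, add_zero, add_zero, ← del_comp] at h
  exact h

lemma top_red {n : ℕ} {c e : Coch M} (hc : Sup (n + 1) c)
    (he : LZ X X (comp (n + 1) c + del e)) :
    ∃ c' b, Sup n c' ∧ Bdd b ∧ LZ X X (c + c' + Dif S b) := by
  refine ⟨c + comp (n + 1) c + comp n e + pull S (comp n e), comp n e, ?_, Bdd.comp n e, ?_⟩
  · intro l hl
    have h1 : comp n e l = 0 := Sup.comp n e l hl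
    have h2 : pull S (comp n e) l = 0 := (Sup.comp n e).pull S l hl
    simp only [Pi.add_apply, h1, h2, add_zero, comp_apply]
    split_ifs with h3
    · exact CharTwo.add_self_eq_zero _
    · rw [hc l (by omega), add_zero]
  · have h1 := he.comp (n + 1)
    rw [comp_add, comp_comp, ← del_comp] at h1
    convert h1 using 1
    simp only [Dif]
    funext l
    simp only [Pi.add_apply]
    grind

lemma Dif_of_red (hS : InvOn S X) {a c c' b : Coch M} (h : LZ X X (c + c' + Dif S b))
    (hD : LZ X X (a + Dif S c)) : LZ X X (a + Dif S c') := by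
  have h1 := h.Dif hS hS.maps subset_rfl
  have h2 : LZ X X (Dif S (Dif S b)) := LZ.of_van (hS.van_Dif_Dif b)
  have h3 := (h1.add h2).add hD
  convert h3 using 1
  simp only [Dif_add]
  funext l
  simp only [Pi.add_apply]
  grind

lemma sup_zero_eq {c : Coch M} (hc : Sup 0 c) (h : c [] = 0) : c = 0 := by
  funext l
  cases l with
  | nil => exact h
  | cons x l => exact hc _ (by simp)

lemma acyclic_Dif (hX : Acyclic X) (hS : InvOn S X) : ∀ (n : ℕ) (c : Coch M), Sup n c →
    LZ X X (Dif S c) → ∃ b, Bdd b ∧ LZ X X (c + Dif S b) := by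
  intro n
  induction n with
  | zero =>
    intro c hc hD
    obtain ⟨e, _, he⟩ := hX _ (Bdd.comp 0 c) (top_closed hc hD)
    have h0 : c [] = 0 := by simpa [comp_apply] using he.1
    rw [sup_zero_eq hc h0]
    exact ⟨0, Bdd.zero, by rw [Dif_zero, add_zero]; exact LZ.zero _ _⟩
  | succ n ih =>
    intro c hc hD
    obtain ⟨e, _, he⟩ := hX _ (Bdd.comp (n + 1) c) (top_closed hc hD)
    obtain ⟨c', b, hc', hb, hcb⟩ := top_red (S := S) hc he
    have hD' : LZ X X (Dif S c') := by
      have := Dif_of_red (a := 0) hS hcb (by rwa [zero_add])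
      rwa [zero_add] at this
    obtain ⟨b', hb', hcb'⟩ := ih c' hc' hD'
    refine ⟨b + b', hb.add hb', ?_⟩
    convert hcb.add hcb' using 1
    rw [Dif_add]
    funext l
    simp only [Pi.add_apply]
    grind

lemma van_fx (S : M → M) (X : Set M) (c : Coch M) : Van (c + pull S c) (Fx S X) := by
  intro l hl
  have : l.map S = l := by
    conv_rhs => rw [← List.map_id l]
    exact List.map_congr_left fun x hx => (hl x hx).2
  simp only [Pi.add_apply, pull_apply, this]
  exact CharTwo.add_self_eq_zero _

lemma Dif_iff_del {a c : Coch M} :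
    LZ (Fx S X) (Fx S X) (a + Dif S c) ↔ LZ (Fx S X) (Fx S X) (a + del c) := by
  have h : LZ (Fx S X) (Fx S X) (c + pull S c) := LZ.of_van (van_fx S X c)
  constructor
  · intro h1
    convert h1.add h using 1
    simp only [Dif]
    funext l
    simp only [Pi.add_apply]
    grind
  · intro h1
    convert h1.add h using 1
    simp only [Dif]
    funext l
    simp only [Pi.add_apply]
    grind

lemma Dif_iff_del' {c : Coch M} :
    LZ (Fx S X) (Fx S X) (Dif S c) ↔ LZ (Fx S X) (Fx S X) (del c) := by
  have := Dif_iff_del (S := S) (X := X) (a := 0) (c := c)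
  rwa [zero_add, zero_add] at this

/-- Odd functions separating the free part. -/
def HasOdd (S : M → M) (X : Set M) : Prop :=
  ∃ (d : ℕ) (g : Fin d → M → ℝ), (∀ i, ContinuousOn (g i) X) ∧
    (∀ i, ∀ x ∈ X, g i (S x) = - g i x) ∧ (∀ x ∈ X, (∀ i, g i x = 0) → S x = x)

/-- Closed classes move to themselves. -/
lemma rot_exact (h : IsSph X k θ) {R R' : M → M} (hR : ContinuousOn R X) (hRm : MapsTo R X X)
    (hR' : ContinuousOn R' X) (hRm' : MapsTo R' X X) (hinv : ∀ x ∈ X, R (R' x) = x) :
    ∃ b, Bdd b ∧ LZ X X (θ + pull R θ + del b) := by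
  have h1 : LZ X X (del (pull R θ)) := by
    rw [del_pull]; exact h.closed.pull hR hRm hRm subset_rfl
  rcases h.span (pull R θ) (h.bdd.pull R) h1 with ⟨b, hb, hb'⟩ | ⟨b, hb, hb'⟩
  · exfalso
    have h2 := hb'.pull hR' hRm' hRm' subset_rfl
    have h3 : LZ X X (pull R' (pull R θ) + θ) := by
      refine LZ.of_van fun l hl => ?_
      have : l.map (R ∘ R') = l := by
        conv_rhs => rw [← List.map_id l]
        exact List.map_congr_left fun x hx => hinv x (hl x hx)
      simp only [pull_pull, Pi.add_apply, pull_apply, this]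
      exact CharTwo.add_self_eq_zero _
    refine h.nonexact (pull R' b) (hb.pull R') ?_
    convert h2.add h3 using 1
    rw [pull_add, del_pull]
    funext l
    simp only [Pi.add_apply]
    grind
  · refine ⟨b, hb, ?_⟩
    rwa [add_comm θ]

lemma LZ_of_comps {P : Set M} : ∀ (n : ℕ) (c : Coch M), Sup n c →
    (∀ i, i ≤ n → LZ X P (comp i c)) → LZ X P c := by
  intro n
  induction n with
  | zero =>
    intro c hc h
    have : comp 0 c = c := by
      funext l
      rw [comp_apply]
      split_ifs with h1
      · rfl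
      · rw [hc l (by omega)]
    rw [← this]; exact h 0 le_rfl
  | succ n ih =>
    intro c hc h
    have h1 : Sup n (c + comp (n + 1) c) := by
      intro l hl
      simp only [Pi.add_apply, comp_apply]
      split_ifs with h3
      · exact CharTwo.add_self_eq_zero _
      · rw [hc l (by omega), add_zero]
    have h2 := ih _ h1 (fun i hi => by
      rw [comp_add, comp_comp_ne (by omega), add_zero]
      exact h i (by omega))
    have h3 := h2.add (h (n + 1) le_rfl)
    convert h3 using 1
    funext l
    simp only [Pi.add_apply]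
    grind

lemma exact_of_comps : ∀ (n : ℕ) (c : Coch M), Sup n c →
    (∀ i, i ≤ n → ∃ b, Bdd b ∧ LZ X X (comp i c + del b)) → ∃ b, Bdd b ∧ LZ X X (c + del b) := by
  intro n
  induction n with
  | zero =>
    intro c hc h
    have : comp 0 c = c := by
      funext l
      rw [comp_apply]
      split_ifs with h1
      · rfl
      · rw [hc l (by omega)]
    rw [← this]; exact h 0 le_rfl
  | succ n ih =>
    intro c hc h
    have h1 : Sup n (c + comp (n + 1) c) := by
      intro l hl
      simp only [Pi.add_apply, comp_apply]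
      split_ifs with h3
      · exact CharTwo.add_self_eq_zero _
      · rw [hc l (by omega), add_zero]
    obtain ⟨b1, hb1, h2⟩ := ih _ h1 (fun i hi => by
      rw [comp_add, comp_comp_ne (by omega), add_zero]
      exact h i (by omega))
    obtain ⟨b2, hb2, h3⟩ := h (n + 1) le_rfl
    refine ⟨b1 + b2, hb1.add hb2, ?_⟩
    convert h2.add h3 using 1
    rw [del_add]
    funext l
    simp only [Pi.add_apply]
    grind

/-- Extending the generator to a closed class of the total complex. -/
lemma extend_theta (hS : InvOn S X) (h : IsSph X k θ) :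
    ∃ θ', Sup k θ' ∧ comp k θ' = θ ∧ LZ X X (Dif S θ') := by
  have key : ∀ m, m ≤ k → ∃ t, Sup k t ∧ comp k t = θ ∧
      ∀ i, k - m < i → LZ X X (comp i (Dif S t)) := by
    intro m
    induction m with
    | zero =>
      intro _
      refine ⟨θ, h.sup, h.homog, fun i hi => ?_⟩
      have h1 : comp i (Dif S θ) = comp i (del θ) := by
        rw [Dif, comp_add, comp_add, comp_pull, comp_eq_zero_of_sup h.sup (by omega), pull_zero,
          add_zero, add_zero]
      rw [h1]
      exact h.closed.comp i
    | succ m ih =>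
      intro hm
      obtain ⟨t, ht, htk, hti⟩ := ih (by omega)
      -- j = k - (m+1), so that j + 1 = k - m
      obtain ⟨j, hj⟩ : ∃ j, j = k - (m + 1) := ⟨_, rfl⟩
      have hj1 : j + 1 = k - m := by omega
      set u := comp (j + 1) (Dif S t) with hu
      have hu1 : comp (j + 1) u = u := comp_comp _ _
      have huc : LZ X X (del u) := by
        have h1 : LZ X X (Dif S (Dif S t)) := LZ.of_van (hS.van_Dif_Dif t)
        have h2 := h1.comp (j + 2)
        have h3 := hti (j + 2) (by omega)
        have h4 := h3.pullS hS hS.maps subset_rfl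
        have h5 := (h2.add h3).add h4
        convert h5 using 1
        rw [hu, del_comp]
        conv_rhs => rw [Dif, comp_add, comp_add, comp_pull]
        funext l
        simp only [Pi.add_apply]
        grind
      have hex : ∃ b, Bdd b ∧ LZ X X (u + del b) := by
        by_cases hjk : j + 1 = k
        · obtain ⟨b, hb, hb'⟩ := rot_exact h hS.cont hS.maps hS.cont hS.maps hS.inv
          refine ⟨comp j t + b, (Bdd.comp j t).add hb, ?_⟩
          convert hb' using 1
          rw [hu, Dif, comp_add, comp_add, comp_pull, ← del_comp, del_add, hjk, htk]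
          funext l
          simp only [Pi.add_apply]
          grind
        · exact h.exact_of_ne hjk hu1 huc
      obtain ⟨b, hb, hb'⟩ := hex
      refine ⟨t + comp j b, ht.add ((Sup.comp j b).mono (by omega)), ?_, ?_⟩
      · rw [comp_add, htk, comp_comp_ne (by omega), add_zero]
      · intro i hi
        rcases Nat.lt_or_ge (j + 1) i with hi1 | hi1
        · have h1 := hti i (by omega)
          have h2 : comp i (Dif S (t + comp j b)) = comp i (Dif S t) := by
            rw [Dif_add, comp_add]
            have : comp i (Dif S (comp j b)) = 0 := by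
              rw [Dif, comp_add, comp_add, comp_pull, del_comp, comp_comp_ne (by omega),
                comp_comp_ne (by omega), pull_zero, add_zero, add_zero]
            rw [this, add_zero]
          rw [h2]; exact h1
        · have hij : i = j + 1 := by omega
          have h1 := hb'.comp (j + 1)
          rw [comp_add, hu1, ← del_comp] at h1
          convert h1 using 1
          rw [hij, Dif_add, comp_add, ← hu]
          congr 1
          rw [Dif, comp_add, comp_add, comp_pull, comp_comp_ne (by omega), pull_zero, add_zero,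
            add_zero, del_comp, comp_comp]
  obtain ⟨t, ht, htk, hti⟩ := key k le_rfl
  refine ⟨t, ht, htk, ?_⟩
  have hsup : Sup (k + 1) (Dif S t) :=
    (ht.del.add (ht.mono (Nat.le_succ k))).add ((ht.pull S).mono (Nat.le_succ k))
  refine LZ_of_comps (k + 1) _ hsup fun i _ => ?_
  rcases Nat.eq_zero_or_pos i with rfl | hi
  · have : comp 0 (Dif S t) = 0 := by
      funext l
      rw [comp_apply]
      split_ifs with h1
      · rw [List.length_eq_zero_iff.mp h1, Dif_nil]; rfl
      · rfl
    rw [this]; exact LZ.zero _ _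
  · exact hti i (by omega)

section fixedTheta

variable {θ' : Coch M}

/-- The total cohomology of `X` is spanned by the extended class. -/
lemma class_X (hS : InvOn S X) (h : IsSph X k θ) (h1 : Sup k θ') (h2 : comp k θ' = θ)
    (h3 : LZ X X (Dif S θ')) : ∀ (n : ℕ) (c : Coch M), Sup n c → LZ X X (Dif S c) →
      (∃ b, Bdd b ∧ LZ X X (c + Dif S b)) ∨ (∃ b, Bdd b ∧ LZ X X (c + θ' + Dif S b)) := by
  intro n
  induction n with
  | zero =>
    intro c hc hD
    have hcl := top_closed hc hD
    rcases h.span _ (Bdd.comp 0 c) hcl with ⟨e, _, he⟩ | ⟨e, _, he⟩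
    · left
      have h0 : c [] = 0 := by simpa [comp_apply] using he.1
      rw [sup_zero_eq hc h0]
      exact ⟨0, Bdd.zero, by rw [Dif_zero, add_zero]; exact LZ.zero _ _⟩
    · have h0 := he.1
      simp only [Pi.add_apply, comp_apply, List.length_nil, if_true, del_nil, add_zero] at h0
      rcases Nat.eq_zero_or_pos k with hk | hk
      · right
        subst hk
        have h4 : c + θ' = 0 := by
          refine sup_zero_eq (hc.add h1) ?_
          rw [← h2] at h0
          simpa [comp_apply] using h0
        rw [h4]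
        exact ⟨0, Bdd.zero, by rw [Dif_zero, add_zero]; exact LZ.zero _ _⟩
      · left
        have h5 : θ [] = 0 := by
          rw [← h.homog]; simp [comp_apply]; intro hk0; omega
        rw [h5, add_zero] at h0
        rw [sup_zero_eq hc h0]
        exact ⟨0, Bdd.zero, by rw [Dif_zero, add_zero]; exact LZ.zero _ _⟩
  | succ n ih =>
    intro c hc hD
    have hcl := top_closed hc hD
    rcases h.span _ (Bdd.comp (n + 1) c) hcl with ⟨e, _, he⟩ | ⟨e, _, he⟩
    · obtain ⟨c', b, hc', hb, hcb⟩ := top_red (S := S) hc he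
      have hD' : LZ X X (Dif S c') := by
        have := Dif_of_red (a := 0) hS hcb (by rwa [zero_add])
        rwa [zero_add] at this
      rcases ih c' hc' hD' with ⟨b', hb', hcb'⟩ | ⟨b', hb', hcb'⟩
      · left
        refine ⟨b + b', hb.add hb', ?_⟩
        convert hcb.add hcb' using 1
        rw [Dif_add]
        funext l
        simp only [Pi.add_apply]
        grind
      · right
        refine ⟨b + b', hb.add hb', ?_⟩
        convert hcb.add hcb' using 1
        rw [Dif_add]
        funext l
        simp only [Pi.add_apply]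
        grind
    · by_cases hnk : n + 1 = k
      · have hc2 : Sup (n + 1) (c + θ') := hc.add (h1.mono (by omega))
        have he2 : LZ X X (comp (n + 1) (c + θ') + del e) := by
          rw [comp_add, hnk, h2, ← hnk]; exact he
        obtain ⟨c', b, hc', hb, hcb⟩ := top_red (S := S) hc2 he2
        have hD2 : LZ X X (Dif S (c + θ')) := by rw [Dif_add]; exact hD.add h3
        have hD' : LZ X X (Dif S c') := by
          have := Dif_of_red (a := 0) hS hcb (by rwa [zero_add])
          rwa [zero_add] at this
        rcases ih c' hc' hD' with ⟨b', hb', hcb'⟩ | ⟨b', hb', hcb'⟩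
        · right
          refine ⟨b + b', hb.add hb', ?_⟩
          convert hcb.add hcb' using 1
          rw [Dif_add]
          funext l
          simp only [Pi.add_apply]
          grind
        · left
          refine ⟨b + b', hb.add hb', ?_⟩
          convert hcb.add hcb' using 1
          rw [Dif_add]
          funext l
          simp only [Pi.add_apply]
          grind
      · exfalso
        have h4 := he.comp k
        rw [comp_add, comp_add, comp_comp_ne (Ne.symm hnk), zero_add, h.homog] at h4
        exact h.not_comp e h4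

/-- The extended class is not exact. -/
lemma nonexact_X (hS : InvOn S X) (h : IsSph X k θ) (h1 : Sup k θ') (h2 : comp k θ' = θ)
    (h3 : LZ X X (Dif S θ')) : ∀ (n : ℕ) (b : Coch M), Sup n b → ¬ LZ X X (θ' + Dif S b) := by
  intro n
  induction n with
  | zero =>
    intro b hb hL
    have h4 : Dif S b = del b := by
      have : b + pull S b = 0 := by
        refine sup_zero_eq (hb.add (hb.pull S)) ?_
        simp [CharTwo.add_self_eq_zero]
      rw [Dif, add_assoc, this, add_zero]
    rw [h4] at hL
    have h5 := hL.comp k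
    rw [comp_add, h2] at h5
    exact h.not_comp b h5
  | succ n ih =>
    intro b hb hL
    have h4 := hL.comp (n + 2)
    have h5 : comp (n + 2) (Dif S b) = del (comp (n + 1) b) := by
      rw [Dif, comp_add, comp_add, comp_pull, comp_eq_zero_of_sup hb (by omega), pull_zero,
        add_zero, add_zero, del_comp]
    rw [comp_add, h5] at h4
    rcases lt_trichotomy (n + 2) k with hlt | heq | hgt
    · have h6 := hL.comp k
      rw [comp_add, h2, Dif, comp_add, comp_add, comp_pull,
        comp_eq_zero_of_sup hb (show n + 1 < k by omega),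
        comp_eq_zero_of_sup hb.del (show n + 1 + 1 < k by omega), pull_zero,
        add_zero, add_zero, add_zero] at h6
      exact h.not_LZ h6
    · rw [heq, h2] at h4
      exact h.nonexact _ (Bdd.comp _ _) h4
    · rw [comp_eq_zero_of_sup h1 hgt, zero_add] at h4
      rcases h.span _ (Bdd.comp (n + 1) b) h4 with ⟨e, _, he⟩ | ⟨e, _, he⟩
      · obtain ⟨b', f, hb', _, hbf⟩ := top_red (S := S) hb he
        exact ih b' hb' (Dif_of_red hS hbf hL)
      · by_cases hnk : n + 1 = k
        · have hb2 : Sup (n + 1) (b + θ') := hb.add (h1.mono (by omega))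
          have he2 : LZ X X (comp (n + 1) (b + θ') + del e) := by
            rw [comp_add, hnk, h2, ← hnk]; exact he
          obtain ⟨b', f, hb', _, hbf⟩ := top_red (S := S) hb2 he2
          refine ih b' hb' (Dif_of_red hS hbf ?_)
          rw [Dif_add, ← add_assoc]
          exact hL.add h3
        · have h6 := he.comp k
          rw [comp_add, comp_add, comp_comp_ne (Ne.symm hnk), zero_add, h.homog] at h6
          exact h.not_comp e h6

end fixedTheta

end basic

section metric

variable [MetricSpace M] {X : Set M} {k : ℕ} {θ : Coch M} {S : M → M}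

lemma loc (hS : InvOn S X) (hodd : HasOdd S X) {c : Coch M} (hc : Bdd c)
    (hD : LZ X X (Dif S c)) (hF : LZ (Fx S X) (Fx S X) c) :
    ∃ b, Bdd b ∧ LZ (Fx S X) (Fx S X) b ∧ LZ X X (c + Dif S b) := by
  obtain ⟨d, g, h1, h2, h3⟩ := hodd
  exact localization hS g h1 h2 h3 hc hD hF

/-- Closed cochains on the fixed point set extend to closed cochains of the total complex. -/
lemma loc_surj (hS : InvOn S X) (hodd : HasOdd S X) {c : Coch M} (hc : Bdd c)
    (hF : LZ (Fx S X) (Fx S X) (del c)) :
    ∃ b, Bdd b ∧ LZ (Fx S X) (Fx S X) b ∧ LZ X X (Dif S (c + b)) := by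
  obtain ⟨b, hb, hbF, hbX⟩ := loc hS hodd (c := Dif S c) (hc.Dif S)
    (LZ.of_van (hS.van_Dif_Dif c)) (Dif_iff_del'.mpr hF)
  exact ⟨b, hb, hbF, by rw [Dif_add]; exact hbX⟩

/-- **Smith's theorem**: the fixed point set of an involution of an acyclic space is acyclic. -/
theorem smith_acyclic (hS : InvOn S X) (hodd : HasOdd S X) (hX : Acyclic X) :
    Acyclic (Fx S X) := by
  intro c hc hF
  obtain ⟨b, hb, hbF, hbX⟩ := loc_surj hS hodd hc hF
  obtain ⟨n, hn⟩ := hc.add hb
  obtain ⟨b', hb', hbX'⟩ := acyclic_Dif hX hS n _ hn hbX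
  refine ⟨b', hb', ?_⟩
  have h1 : LZ (Fx S X) (Fx S X) (c + b + Dif S b') := hbX'.sub fun x hx => hx.1
  have h2 := (Dif_iff_del.mp h1).add hbF
  convert h2 using 1
  funext l
  simp only [Pi.add_apply]
  grind

lemma theta_closed_F {θ' : Coch M} (h3 : LZ X X (Dif S θ')) :
    LZ (Fx S X) (Fx S X) (del θ') :=
  Dif_iff_del'.mp (h3.sub fun _ hx => hx.1)

lemma nonexact_F (hS : InvOn S X) (hodd : HasOdd S X) (h : IsSph X k θ) {θ' : Coch M}
    (h1 : Sup k θ') (h2 : comp k θ' = θ) (h3 : LZ X X (Dif S θ')) {b : Coch M} (hb : Bdd b) :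
    ¬ LZ (Fx S X) (Fx S X) (θ' + del b) := by
  intro hL
  have h4 : LZ (Fx S X) (Fx S X) (θ' + Dif S b) := Dif_iff_del.mpr hL
  have h5 : LZ X X (Dif S (θ' + Dif S b)) := by
    rw [Dif_add]
    exact h3.add (LZ.of_van (hS.van_Dif_Dif b))
  obtain ⟨b1, hb1, _, hb1X⟩ := loc hS hodd (Bdd.add ⟨k, h1⟩ (hb.Dif S)) h5 h4
  obtain ⟨n, hn⟩ := hb.add hb1
  refine nonexact_X hS h h1 h2 h3 n _ hn ?_
  rw [Dif_add, ← add_assoc]
  exact hb1X

lemma span_F (hS : InvOn S X) (hodd : HasOdd S X) (h : IsSph X k θ) {θ' : Coch M}
    (h1 : Sup k θ') (h2 : comp k θ' = θ) (h3 : LZ X X (Dif S θ')) {c : Coch M} (hc : Bdd c)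
    (hF : LZ (Fx S X) (Fx S X) (del c)) :
    (∃ b, Bdd b ∧ LZ (Fx S X) (Fx S X) (c + del b)) ∨
      (∃ b, Bdd b ∧ LZ (Fx S X) (Fx S X) (c + θ' + del b)) := by
  obtain ⟨b, hb, hbF, hbX⟩ := loc_surj hS hodd hc hF
  obtain ⟨n, hn⟩ := hc.add hb
  rcases class_X hS h h1 h2 h3 n _ hn hbX with ⟨b', hb', hbX'⟩ | ⟨b', hb', hbX'⟩
  · left
    refine ⟨b', hb', ?_⟩
    have h4 : LZ (Fx S X) (Fx S X) (c + b + Dif S b') := hbX'.sub fun x hx => hx.1
    have h5 := (Dif_iff_del.mp h4).add hbF
    convert h5 using 1
    funext l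
    simp only [Pi.add_apply]
    grind
  · right
    refine ⟨b', hb', ?_⟩
    have h4 : LZ (Fx S X) (Fx S X) (c + b + θ' + Dif S b') := hbX'.sub fun x hx => hx.1
    have h5 := (Dif_iff_del.mp h4).add hbF
    convert h5 using 1
    funext l
    simp only [Pi.add_apply]
    grind

/-- **Smith's theorem** for cohomology spheres. -/
theorem smith_sphere (hS : InvOn S X) (hodd : HasOdd S X) (h : IsSph X k θ) :
    ∃ s φ, s ≤ k ∧ IsSph (Fx S X) s φ ∧ (s = k → φ = θ) := by
  obtain ⟨θ', h1, h2, h3⟩ := extend_theta hS h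
  have hcl : ∀ i, LZ (Fx S X) (Fx S X) (del (comp i θ')) := by
    intro i
    rw [del_comp]
    exact (theta_closed_F h3).comp (i + 1)
  have hex : ∃ s, s ≤ k ∧ ∀ b, Bdd b → ¬ LZ (Fx S X) (Fx S X) (comp s θ' + del b) := by
    by_contra hcon
    push Not at hcon
    obtain ⟨b, hb, hL⟩ := exact_of_comps k θ' h1 hcon
    exact nonexact_F hS hodd h h1 h2 h3 hb hL
  obtain ⟨s, hs, hne⟩ := hex
  refine ⟨s, comp s θ', hs, ⟨comp_comp _ _, hcl s, hne, ?_⟩, ?_⟩
  · intro c hc hF
    obtain ⟨b2, hb2, hb2L⟩ : ∃ b, Bdd b ∧ LZ (Fx S X) (Fx S X) (comp s θ' + θ' + del b) := by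
      rcases span_F hS hodd h h1 h2 h3 (Bdd.comp s θ') (hcl s) with ⟨b, hb, hL⟩ | h4
      · exact absurd hL (hne b hb)
      · exact h4
    rcases span_F hS hodd h h1 h2 h3 hc hF with h4 | ⟨b, hb, hL⟩
    · exact Or.inl h4
    · right
      refine ⟨b + b2, hb.add hb2, ?_⟩
      convert hL.add hb2L using 1
      rw [del_add]
      funext l
      simp only [Pi.add_apply]
      grind
  · intro hsk
    rw [hsk, h2]

end metric

end Coch

end Pool.Agent.Helper10
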