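import Pool.Agent.Helper10.AS4

/-!
# The parity theorem
-/

set_option autoImplicit false
set_option linter.unusedSectionVars false

noncomputable section

namespace Pool.Agent.Helper10

open Topology Set Filter

namespace Coch

variable {M : Type*}

section basic

variable [TopologicalSpace M] {X : Set M} {k : ℕ} {θ : Coch M} {S R : M → M}

lemma IsSph.unique {j : ℕ} {φ : Coch M} (h : IsSph X k θ) (h' : IsSph X j φ) : k = j := by
  by_contra hne
  obtain ⟨b, hb, hb'⟩ := h'.exact_of_ne hne h.homog h.closed
  exact h.nonexact b hb hb'

/-- `R` is a continuous self-map of `X` whose square is `S`. -/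
structure RootOn (R S : M → M) (X : Set M) : Prop where
  maps : MapsTo R X X
  cont : ContinuousOn R X
  sq : ∀ x ∈ X, R (R x) = S x

lemma RootOn.pullR (hR : RootOn R S X) {c : Coch M} (hc : LZ X X c) : LZ X X (pull R c) :=
  hc.pull hR.cont hR.maps hR.maps subset_rfl

lemma RootOn.van_sq (hR : RootOn R S X) (c : Coch M) :
    Van (pull R (pull R c) + pull S c) X := by
  intro l hl
  have : l.map (R ∘ R) = l.map S := List.map_congr_left fun x hx => hR.sq x (hl x hx)
  simp only [pull_pull, Pi.add_apply, pull_apply, this]
  exact CharTwo.add_self_eq_zero _

lemma RootOn.van_four (hR : RootOn R S X) (hS : InvOn S X) (c : Coch M) :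
    Van (pull R (pull R (pull R (pull R c))) + c) X := by
  intro l hl
  have h1 : l.map ((R ∘ R) ∘ (R ∘ R)) = l := by
    conv_rhs => rw [← List.map_id l]
    refine List.map_congr_left fun x hx => ?_
    have hx' := hl x hx
    simp only [Function.comp_apply, id]
    rw [hR.sq x hx', hR.sq (S x) (hS.maps hx'), hS.inv x hx']
  have h2 : pull R (pull R (pull R (pull R c))) = pull ((R ∘ R) ∘ (R ∘ R)) c := by
    funext l
    simp only [pull_apply, List.map_map]
    rfl
  rw [h2]
  simp only [Pi.add_apply, pull_apply, h1]
  exact CharTwo.add_self_eq_zero _

/-- Predicate recording that the component of length `i` of `t` is `(1 + R) η` with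
`δ η = (1 + R) t_{i+1}`. -/
def Rec (R : M → M) (X : Set M) (t : Coch M) (i : ℕ) : Prop :=
  ∃ η, comp i η = η ∧ comp i t = η + pull R η ∧
    LZ X X (del η + comp (i + 1) t + pull R (comp (i + 1) t))

lemma comp_Dif_succ (S : M → M) (t : Coch M) (j : ℕ) :
    comp (j + 1) (Dif S t) = del (comp j t) + comp (j + 1) t + pull S (comp (j + 1) t) := by
  rw [Dif, comp_add, comp_add, comp_pull, ← del_comp]

lemma extend_theta_root (hS : InvOn S X) (hR : RootOn R S X) (h : IsSph X k θ) :
    ∃ t, Sup k t ∧ comp k t = θ ∧ LZ X X (Dif S t) ∧ ∀ i, i < k → Odd (k - i) → Rec R X t i := by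
  have hR' : ContinuousOn (R ∘ S) X := hR.cont.comp hS.cont hS.maps
  have hRm' : MapsTo (R ∘ S) X X := hR.maps.comp hS.maps
  have hinv : ∀ x ∈ X, R ((R ∘ S) x) = x := by
    intro x hx
    rw [Function.comp_apply, hR.sq (S x) (hS.maps hx), hS.inv x hx]
  obtain ⟨b0, hb0, hb0L⟩ := rot_exact h hR.cont hR.maps hR' hRm' hinv
  have key : ∀ m, m ≤ k → ∃ t, Sup k t ∧ comp k t = θ ∧ (∀ i, i < k - m → comp i t = 0) ∧
      (∀ i, k - m < i → LZ X X (comp i (Dif S t))) ∧
      (∀ i, k - m ≤ i → i < k → Odd (k - i) → Rec R X t i) := by
    intro m
    induction m with
    | zero =>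
      intro _
      refine ⟨θ, h.sup, h.homog, fun i hi => ?_, fun i hi => ?_, fun i hi hi' => by omega⟩
      · rw [← h.homog, comp_comp_ne (by omega)]
      · have h1 : comp i (Dif S θ) = comp i (del θ) := by
          rw [Dif, comp_add, comp_add, comp_pull, comp_eq_zero_of_sup h.sup (by omega), pull_zero,
            add_zero, add_zero]
        rw [h1]
        exact h.closed.comp i
    | succ m ih =>
      intro hm
      obtain ⟨t, ht, htk, ht0, hti, htr⟩ := ih (by omega)
      obtain ⟨j, hj⟩ : ∃ j, j = k - (m + 1) := ⟨_, rfl⟩
      have hj1 : j + 1 = k - m := by omega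
      set a := comp (j + 1) t with ha
      have ha1 : comp (j + 1) a = a := comp_comp _ _
      have hja : comp j t = 0 := ht0 j (by omega)
      have hD2 : LZ X X (del a + comp (j + 2) t + pull S (comp (j + 2) t)) := by
        have := hti (j + 2) (by omega)
        rwa [comp_Dif_succ] at this
      rcases Nat.even_or_odd (k - (j + 1)) with hev | hodd
      · -- the step where we take an `R`-root
        set w := a + pull R a with hw
        have hw1 : comp (j + 1) w = w := by rw [hw, comp_add, comp_pull, ha1]
        have hwc : LZ X X (del w) := by
          by_cases hjk : j + 1 = k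
          · have h0 : comp (j + 2) t = 0 := comp_eq_zero_of_sup ht (by omega)
            rw [h0, pull_zero, add_zero, add_zero] at hD2
            rw [hw, del_add, del_pull]
            exact hD2.add (hR.pullR hD2)
          · obtain ⟨r, hr⟩ := hev
            have hod2 : Odd (k - (j + 2)) := ⟨r - 1, by omega⟩
            obtain ⟨η, hη1, hη2, hη3⟩ := htr (j + 2) (by omega) (by omega) hod2
            rw [hη2] at hD2
            have e1 : LZ X X (pull R (pull R η) + pull S η) := LZ.of_van (hR.van_sq η)
            have e2 := hR.pullR e1
            have e3 : LZ X X (pull R (pull R (pull R (pull R η))) + η) :=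
              LZ.of_van (hR.van_four hS η)
            -- pull S commutes with pull R on X up to locally zero
            have e4 : LZ X X (pull S (pull R η) + pull R (pull R (pull R η))) := by
              have := LZ.of_van (P := X) (hR.van_sq (pull R η))
              rwa [add_comm] at this
            have e6 := hR.pullR e4
            have e7 := hR.pullR hD2
            have e8 := (((hD2.add e7).add e1).add e2).add e3
            have e9 := (e8.add e4).add e6
            convert e9 using 1
            rw [hw]
            simp only [del_add, pull_add, del_pull]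
            funext l
            simp only [Pi.add_apply]
            grind
        have hwex : ∃ b, Bdd b ∧ LZ X X (w + del b) := by
          by_cases hjk : j + 1 = k
          · have haθ : a = θ := by rw [ha, hjk, htk]
            rw [hw, haθ]
            exact ⟨b0, hb0, hb0L⟩
          · exact h.exact_of_ne hjk hw1 hwc
        obtain ⟨b, hb, hbL⟩ := hwex
        set η := comp j b with hη
        have hη1 : comp j η = η := comp_comp _ _
        have hηL : LZ X X (w + del η) := by
          have h1 := hbL.comp (j + 1)
          rwa [comp_add, hw1, ← del_comp] at h1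
        set v := η + pull R η with hv
        have hvj : comp j v = v := by rw [hv, comp_add, comp_pull, hη1]
        have hvsup : Sup k v := by
          rw [← hvj]; exact (Sup.comp j v).mono (by omega)
        refine ⟨t + v, ht.add hvsup, ?_, ?_, ?_, ?_⟩
        · rw [comp_add, htk, ← hvj, comp_comp_ne (by omega), add_zero]
        · intro i hi
          rw [comp_add, ht0 i (by omega), ← hvj, comp_comp_ne (by omega), add_zero]
        · intro i hi
          rcases Nat.lt_or_ge (j + 1) i with hi1 | hi1
          · have h1 := hti i (by omega)
            have h2 : comp i (Dif S (t + v)) = comp i (Dif S t) := by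
              rw [Dif_add, comp_add]
              have : comp i (Dif S v) = 0 := by
                rw [← hvj, Dif, comp_add, comp_add, comp_pull, del_comp, comp_comp_ne (by omega),
                  comp_comp_ne (by omega), pull_zero, add_zero, add_zero]
              rw [this, add_zero]
            rw [h2]; exact h1
          · have hij : i = j + 1 := by omega
            rw [hij, comp_Dif_succ, comp_add j, comp_add (j + 1), hja, hvj]
            have h1 : comp (j + 1) v = 0 := by rw [← hvj, comp_comp_ne (by omega)]
            rw [h1, ← ha]
            have e1 := hR.pullR hηL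
            have e2 : LZ X X (pull R (pull R a) + pull S a) := LZ.of_van (hR.van_sq a)
            have e3 := (hηL.add e1).add e2
            convert e3 using 1
            rw [hv, hw]
            simp only [del_add, pull_add, del_pull, add_zero, zero_add]
            funext l
            simp only [Pi.add_apply]
            grind
        · intro i hi hik hod
          rcases Nat.lt_or_ge j i with hi1 | hi1
          · obtain ⟨η', h1, h2, h3⟩ := htr i (by omega) hik hod
            refine ⟨η', h1, ?_, ?_⟩
            · rw [comp_add, h2]
              have : comp i v = 0 := by rw [← hvj, comp_comp_ne (by omega)]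
              rw [this, add_zero]
            · rw [comp_add]
              have : comp (i + 1) v = 0 := by rw [← hvj, comp_comp_ne (by omega)]
              rw [this, add_zero]
              exact h3
          · have hij : i = j := by omega
            subst hij
            refine ⟨η, hη1, ?_, ?_⟩
            · rw [comp_add, hja, zero_add, hvj]
            · rw [comp_add]
              have : comp (i + 1) v = 0 := by rw [← hvj, comp_comp_ne (by omega)]
              rw [this, add_zero, ← ha]
              convert hηL using 1
              rw [hw]
              abel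
      · -- the other step
        have hjk : j + 1 ≠ k := by
          intro hjk
          rw [hjk] at hodd
          simp at hodd
        set z := a + pull S a with hz
        have hz1 : comp (j + 1) z = z := by rw [hz, comp_add, comp_pull, ha1]
        have hzc : LZ X X (del z) := by
          have e1 := hD2.pullS hS hS.maps subset_rfl
          have e2 : LZ X X (pull S (pull S (comp (j + 2) t)) + comp (j + 2) t) :=
            LZ.of_van (hS.van_pull_pull _)
          convert (hD2.add e1).add e2 using 1
          rw [hz]
          simp only [del_add, pull_add, del_pull]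
          funext l
          simp only [Pi.add_apply]
          grind
        obtain ⟨b, hb, hbL⟩ := h.exact_of_ne hjk hz1 hzc
        set v := comp j b with hv
        have hvj : comp j v = v := comp_comp _ _
        have hvsup : Sup k v := by
          rw [← hvj]; exact (Sup.comp j v).mono (by omega)
        have hvL : LZ X X (z + del v) := by
          have h1 := hbL.comp (j + 1)
          rwa [comp_add, hz1, ← del_comp] at h1
        refine ⟨t + v, ht.add hvsup, ?_, ?_, ?_, ?_⟩
        · rw [comp_add, htk, ← hvj, comp_comp_ne (by omega), add_zero]
        · intro i hi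
          rw [comp_add, ht0 i (by omega), ← hvj, comp_comp_ne (by omega), add_zero]
        · intro i hi
          rcases Nat.lt_or_ge (j + 1) i with hi1 | hi1
          · have h1 := hti i (by omega)
            have h2 : comp i (Dif S (t + v)) = comp i (Dif S t) := by
              rw [Dif_add, comp_add]
              have : comp i (Dif S v) = 0 := by
                rw [← hvj, Dif, comp_add, comp_add, comp_pull, del_comp, comp_comp_ne (by omega),
                  comp_comp_ne (by omega), pull_zero, add_zero, add_zero]
              rw [this, add_zero]
            rw [h2]; exact h1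
          · have hij : i = j + 1 := by omega
            rw [hij, comp_Dif_succ, comp_add j, comp_add (j + 1), hja, hvj]
            have h1 : comp (j + 1) v = 0 := by rw [← hvj, comp_comp_ne (by omega)]
            rw [h1, ← ha]
            convert hvL using 1
            rw [hz]
            simp only [add_zero, zero_add]
            abel
        · intro i hi hik hod
          rcases Nat.lt_or_ge j i with hi1 | hi1
          · obtain ⟨η', h1, h2, h3⟩ := htr i (by omega) hik hod
            refine ⟨η', h1, ?_, ?_⟩
            · rw [comp_add, h2]
              have : comp i v = 0 := by rw [← hvj, comp_comp_ne (by omega)]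
              rw [this, add_zero]
            · rw [comp_add]
              have : comp (i + 1) v = 0 := by rw [← hvj, comp_comp_ne (by omega)]
              rw [this, add_zero]
              exact h3
          · exfalso
            have hij : i = j := by omega
            subst hij
            obtain ⟨r, hr⟩ := hod
            obtain ⟨r', hr'⟩ := hodd
            omega
  obtain ⟨t, ht, htk, _, hti, htr⟩ := key k le_rfl
  refine ⟨t, ht, htk, ?_, fun i hi hod => htr i (by omega) hi hod⟩
  have hsup : Sup (k + 1) (Dif S t) :=
    (ht.del.add (ht.mono (Nat.le_succ k))).add ((ht.pull S).mono (Nat.le_succ k))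
  refine LZ_of_comps (k + 1) _ hsup fun i _ => ?_
  rcases Nat.eq_zero_or_pos i with rfl | hi
  · have : comp 0 (Dif S t) = 0 := by
      funext l
      rw [comp_apply]
      split_ifs with h1
      · rw [List.length_eq_zero_iff.mp h1, Dif_nil]; rfl
      · rfl
    rw [this]; exact LZ.zero _ _
  · exact hti i (by omega)

end basic

section metric

variable [MetricSpace M] {X : Set M} {k s : ℕ} {θ φ : Coch M} {S R : M → M}

/-- **Parity theorem**: if the involution has a square root, the dimension drops by an even
number. -/
theorem smith_parity (hS : InvOn S X) (hodd : HasOdd S X) (hR : RootOn R S X)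
    (h : IsSph X k θ) (hF : IsSph (Fx S X) s φ) (hsk : s ≤ k) : Even (k - s) := by
  by_contra hcon
  have hoddks : Odd (k - s) := Nat.not_even_iff_odd.mp hcon
  have hlt : s < k := by
    rcases Nat.lt_or_ge s k with h1 | h1
    · exact h1
    · exfalso
      have : k - s = 0 := by omega
      rw [this] at hoddks
      simp at hoddks
  obtain ⟨t, ht, htk, htD, htr⟩ := extend_theta_root hS hR h
  have hclF : LZ (Fx S X) (Fx S X) (del t) := theta_closed_F htD
  have hcl : ∀ i, LZ (Fx S X) (Fx S X) (del (comp i t)) := by
    intro i
    rw [del_comp]
    exact hclF.comp (i + 1)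
  -- `R` preserves `F`
  have hRF : RootOn R id (Fx S X) := by
    refine ⟨?_, hR.cont.mono fun x hx => hx.1, ?_⟩
    · intro x hx
      refine ⟨hR.maps hx.1, ?_⟩
      rw [← hR.sq (R x) (hR.maps hx.1), hR.sq x hx.1, hx.2]
    · intro x hx
      rw [hR.sq x hx.1, hx.2]; rfl
  -- the component of length `s` is not exact on `F`
  have hsne : ∀ b, Bdd b → ¬ LZ (Fx S X) (Fx S X) (comp s t + del b) := by
    intro b hb hL
    rcases hF.span t ⟨k, ht⟩ hclF with ⟨b', hb', hL'⟩ | ⟨b', hb', hL'⟩
    · exact nonexact_F hS hodd h ht htk htD hb' hL'
    · have h1 := hL'.comp s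
      rw [comp_add, comp_add, hF.homog] at h1
      have h2 := h1.add hL
      obtain ⟨b2, hb2, hb2'⟩ := comp_del_eq s b'
      rw [hb2'] at h2
      refine hF.nonexact (b2 + b) (hb2.add hb) ?_
      convert h2 using 1
      rw [del_add]
      funext l
      simp only [Pi.add_apply]
      grind
  obtain ⟨η, hη1, hη2, hη3⟩ := htr s hlt hoddks
  obtain ⟨κ, hκ, hκL⟩ := hF.exact_of_ne (show s + 1 ≠ s by omega) (comp_comp _ _) (hcl (s + 1))
  have hη3F : LZ (Fx S X) (Fx S X) (del η + comp (s + 1) t + pull R (comp (s + 1) t)) :=
    hη3.sub fun x hx => hx.1
  have hηB : Bdd η := by rw [← hη1]; exact Bdd.comp s η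
  set η' := η + κ + pull R κ with hη'
  have hη'c : LZ (Fx S X) (Fx S X) (del η') := by
    have e1 := hRF.pullR hκL
    convert (hη3F.add hκL).add e1 using 1
    rw [hη']
    simp only [del_add, pull_add, del_pull]
    funext l
    simp only [Pi.add_apply]
    grind
  have hη'B : Bdd η' := (hηB.add hκ).add (hκ.pull R)
  have hex : ∃ b, Bdd b ∧ LZ (Fx S X) (Fx S X) (η' + pull R η' + del b) := by
    rcases hF.span η' hη'B hη'c with ⟨b, hb, hL⟩ | ⟨b, hb, hL⟩
    · refine ⟨b + pull R b, hb.add (hb.pull R), ?_⟩
      convert hL.add (hRF.pullR hL) using 1
      simp only [del_add, pull_add, del_pull]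
      abel
    · obtain ⟨b', hb', hL'⟩ := rot_exact hF hRF.cont hRF.maps hRF.cont hRF.maps hRF.sq
      refine ⟨b + pull R b + b', (hb.add (hb.pull R)).add hb', ?_⟩
      convert (hL.add (hRF.pullR hL)).add hL' using 1
      simp only [del_add, pull_add, del_pull]
      funext l
      simp only [Pi.add_apply]
      grind
  obtain ⟨b, hb, hL⟩ := hex
  refine hsne b hb ?_
  have e1 : LZ (Fx S X) (Fx S X) (pull R (pull R κ) + pull id κ) := LZ.of_van (hRF.van_sq κ)
  have e2 : pull id κ = κ := by funext l; simp
  rw [e2] at e1
  convert hL.add e1 using 1
  rw [hη2, hη']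
  simp only [pull_add]
  funext l
  simp only [Pi.add_apply]
  grind

end metric

end Coch

end Pool.Agent.Helper10
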