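import Pool.Agent.Helper10.AS5

/-!
# Transfer, homotopy, exhaustion
-/

set_option autoImplicit false
set_option linter.unusedSectionVars false

noncomputable section

namespace Pool.Agent.Helper10

open Topology Set Filter

namespace Coch

section transfer

variable {M N : Type*} [TopologicalSpace M] [TopologicalSpace N]

lemma van_pull_inv {f : M → N} {g : N → M} {X : Set M} (h : ∀ x ∈ X, g (f x) = x)
    (c : Coch M) : Van (pull f (pull g c) + c) X := by
  intro l hl
  have : l.map (g ∘ f) = l := by
    conv_rhs => rw [← List.map_id l]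
    exact List.map_congr_left fun x hx => h x (hl x hx)
  simp only [pull_pull, Pi.add_apply, pull_apply, this]
  exact CharTwo.add_self_eq_zero _

/-- A space which is a retract of an acyclic space is acyclic. -/
lemma Acyclic.transfer {X : Set M} {Y : Set N} {f : M → N} {g : N → M} (hY : Acyclic Y)
    (hf : ContinuousOn f X) (hfm : MapsTo f X Y) (hg : ContinuousOn g Y) (hgm : MapsTo g Y X)
    (hgf : ∀ x ∈ X, g (f x) = x) : Acyclic X := by
  intro c hc hcl
  have h1 : LZ Y Y (del (pull g c)) := by
    rw [del_pull]; exact hcl.pull hg hgm hgm subset_rfl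
  obtain ⟨b, hb, hL⟩ := hY _ (hc.pull g) h1
  refine ⟨pull f b, hb.pull f, ?_⟩
  have h2 := hL.pull hf hfm hfm subset_rfl
  have h3 : LZ X X (pull f (pull g c) + c) := LZ.of_van (van_pull_inv hgf c)
  convert h2.add h3 using 1
  rw [pull_add, del_pull]
  funext l
  simp only [Pi.add_apply]
  grind

lemma IsSph.transfer {X : Set M} {Y : Set N} {f : M → N} {g : N → M} {k : ℕ} {θ : Coch N}
    (hY : IsSph Y k θ)
    (hf : ContinuousOn f X) (hfm : MapsTo f X Y) (hg : ContinuousOn g Y) (hgm : MapsTo g Y X)
    (hgf : ∀ x ∈ X, g (f x) = x) (hfg : ∀ y ∈ Y, f (g y) = y) : IsSph X k (pull f θ) := by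
  refine ⟨?_, ?_, ?_, ?_⟩
  · rw [comp_pull, hY.homog]
  · rw [del_pull]; exact hY.closed.pull hf hfm hfm subset_rfl
  · intro b hb hL
    have h2 := hL.pull hg hgm hgm subset_rfl
    have h3 : LZ Y Y (pull g (pull f θ) + θ) := LZ.of_van (van_pull_inv hfg θ)
    refine hY.nonexact (pull g b) (hb.pull g) ?_
    convert h2.add h3 using 1
    rw [pull_add, del_pull]
    funext l
    simp only [Pi.add_apply]
    grind
  · intro c hc hcl
    have h1 : LZ Y Y (del (pull g c)) := by
      rw [del_pull]; exact hcl.pull hg hgm hgm subset_rfl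
    have h3 : LZ X X (pull f (pull g c) + c) := LZ.of_van (van_pull_inv hgf c)
    rcases hY.span _ (hc.pull g) h1 with ⟨b, hb, hL⟩ | ⟨b, hb, hL⟩
    · left
      refine ⟨pull f b, hb.pull f, ?_⟩
      have h2 := hL.pull hf hfm hfm subset_rfl
      convert h2.add h3 using 1
      rw [pull_add, del_pull]
      funext l
      simp only [Pi.add_apply]
      grind
    · right
      refine ⟨pull f b, hb.pull f, ?_⟩
      have h2 := hL.pull hf hfm hfm subset_rfl
      convert h2.add h3 using 1
      rw [pull_add, pull_add, del_pull]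
      funext l
      simp only [Pi.add_apply]
      grind

end transfer

section trunc

variable {M : Type*}

/-- Truncation. -/
def trunc (n : ℕ) (c : Coch M) : Coch M := fun l => if l.length ≤ n then c l else 0

lemma trunc_apply (n : ℕ) (c : Coch M) (l : List M) :
    trunc n c l = if l.length ≤ n then c l else 0 := rfl

lemma trunc_add (n : ℕ) (a b : Coch M) : trunc n (a + b) = trunc n a + trunc n b := by
  funext l
  simp only [trunc_apply, Pi.add_apply]
  split_ifs <;> simp

lemma trunc_of_sup {n : ℕ} {c : Coch M} (hc : Sup n c) : trunc n c = c := by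
  funext l
  rw [trunc_apply]
  split_ifs with h
  · rfl
  · rw [hc l (by omega)]

lemma Sup.trunc (n : ℕ) (c : Coch M) : Sup n (trunc n c) := by
  intro l hl
  rw [trunc_apply, if_neg (by omega)]

lemma sh_trunc_succ (n : ℕ) (c : Coch M) (x : M) : sh x (trunc (n + 1) c) = trunc n (sh x c) := by
  funext l
  simp [trunc_apply]

lemma sh_trunc_zero (c : Coch M) (x : M) : sh x (trunc 0 c) = 0 := by
  funext l
  simp [trunc_apply]

lemma del_trunc (n : ℕ) (c : Coch M) : del (trunc n c) = trunc (n + 1) (del c) := by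
  funext l
  induction l generalizing c n with
  | nil => simp [trunc_apply]
  | cons x l ih =>
    cases n with
    | zero =>
      rw [del_cons, sh_trunc_zero, del_zero]
      cases l with
      | nil => simp [trunc_apply]
      | cons y l => simp [trunc_apply]
    | succ n =>
      rw [del_cons, sh_trunc_succ, ih]
      simp only [trunc_apply, List.length_cons, add_le_add_iff_right, del_cons]
      split_ifs <;> simp

lemma trunc_zero_del (c : Coch M) : trunc 0 (del c) = 0 := by
  funext l
  rw [trunc_apply]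
  split_ifs with h
  · rw [List.length_eq_zero_iff.mp (by omega : l.length = 0)]; rfl
  · rfl

lemma LZ.trunc [TopologicalSpace M] {X P : Set M} {a : Coch M} (ha : LZ X P a) (k : ℕ) :
    LZ X P (trunc k a) := by
  refine ⟨by simp [trunc_apply, ha.1], fun x hx => ?_⟩
  obtain ⟨V, hV, hVa⟩ := ha.2 x hx
  refine ⟨V, hV, fun l hl => ?_⟩
  rw [trunc_apply, hVa l hl]
  split_ifs <;> rfl

lemma exists_trunc [TopologicalSpace M] {X P : Set M} {N : ℕ} {a p : Coch M} (ha : Sup N a)
    (h : LZ X P (a + del p)) : ∃ q, Sup N q ∧ Sup N (del q) ∧ LZ X P (a + del q) := by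
  have h1 := h.trunc N
  rw [trunc_add, trunc_of_sup ha] at h1
  cases N with
  | zero =>
    rw [trunc_zero_del] at h1
    exact ⟨0, Sup.zero 0, by rw [del_zero]; exact Sup.zero 0, by rw [del_zero]; exact h1⟩
  | succ n =>
    rw [← del_trunc] at h1
    exact ⟨Coch.trunc n p, (Sup.trunc n p).mono (Nat.le_succ n), (Sup.trunc n p).del, h1⟩

end trunc

section homotopy

variable {E : Type*} [NormedAddCommGroup E] [NormedSpace ℝ E]

/-- Straight-line homotopies, compact version. -/
lemma homotopy {X K : Set E} (hK : IsCompact K) (hKX : K ⊆ X) {r : E → E}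
    (hr : ContinuousOn r X)
    (hX : ∀ x ∈ X, ∀ t ∈ Icc (0 : ℝ) 1, x + t • (r x - x) ∈ X)
    (hKm : ∀ x ∈ K, ∀ t ∈ Icc (0 : ℝ) 1, x + t • (r x - x) ∈ K)
    {c : Coch E} (hc : Bdd c) (hcl : LZ X K (del c)) :
    ∃ p, Bdd p ∧ LZ X K (c + pull r c + del p) := by
  -- Lebesgue number
  have h1 : ∀ z : K, ∃ ε > 0, Van (del c) (Metric.ball (z : E) ε ∩ X) := by
    intro z
    obtain ⟨V, hV, hVc⟩ := hcl.2 z z.2
    obtain ⟨ε, hε, hεV⟩ := Metric.mem_nhdsWithin_iff.mp hV
    exact ⟨ε, hε, hVc.mono hεV⟩
  choose ε hε hεV using h1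
  obtain ⟨δ, hδ, hδ'⟩ := lebesgue_number_lemma_of_metric (c := fun z : K => Metric.ball (z : E) (ε z))
    hK (fun z => Metric.isOpen_ball) (fun x hx => mem_iUnion.mpr ⟨⟨x, hx⟩, Metric.mem_ball_self (hε _)⟩)
  have hleb : ∀ z ∈ K, Van (del c) (Metric.ball z δ ∩ X) := by
    intro z hz
    obtain ⟨w, hw⟩ := hδ' z hz
    exact (hεV w).mono (inter_subset_inter_left _ hw)
  -- bound on the displacement
  obtain ⟨R, hR⟩ := hK.exists_bound_of_continuousOn
    ((hr.mono hKX).sub continuousOn_id : ContinuousOn (fun x => r x - x) K)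
  obtain ⟨m, hm⟩ := exists_nat_gt (R / δ)
  set m' := m + 1 with hm'
  have hm'0 : (0 : ℝ) < m' := by rw [hm']; positivity
  have hRm : R / m' < δ := by
    rw [div_lt_iff₀ hm'0]
    rw [div_lt_iff₀ hδ] at hm
    have : (m : ℝ) ≤ m' := by rw [hm']; push_cast; linarith
    nlinarith
  let h : ℕ → E → E := fun i x => x + ((i : ℝ) / m') • (r x - x)
  have hIcc : ∀ i ≤ m', (i : ℝ) / m' ∈ Icc (0 : ℝ) 1 := by
    intro i hi
    refine ⟨by positivity, ?_⟩
    rw [div_le_one hm'0]
    exact_mod_cast hi
  have hh0 : ∀ x, h 0 x = x := by intro x; simp [h]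
  have hhm : ∀ x, h m' x = r x := by
    intro x
    simp only [h]
    rw [div_self hm'0.ne', one_smul, add_sub_cancel]
  have hcont : ∀ i, ContinuousOn (h i) X := by
    intro i
    exact continuousOn_id.add ((hr.sub continuousOn_id).const_smul _)
  let p : ℕ → Coch E := fun j => ∑ i ∈ Finset.range j, pr (h i) (h (i + 1)) c
  let q : ℕ → Coch E := fun j => ∑ i ∈ Finset.range j, pr (h i) (h (i + 1)) (del c)
  have hp0 : ∀ j, p (j + 1) = p j + pr (h j) (h (j + 1)) c := fun j =>
    Finset.sum_range_succ _ _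
  have hq0 : ∀ j, q (j + 1) = q j + pr (h j) (h (j + 1)) (del c) := fun j =>
    Finset.sum_range_succ _ _
  have hpB : ∀ j, Bdd (p j) := by
    intro j
    induction j with
    | zero => exact Bdd.zero
    | succ j ih => rw [hp0]; exact ih.add (hc.pr _ _)
  have htele : ∀ j, c + pull (h j) c + del (p j) = q j := by
    intro j
    induction j with
    | zero =>
      have e1 : pull (h 0) c = c := by
        funext l
        have : l.map (h 0) = l := by
          conv_rhs => rw [← List.map_id l]
          exact List.map_congr_left fun x _ => hh0 x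
        rw [pull_apply, this]
      have e2 : p 0 = 0 := rfl
      have e3 : q 0 = 0 := rfl
      rw [e1, e2, e3, del_zero, add_zero, add_self]
    | succ j ih =>
      have e1 := del_pr (h j) (h (j + 1)) c
      rw [hp0, hq0, del_add, ← ih]
      have e2 : pull (h (j + 1)) c = del (pr (h j) (h (j + 1)) c) +
          pr (h j) (h (j + 1)) (del c) + pull (h j) c := by
        rw [e1]
        funext l
        simp only [Pi.add_apply]
        grind
      rw [e2]
      funext l
      simp only [Pi.add_apply]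
      grind
  have hqL : ∀ j ≤ m', LZ X K (q j) := by
    intro j
    induction j with
    | zero => intro _; exact LZ.zero _ _
    | succ j ih =>
      intro hj
      rw [hq0]
      refine (ih (by omega)).add ⟨rfl, fun x hx => ?_⟩
      have hz : h j x ∈ K := hKm x hx _ (hIcc j (by omega))
      have hV := hleb _ hz
      have hd : dist (h (j + 1) x) (h j x) < δ := by
        have : h (j + 1) x - h j x = ((1 : ℝ) / m') • (r x - x) := by
          simp only [h, add_sub_add_left_eq_sub, ← sub_smul]
          congr 1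
          push_cast
          ring
        rw [dist_eq_norm, this, norm_smul, Real.norm_of_nonneg (by positivity)]
        have h2 := hR x hx
        calc 1 / (m' : ℝ) * ‖r x - x‖ ≤ 1 / m' * R := by
              exact mul_le_mul_of_nonneg_left h2 (by positivity)
          _ = R / m' := by ring
          _ < δ := hRm
      have c1 : ∀ᶠ y in 𝓝[X] x, h j y ∈ Metric.ball (h j x) δ :=
        (hcont j x (hKX hx)) (Metric.ball_mem_nhds _ hδ)
      have c2 : ∀ᶠ y in 𝓝[X] x, h (j + 1) y ∈ Metric.ball (h j x) δ :=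
        (hcont (j + 1) x (hKX hx)) (Metric.isOpen_ball.mem_nhds hd)
      refine ⟨{y | h j y ∈ Metric.ball (h j x) δ ∧ h (j + 1) y ∈ Metric.ball (h j x) δ ∧ y ∈ X},
        ?_, hV.pr ?_ ?_⟩
      · filter_upwards [c1, c2, self_mem_nhdsWithin] with y h1 h2 h3 using ⟨h1, h2, h3⟩
      · exact fun y hy => ⟨hy.1, hX y hy.2.2 _ (hIcc j (by omega))⟩
      · exact fun y hy => ⟨hy.2.1, hX y hy.2.2 _ (hIcc (j + 1) hj)⟩
  refine ⟨p m', hpB m', ?_⟩
  have h3 := htele m'
  have e1 : pull (h m') c = pull r c := by
    funext l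
    have : l.map (h m') = l.map r := List.map_congr_left fun x _ => hhm x
    rw [pull_apply, pull_apply, this]
  rw [← e1, h3]
  exact hqL m' le_rfl

end homotopy

section exhaustion

variable {M : Type*} [TopologicalSpace M]

/-- Use the cochain `f n` when the index of the first entry is `n`. -/
def select (κ : M → ℕ) (f : ℕ → Coch M) : Coch M
  | [] => f 0 []
  | x :: l => f (κ x) (x :: l)

lemma exhaustion {X : Set M} {K : ℕ → Set M} (hKX : ∀ k, K k ⊆ X) (hmono : Monotone K)
    (κ : M → ℕ) (hκ : ∀ x ∈ X, ∃ m, ∀ᶠ y in 𝓝[X] x, κ y ≤ m ∧ x ∈ K (κ y))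
    {r : M → M} (hr : ContinuousOn r X) (hrm : MapsTo r X (K 0))
    (H : ∀ k, ∀ c, Bdd c → LZ X (K k) (del c) →
      ∃ p, Bdd p ∧ LZ X (K k) (c + pull r c + del p))
    {c : Coch M} (hc : Bdd c) (hcl : LZ X X (del c)) :
    ∃ p, Bdd p ∧ LZ X X (c + pull r c + del p) := by
  obtain ⟨N, hN⟩ := hc
  have H' : ∀ k, ∀ c, Sup N c → LZ X (K k) (del c) →
      ∃ p, Sup N p ∧ Sup N (del p) ∧ LZ X (K k) (c + pull r c + del p) := by
    intro k c hc hcl
    obtain ⟨p, _, hp⟩ := H k c ⟨N, hc⟩ hcl
    exact exists_trunc (hc.add (hc.pull r)) hp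
  have hrX : MapsTo r X X := fun x hx => hKX 0 (hrm hx)
  let P : ℕ → Coch M → Prop := fun k p => Sup N p ∧ LZ X (K k) (c + pull r c + del p)
  have hstep : ∀ k p, P k p → ∃ p', P (k + 1) p' ∧ LZ X (K k) (p' + p) := by
    intro k p hp
    obtain ⟨q, hq, _, hqL⟩ := H' (k + 1) c hN (hcl.mono (hKX _))
    set e := q + p with he
    have heS : Sup N e := hq.add hp.1
    have heL : LZ X (K k) (del e) := by
      convert (hqL.mono (hmono (Nat.le_succ k))).add hp.2 using 1
      rw [he, del_add]
      funext l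
      simp only [Pi.add_apply]
      grind
    obtain ⟨s, hs, hs', hsL⟩ := H' k e heS heL
    refine ⟨q + pull r e + del s, ⟨(hq.add (heS.pull r)).add hs', ?_⟩, ?_⟩
    · have h1 : LZ X X (pull r (del e)) :=
        (heL.mono (hmono (Nat.zero_le k))).pull hr hrX hrm subset_rfl
      convert hqL.add (h1.mono (hKX _)) using 1
      rw [del_add, del_add, del_del, del_pull, add_zero]
      abel
    · convert hsL using 1
      rw [he]
      abel
  obtain ⟨p0, hp0, _, hp0L⟩ := H' 0 c hN (hcl.mono (hKX _))
  choose nxt hn1 hn2 using hstep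
  obtain ⟨f, hf⟩ : ∃ f : (k : ℕ) → {p // P k p},
      ∀ k, LZ X (K k) ((f (k + 1)).1 + (f k).1) :=
    ⟨fun k => Nat.rec ⟨p0, hp0, hp0L⟩ (fun k ih => ⟨nxt k ih.1 ih.2, hn1 k ih.1 ih.2⟩) k,
      fun k => hn2 k _ _⟩
  have hchain : ∀ j i, LZ X (K j) ((f j).1 + (f (j + i)).1) := by
    intro j i
    induction i with
    | zero => rw [add_zero, add_self]; exact LZ.zero _ _
    | succ i ih =>
      convert ih.add ((hf (j + i)).mono (hmono (Nat.le_add_right j i))) using 1
      funext l
      simp only [Pi.add_apply, ← add_assoc]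
      grind
  set p := select κ (fun k => (f k).1) with hp
  refine ⟨p, ⟨N, ?_⟩, ?_, ?_⟩
  · intro l hl
    cases l with
    | nil => exact (f 0).2.1 [] hl
    | cons x l => exact (f (κ x)).2.1 _ hl
  · have h1 := (f 0).2.2.1
    simp only [Pi.add_apply, del_nil, add_zero, pull_apply, List.map_nil] at h1 ⊢
    exact h1
  · intro x hx
    obtain ⟨m, hm⟩ := hκ x hx
    have hself : κ x ≤ m ∧ x ∈ K (κ x) := hm.self_of_nhdsWithin hx
    have hxm : x ∈ K m := hmono hself.1 hself.2
    have hV : ∀ j ∈ Finset.range (m + 1), ∃ V ∈ 𝓝[X] x,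
        x ∈ K j → Van ((f j).1 + (f m).1) V := by
      intro j hj
      by_cases hxj : x ∈ K j
      · obtain ⟨V, hV, hVv⟩ := (hchain j (m - j)).2 x hxj
        have : j + (m - j) = m := by have := Finset.mem_range.mp hj; omega
        rw [this] at hVv
        exact ⟨V, hV, fun _ => hVv⟩
      · exact ⟨univ, univ_mem, fun h => absurd h hxj⟩
    choose! V hV1 hV2 using hV
    have hVall : (⋂ j ∈ Finset.range (m + 1), V j) ∈ 𝓝[X] x :=
      (biInter_finset_mem _).mpr fun j hj => hV1 j hj
    obtain ⟨W, hW, hWv⟩ := (f m).2.2.2 x hxm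
    refine ⟨W ∩ ((⋂ j ∈ Finset.range (m + 1), V j) ∩ {y | κ y ≤ m ∧ x ∈ K (κ y)}),
      inter_mem hW (inter_mem hVall hm), ?_⟩
    have hpm : Van (p + (f m).1) ((⋂ j ∈ Finset.range (m + 1), V j) ∩
        {y | κ y ≤ m ∧ x ∈ K (κ y)}) := by
      intro l hl
      cases l with
      | nil =>
        have h1 := (hchain 0 m).1
        rw [Nat.zero_add] at h1
        exact h1
      | cons y l =>
        have hy := hl y (by simp)
        have hyj : κ y ∈ Finset.range (m + 1) := by
          rw [Finset.mem_range]; have := hy.2.1; omega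
        have h1 := hV2 (κ y) hyj hy.2.2 (y :: l) (fun z hz => by
          have := (hl z hz).1
          simp only [mem_iInter] at this
          exact this (κ y) hyj)
        exact h1
    have h2 := (hWv.mono inter_subset_left).add
      ((hpm.del).mono (inter_subset_right (s := W)))
    convert h2 using 1
    rw [del_add]
    funext l
    simp only [Pi.add_apply]
    grind

end exhaustion

end Coch

end Pool.Agent.Helper10
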