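import Pool.Agent.Helper10.AS6

/-!
# Cohomology of Euclidean spaces and spheres
-/

set_option autoImplicit false
set_option linter.unusedSectionVars false

noncomputable section

namespace Pool.Agent.Helper10

open Topology Set Filter

namespace Coch

section lens

variable {M : Type*}

lemma del_len (β : ℕ → ZMod 2) (l : List M) :
    del (fun l : List M => β l.length) l = (l.length : ZMod 2) * β (l.length - 1) := by
  induction l generalizing β with
  | nil => simp
  | cons x l ih =>
    have h : sh x (fun l : List M => β l.length) = fun l : List M => (fun n => β (n + 1)) l.length := by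
      funext l; simp
    rw [del_cons, h, ih (fun n => β (n + 1))]
    rcases Nat.eq_zero_or_pos l.length with h0 | h0
    · simp [h0]
    · have : l.length - 1 + 1 = l.length := by omega
      simp only [this, List.length_cons, Nat.add_sub_cancel]
      push_cast
      ring

end lens

section normed

variable {E : Type*} [NormedAddCommGroup E] [NormedSpace ℝ E] [FiniteDimensional ℝ E]

/-- A finite-dimensional normed space is acyclic. -/
theorem acyclic_univ : Acyclic (univ : Set E) := by
  intro c hc hcl
  have hproper : ProperSpace E := FiniteDimensional.proper ℝ E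
  obtain ⟨p, hp, hpL⟩ := exhaustion (X := univ) (K := fun k : ℕ => Metric.closedBall (0 : E) k)
    (fun k => subset_univ _) (fun i j hij => Metric.closedBall_subset_closedBall (by exact_mod_cast hij))
    (fun y => ⌈‖y‖⌉₊ + 1)
    (fun x _ => ⟨⌈‖x‖ + 1⌉₊ + 1, by
      rw [nhdsWithin_univ]
      filter_upwards [Metric.ball_mem_nhds x one_pos] with y hy
      rw [Metric.mem_ball, dist_eq_norm] at hy
      have h1 : ‖y‖ ≤ ‖x‖ + 1 := by
        have := norm_sub_norm_le y x
        linarith
      have h2 : ‖x‖ ≤ ‖y‖ + 1 := by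
        have := norm_sub_norm_le x y
        rw [norm_sub_rev] at this
        linarith
      refine ⟨by gcongr, ?_⟩
      rw [mem_closedBall_zero_iff]
      push_cast
      have := Nat.le_ceil ‖y‖
      linarith⟩)
    (r := fun _ => 0) continuousOn_const (fun x _ => by simp)
    (fun k c hc hcl => homotopy (isCompact_closedBall (0 : E) (k : ℝ)) (subset_univ _)
      continuousOn_const (fun _ _ _ _ => mem_univ _)
      (fun x hx t ht => by
        rw [mem_closedBall_zero_iff] at hx ⊢
        have : x + t • ((0 : E) - x) = (1 - t) • x := by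
          rw [zero_sub, smul_neg, sub_smul, one_smul]; abel
        rw [this, norm_smul, Real.norm_of_nonneg (by linarith [ht.2])]
        nlinarith [norm_nonneg x, ht.1, ht.2]) hc hcl)
    hc hcl
  -- the constant part
  set β : ℕ → ZMod 2 := fun n => c (List.replicate n (0 : E)) with hβ
  have hpull : pull (fun _ : E => (0 : E)) c = fun l : List E => β l.length := by
    funext l
    simp [hβ, List.map_const']
  obtain ⟨V, hV, hVc⟩ := hcl.2 (0 : E) (mem_univ _)
  have h0V : (0 : E) ∈ V := mem_of_mem_nhdsWithin (mem_univ _) hV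
  have hβ1 : ∀ n, ((n + 1 : ℕ) : ZMod 2) * β n = 0 := by
    intro n
    have h1 : del c (List.replicate (n + 1) (0 : E)) = 0 := by
      refine hVc _ fun y hy => ?_
      rw [List.eq_of_mem_replicate hy]; exact h0V
    have h2 : pull (fun _ : E => (0 : E)) (del c) (List.replicate (n + 1) (0 : E)) = 0 := by
      rw [pull_apply, List.map_replicate]; exact h1
    rw [← del_pull, hpull, del_len] at h2
    simpa using h2
  set γ : ℕ → ZMod 2 := fun n => if Even n then β (n + 1) else 0 with hγ
  have hdel : del (fun l : List E => γ l.length) = fun l : List E => β l.length := by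
    funext l
    rw [del_len]
    rcases Nat.eq_zero_or_pos l.length with h0 | h0
    · rw [h0]
      have := hβ1 0
      simpa using this.symm
    · obtain ⟨n, hn⟩ : ∃ n, l.length = n + 1 := ⟨l.length - 1, by omega⟩
      rw [hn, Nat.add_sub_cancel]
      rcases Nat.even_or_odd n with he | ho
      · have : ((n + 1 : ℕ) : ZMod 2) = 1 := by
          rw [ZMod.natCast_eq_one_iff_odd]; exact he.add_one
        rw [this, one_mul, hγ]
        simp [he]
      · have h1 : γ n = 0 := by
          rw [hγ]; simp [Nat.not_even_iff_odd.mpr ho]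
        have h2 := hβ1 (n + 1)
        have h3 : ((n + 1 + 1 : ℕ) : ZMod 2) = 1 := by
          rw [ZMod.natCast_eq_one_iff_odd]; exact (ho.add_one).add_one
        rw [h3, one_mul] at h2
        rw [h1, h2, mul_zero]
  obtain ⟨N, hN⟩ := hc
  have hγB : Bdd (fun l : List E => γ l.length) := by
    refine ⟨N, fun l hl => ?_⟩
    simp only [hγ]
    split_ifs
    · exact hN _ (by simp; omega)
    · rfl
  refine ⟨p + fun l : List E => γ l.length, hp.add hγB, ?_⟩
  rw [del_add, hdel, ← hpull]
  convert hpL using 1
  abel

/-- The radial retraction. -/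
def radial (x : E) : E := ‖x‖⁻¹ • x

lemma norm_radial {x : E} (hx : x ≠ 0) : ‖radial x‖ = 1 := by
  rw [radial, norm_smul, norm_inv, norm_norm, inv_mul_cancel₀ (norm_ne_zero_iff.mpr hx)]

lemma radial_of_norm {x : E} (hx : ‖x‖ = 1) : radial x = x := by
  rw [radial, hx, inv_one, one_smul]

lemma continuousOn_radial : ContinuousOn (radial : E → E) {0}ᶜ :=
  (continuousOn_id.norm.inv₀ fun x hx => norm_ne_zero_iff.mpr hx).smul continuousOn_id

lemma segment_norm {x : E} (hx : x ≠ 0) {t : ℝ} (ht : t ∈ Icc (0 : ℝ) 1) :
    x + t • (radial x - x) = ((1 - t) + t * ‖x‖⁻¹) • x ∧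
      ‖x + t • (radial x - x)‖ = (1 - t) * ‖x‖ + t := by
  have h1 : x + t • (radial x - x) = ((1 - t) + t * ‖x‖⁻¹) • x := by
    rw [radial, smul_sub, smul_smul, add_smul, sub_smul, one_smul]
    abel
  have hpos : 0 < ‖x‖ := norm_pos_iff.mpr hx
  refine ⟨h1, ?_⟩
  rw [h1, norm_smul, Real.norm_of_nonneg (by
    have := ht.1; have := ht.2
    have : 0 ≤ t * ‖x‖⁻¹ := by positivity
    linarith), add_mul, mul_assoc, inv_mul_cancel₀ hpos.ne', mul_one]

lemma abs_log_segment {ρ t : ℝ} (hρ : 0 < ρ) (ht : t ∈ Icc (0 : ℝ) 1) :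
    |Real.log ((1 - t) * ρ + t)| ≤ |Real.log ρ| := by
  rcases le_total 1 ρ with h | h
  · have h1 : 1 ≤ (1 - t) * ρ + t := by nlinarith [ht.1, ht.2]
    have h2 : (1 - t) * ρ + t ≤ ρ := by nlinarith [ht.1, ht.2]
    rw [abs_of_nonneg (Real.log_nonneg h1), abs_of_nonneg (Real.log_nonneg h)]
    exact Real.log_le_log (by linarith) h2
  · have h1 : (1 - t) * ρ + t ≤ 1 := by nlinarith [ht.1, ht.2]
    have h2 : ρ ≤ (1 - t) * ρ + t := by nlinarith [ht.1, ht.2]
    rw [abs_of_nonpos (Real.log_nonpos (by linarith) h1), abs_of_nonpos (Real.log_nonpos hρ.le h)]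
    exact neg_le_neg (Real.log_le_log hρ h2)

/-- The cohomology of the punctured space is that of the sphere. -/
theorem IsSph.punctured {k : ℕ} {θ : Coch E} (h : IsSph (Metric.sphere (0 : E) 1) k θ) :
    IsSph ({0}ᶜ : Set E) k (pull radial θ) := by
  have hproper : ProperSpace E := FiniteDimensional.proper ℝ E
  set X : Set E := {0}ᶜ with hX
  set B : Set E := Metric.sphere (0 : E) 1 with hB
  have hBX : B ⊆ X := by
    intro x hx hx0
    rw [hx0] at hx
    simp [hB] at hx
  have hrXB : MapsTo radial X B := fun x hx => by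
    rw [hB, mem_sphere_zero_iff_norm]; exact norm_radial hx
  have hrX : MapsTo radial X X := fun x hx => hBX (hrXB hx)
  have hrB : ∀ x ∈ B, radial x = x := fun x hx => radial_of_norm (mem_sphere_zero_iff_norm.mp hx)
  set K : ℕ → Set E := fun k => {x ∈ X | |Real.log ‖x‖| ≤ k} with hK
  have hKcomp : ∀ k, IsCompact (K k) := by
    intro k
    have : K k = Metric.closedBall (0 : E) (Real.exp k) ∩ {x | Real.exp (-k) ≤ ‖x‖} := by
      ext x
      simp only [hK, hX, mem_compl_iff, mem_singleton_iff, mem_inter_iff, mem_closedBall_zero_iff,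
        Set.mem_ofPred_eq]
      constructor
      · rintro ⟨hx, hx'⟩
        have hpos : 0 < ‖x‖ := norm_pos_iff.mpr hx
        rw [abs_le] at hx'
        exact ⟨(Real.log_le_iff_le_exp hpos).mp hx'.2, (Real.le_log_iff_exp_le hpos).mp hx'.1⟩
      · rintro ⟨h1, h2⟩
        have hpos : 0 < ‖x‖ := lt_of_lt_of_le (Real.exp_pos _) h2
        refine ⟨norm_pos_iff.mp hpos, ?_⟩
        rw [abs_le]
        exact ⟨(Real.le_log_iff_exp_le hpos).mpr h2, (Real.log_le_iff_le_exp hpos).mpr h1⟩
    rw [this]
    exact (isCompact_closedBall _ _).inter_right (isClosed_le continuous_const continuous_norm)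
  have hcontlog : ContinuousOn (fun x : E => |Real.log ‖x‖|) X :=
    (continuousOn_id.norm.log fun x hx => norm_ne_zero_iff.mpr hx).abs
  have hex : ∀ c : Coch E, Bdd c → LZ X X (del c) →
      ∃ p, Bdd p ∧ LZ X X (c + pull radial c + del p) := by
    intro c hc hcl
    refine exhaustion (K := K) (fun k x hx => hx.1)
      (fun i j hij x hx => ⟨hx.1, hx.2.trans (by exact_mod_cast hij)⟩)
      (fun y => ⌈|Real.log ‖y‖|⌉₊ + 1)
      (fun x hx => ⟨⌈|Real.log ‖x‖| + 1⌉₊ + 1, ?_⟩)
      continuousOn_radial (fun x hx => ⟨hrX hx, by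
        rw [norm_radial hx]; simp⟩) (fun k c hc hcl => ?_) hc hcl
    · have h1 := hcontlog x hx
      have h2 := h1 (Metric.ball_mem_nhds _ one_pos)
      filter_upwards [h2] with y hy
      rw [mem_preimage, Metric.mem_ball, Real.dist_eq, abs_lt] at hy
      refine ⟨by gcongr; linarith [hy.1, hy.2], hx, ?_⟩
      push_cast
      have := Nat.le_ceil |Real.log ‖y‖|
      linarith [hy.1, hy.2]
    · refine homotopy (hKcomp k) (fun x hx => hx.1) continuousOn_radial ?_ ?_ hc hcl
      · intro x hx t ht
        have h1 := (segment_norm hx ht).2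
        have hpos : 0 < ‖x‖ := norm_pos_iff.mpr hx
        have h2 : 0 < ‖x + t • (radial x - x)‖ := by
          rw [h1]
          rcases eq_or_lt_of_le ht.1 with h0 | h0
          · rw [← h0]; simpa using hpos
          · nlinarith [ht.2]
        exact norm_pos_iff.mp h2
      · intro x hx t ht
        have h1 := (segment_norm hx.1 ht).2
        have hpos : 0 < ‖x‖ := norm_pos_iff.mpr hx.1
        have h2 : 0 < ‖x + t • (radial x - x)‖ := by
          rw [h1]
          rcases eq_or_lt_of_le ht.1 with h0 | h0
          · rw [← h0]; simpa using hpos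
          · nlinarith [ht.2]
        refine ⟨norm_pos_iff.mp h2, ?_⟩
        rw [h1]
        exact (abs_log_segment hpos ht).trans hx.2
  refine ⟨?_, ?_, ?_, ?_⟩
  · rw [comp_pull, h.homog]
  · rw [del_pull]
    exact h.closed.pull continuousOn_radial hrXB hrXB subset_rfl
  · intro b hb hL
    have h1 : LZ B B (pull radial θ + del b) := hL.sub hBX
    have h2 : LZ B B (pull radial θ + θ) := by
      refine LZ.of_van fun l hl => ?_
      have : l.map radial = l := by
        conv_rhs => rw [← List.map_id l]
        exact List.map_congr_left fun x hx => hrB x (hl x hx)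
      simp only [Pi.add_apply, pull_apply, this]
      exact CharTwo.add_self_eq_zero _
    refine h.nonexact b hb ?_
    convert h1.add h2 using 1
    funext l
    simp only [Pi.add_apply]
    grind
  · intro c hc hcl
    obtain ⟨p, hp, hpL⟩ := hex c hc hcl
    rcases h.span c hc (hcl.sub hBX) with ⟨b, hb, hL⟩ | ⟨b, hb, hL⟩
    · left
      refine ⟨p + pull radial b, hp.add (hb.pull _), ?_⟩
      have h1 : LZ X X (pull radial (c + del b)) :=
        hL.pull continuousOn_radial hrXB hrXB subset_rfl
      convert hpL.add h1 using 1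
      rw [pull_add, del_add, del_pull]
      funext l
      simp only [Pi.add_apply]
      grind
    · right
      refine ⟨p + pull radial b, hp.add (hb.pull _), ?_⟩
      have h1 : LZ X X (pull radial (c + θ + del b)) :=
        hL.pull continuousOn_radial hrXB hrXB subset_rfl
      convert hpL.add h1 using 1
      rw [pull_add, pull_add, del_add, del_pull]
      funext l
      simp only [Pi.add_apply]
      grind

end normed

section mv

variable {M : Type*} [TopologicalSpace M]

lemma LZ_rel_open {X U : Set M} (h : ∀ x ∈ U, 𝓝[X] x = 𝓝[U] x) {c : Coch M} :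
    LZ X U c ↔ LZ U U c := by
  constructor
  · intro hc
    exact ⟨hc.1, fun x hx => by rw [← h x hx]; exact hc.2 x hx⟩
  · intro hc
    exact ⟨hc.1, fun x hx => by rw [h x hx]; exact hc.2 x hx⟩

lemma comp_glue {k : ℕ} {E : Set M} {a b : Coch M} (ha : comp k a = a) (hb : comp k b = b) :
    comp k (glue E a b) = glue E a b := by
  funext l
  rw [comp_apply]
  split_ifs with h
  · rfl
  · cases l with
    | nil =>
      rw [glue_nil, ← ha, comp_apply, if_neg h]
    | cons x l =>
      by_cases hx : x ∈ E
      · rw [glue_cons_mem a b hx, ← ha, comp_apply, if_neg h]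
      · rw [glue_cons_not_mem a b hx, ← hb, comp_apply, if_neg h]

/-- Mayer-Vietoris. -/
theorem IsSph.mv {X U V E : Set M} {k : ℕ} {θ : Coch M} (hUV : X = U ∪ V)
    (hU : ∀ x ∈ U, 𝓝[X] x = 𝓝[U] x) (hV : ∀ x ∈ V, 𝓝[X] x = 𝓝[V] x)
    (hI : ∀ x ∈ U ∩ V, 𝓝[X] x = 𝓝[U ∩ V] x)
    (hUE : ∀ x ∈ U, x ∉ V → ∀ᶠ y in 𝓝[X] x, y ∈ E)
    (hVE : ∀ x ∈ V, x ∉ U → ∀ᶠ y in 𝓝[X] x, y ∉ E)
    (aU : Acyclic U) (aV : Acyclic V) (h : IsSph (U ∩ V) k θ) :
    IsSph X (k + 1) (glue E (del θ) 0) := by
  have aU' : ∀ c : Coch M, Bdd c → LZ X U (del c) → ∃ b, Bdd b ∧ LZ X U (c + del b) := by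
    intro c hc hcl
    obtain ⟨b, hb, hL⟩ := aU c hc ((LZ_rel_open hU).mp hcl)
    exact ⟨b, hb, (LZ_rel_open hU).mpr hL⟩
  have aV' : ∀ c : Coch M, Bdd c → LZ X V (del c) → ∃ b, Bdd b ∧ LZ X V (c + del b) := by
    intro c hc hcl
    obtain ⟨b, hb, hL⟩ := aV c hc ((LZ_rel_open hV).mp hcl)
    exact ⟨b, hb, (LZ_rel_open hV).mpr hL⟩
  have hclI : LZ X (U ∩ V) (del θ) := (LZ_rel_open hI).mpr h.closed
  obtain ⟨hg1, hg2⟩ := glue_spec (a := del θ) (b := 0) hUE hVE (by rw [add_zero]; exact hclI)
  rw [add_zero] at hg2
  set θ1 := glue E (del θ) 0 with hθ1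
  refine ⟨?_, ?_, ?_, ?_⟩
  · refine comp_glue ?_ (comp_zero _)
    rw [← del_comp, h.homog]
  · rw [hUV, ← hUV]
    have e1 := hg1.del
    rw [del_add, del_del, add_zero] at e1
    have e2 := hg2.del
    have e3 := e1.union e2
    rwa [← hUV] at e3
  · intro d hd hL
    have hLU : LZ X U (θ1 + del d) := hL.mono (by rw [hUV]; exact subset_union_left)
    have hLV : LZ X V (θ1 + del d) := hL.mono (by rw [hUV]; exact subset_union_right)
    have e1 : LZ X U (del (θ + d)) := by
      convert hg1.add hLU using 1
      rw [del_add]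
      funext l
      simp only [Pi.add_apply]
      grind
    obtain ⟨a', ha', haL⟩ := aU' _ (h.bdd.add hd) e1
    have e2 : LZ X V (del d) := by
      convert hg2.add hLV using 1
      funext l
      simp only [Pi.add_apply]
      grind
    obtain ⟨d', hd', hdL⟩ := aV' _ hd e2
    refine h.nonexact (a' + d') (ha'.add hd') ((LZ_rel_open hI).mp ?_)
    convert (haL.mono (inter_subset_left (t := V))).add (hdL.mono (inter_subset_right (s := U)))
      using 1
    rw [del_add]
    funext l
    simp only [Pi.add_apply]
    grind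
  · intro c hc hcl
    obtain ⟨a, ha, haL⟩ := aU' c hc (hcl.mono (by rw [hUV]; exact subset_union_left))
    obtain ⟨b, hb, hbL⟩ := aV' c hc (hcl.mono (by rw [hUV]; exact subset_union_right))
    have e1 : LZ X (U ∩ V) (del (a + b)) := by
      convert (haL.mono (inter_subset_left (t := V))).add (hbL.mono (inter_subset_right (s := U)))
        using 1
      rw [del_add]
      funext l
      simp only [Pi.add_apply]
      grind
    rcases h.span _ (ha.add hb) ((LZ_rel_open hI).mp e1) with ⟨f, hf, hfL⟩ | ⟨f, hf, hfL⟩
    · left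
      have hfL' := (LZ_rel_open hI).mpr hfL
      obtain ⟨k1, k2⟩ := glue_spec (a := a + del f) (b := b) hUE hVE (by
        convert hfL' using 1; abel)
      refine ⟨glue E (a + del f) b, (ha.add hf.del).glue hb E, ?_⟩
      rw [hUV, ← hUV]
      have e2 : LZ X U (c + del (glue E (a + del f) b)) := by
        have := k1.del
        rw [del_add, del_add, del_del, add_zero] at this
        convert this.add haL using 1
        funext l
        simp only [Pi.add_apply]
        grind
      have e3 : LZ X V (c + del (glue E (a + del f) b)) := by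
        have := k2.del
        rw [del_add] at this
        convert this.add hbL using 1
        funext l
        simp only [Pi.add_apply]
        grind
      have e4 := e2.union e3
      rwa [← hUV] at e4
    · right
      have hfL' := (LZ_rel_open hI).mpr hfL
      obtain ⟨k1, k2⟩ := glue_spec (a := a + θ + del f) (b := b) hUE hVE (by
        convert hfL' using 1; abel)
      refine ⟨glue E (a + θ + del f) b, ((ha.add h.bdd).add hf.del).glue hb E, ?_⟩
      have e2 : LZ X U (c + θ1 + del (glue E (a + θ + del f) b)) := by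
        have := k1.del
        rw [del_add, del_add, del_add, del_del, add_zero] at this
        convert (this.add haL).add hg1 using 1
        funext l
        simp only [Pi.add_apply]
        grind
      have e3 : LZ X V (c + θ1 + del (glue E (a + θ + del f) b)) := by
        have := k2.del
        rw [del_add] at this
        convert (this.add hbL).add hg2 using 1
        funext l
        simp only [Pi.add_apply]
        grind
      have e4 := e2.union e3
      rwa [← hUV] at e4

/-- The empty set is a sphere of dimension minus one. -/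
lemma IsSph.empty : IsSph (∅ : Set M) 0 (fun l => if l.length = 0 then 1 else 0) := by
  refine ⟨?_, ?_, ?_, ?_⟩
  · funext l
    rw [comp_apply]
    split_ifs <;> rfl
  · exact ⟨rfl, fun x hx => hx.elim⟩
  · intro b _ hL
    have := hL.1
    simp at this
  · intro c hc _
    by_cases h0 : c [] = 0
    · left
      exact ⟨0, Bdd.zero, ⟨by simp [h0], fun x hx => hx.elim⟩⟩
    · right
      refine ⟨0, Bdd.zero, ⟨?_, fun x hx => hx.elim⟩⟩
      have h1 : c [] = 1 := by
        have : ∀ a : ZMod 2, a ≠ 0 → a = 1 := by decide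
        exact this _ h0
      simp only [Pi.add_apply, h1, List.length_nil, if_true, del_nil, add_zero]
      decide

end mv

end Coch

end Pool.Agent.Helper10
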