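import Pool.Agent.Helper10.AS7

/-!
# Cohomology of spheres
-/

set_option autoImplicit false
set_option linter.unusedSectionVars false

noncomputable section

namespace Pool.Agent.Helper10

open Topology Set Filter Module

namespace Coch

section sphere

variable {E : Type*} [NormedAddCommGroup E] [InnerProductSpace ℝ E] [FiniteDimensional ℝ E]

/-- The stereographic chart data at `v`. -/
lemma stereo_data {v : E} (hv : ‖v‖ = 1) :
    ContinuousOn (stereoToFun v) (Metric.sphere (0 : E) 1 \ {v}) ∧
    Continuous (fun w : (ℝ ∙ v)ᗮ => stereoInvFunAux v (w : E)) ∧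
    (∀ w : (ℝ ∙ v)ᗮ, stereoInvFunAux v (w : E) ∈ Metric.sphere (0 : E) 1 \ {v}) ∧
    (∀ x ∈ Metric.sphere (0 : E) 1 \ {v}, stereoInvFunAux v ((stereoToFun v x : (ℝ ∙ v)ᗮ) : E) = x) ∧
    (∀ w : (ℝ ∙ v)ᗮ, stereoToFun v (stereoInvFunAux v (w : E)) = w) ∧
    stereoInvFunAux v (0 : E) = -v := by
  refine ⟨?_, ?_, ?_, ?_, ?_, ?_⟩
  · refine continuousOn_stereoToFun.mono fun x hx => ?_
    have hx1 : ‖x‖ = 1 := mem_sphere_zero_iff_norm.mp hx.1
    have hx2 : x ≠ v := hx.2
    intro h
    exact hx2 ((inner_eq_one_iff_of_norm_eq_one hv hx1).mp h).symm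
  · exact (contDiff_stereoInvFunAux (m := 0)).continuous.comp continuous_subtype_val
  · intro w
    refine ⟨stereoInvFunAux_mem hv w.2, ?_⟩
    intro h
    have := stereoInvFun_ne_north_pole hv w
    exact this (Subtype.ext h)
  · intro x hx
    have := stereo_left_inv hv (x := ⟨x, hx.1⟩) hx.2
    exact congrArg Subtype.val this
  · intro w
    exact stereo_right_inv hv w
  · rw [stereoInvFunAux_apply]
    simp only [norm_zero, smul_zero, zero_add]
    rw [smul_smul]
    norm_num

lemma acyclic_sphere_minus {v : E} (hv : ‖v‖ = 1) :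
    Acyclic (Metric.sphere (0 : E) 1 \ {v}) := by
  obtain ⟨h1, h2, h3, h4, h5, _⟩ := stereo_data hv
  exact (acyclic_univ (E := (ℝ ∙ v)ᗮ)).transfer (f := stereoToFun v)
    (g := fun w : (ℝ ∙ v)ᗮ => stereoInvFunAux v (w : E)) h1 (mapsTo_univ _ _)
    h2.continuousOn (fun w _ => h3 w) h4

end sphere

/-- The unit sphere of an `n`-dimensional inner product space is a cohomology `(n-1)`-sphere. -/
theorem sphere_isSph : ∀ (n : ℕ) (E : Type) [NormedAddCommGroup E] [InnerProductSpace ℝ E]
    [FiniteDimensional ℝ E], finrank ℝ E = n →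
    ∃ θ : Coch E, IsSph (Metric.sphere (0 : E) 1) n θ := by
  intro n
  induction n with
  | zero =>
    intro E _ _ _ hE
    have hsub : Subsingleton E := finrank_zero_iff.mp hE
    have : Metric.sphere (0 : E) 1 = ∅ := by
      ext x
      simp [Subsingleton.elim x 0]
    rw [this]
    exact ⟨_, IsSph.empty⟩
  | succ n ih =>
    intro E _ _ _ hE
    have hnt : Nontrivial E := by
      apply nontrivial_of_finrank_pos (R := ℝ)
      omega
    obtain ⟨v, hv⟩ := exists_norm_eq E zero_le_one
    have hv0 : v ≠ 0 := by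
      intro h; rw [h, norm_zero] at hv; exact one_ne_zero hv.symm
    have : Fact (finrank ℝ E = n + 1) := ⟨hE⟩
    have hW : finrank ℝ (ℝ ∙ v)ᗮ = n := Submodule.finrank_orthogonal_span_singleton hv0
    obtain ⟨θ, hθ⟩ := ih (ℝ ∙ v)ᗮ hW
    have hθ' := hθ.punctured
    obtain ⟨h1, h2, h3, h4, h5, h6⟩ := stereo_data hv
    set X : Set E := Metric.sphere (0 : E) 1 with hX
    set U : Set E := X \ {v} with hU
    set V : Set E := X \ {-v} with hV
    have hvX : v ∈ X := mem_sphere_zero_iff_norm.mpr hv
    have hnv : ‖-v‖ = 1 := by rw [norm_neg]; exact hv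
    have hnvX : -v ∈ X := mem_sphere_zero_iff_norm.mpr hnv
    have hvnv : v ≠ -v := by
      intro h
      have : v + v = 0 := by nth_rewrite 2 [h]; exact add_neg_cancel v
      have h2v : (2 : ℝ) • v = 0 := by rw [two_smul]; exact this
      rcases smul_eq_zero.mp h2v with h' | h'
      · norm_num at h'
      · exact hv0 h'
    have hUo : ∀ x ∈ U, 𝓝[X] x = 𝓝[U] x := by
      intro x hx
      rw [hU, Set.sdiff_eq, nhdsWithin_inter_of_mem']
      exact mem_nhdsWithin_of_mem_nhds (isOpen_compl_singleton.mem_nhds hx.2)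
    have hVo : ∀ x ∈ V, 𝓝[X] x = 𝓝[V] x := by
      intro x hx
      rw [hV, Set.sdiff_eq, nhdsWithin_inter_of_mem']
      exact mem_nhdsWithin_of_mem_nhds (isOpen_compl_singleton.mem_nhds hx.2)
    have hIo : ∀ x ∈ U ∩ V, 𝓝[X] x = 𝓝[U ∩ V] x := by
      intro x hx
      have : U ∩ V = X ∩ ({v}ᶜ ∩ {-v}ᶜ) := by
        rw [hU, hV, Set.sdiff_eq, Set.sdiff_eq]; ext y; simp; tauto
      rw [this, nhdsWithin_inter_of_mem']
      exact mem_nhdsWithin_of_mem_nhds
        ((isOpen_compl_singleton.inter isOpen_compl_singleton).mem_nhds ⟨hx.1.2, hx.2.2⟩)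
    -- the intersection is the punctured space
    have hI : IsSph (U ∩ V) n (pull (stereoToFun v) (pull radial θ)) := by
      refine hθ'.transfer (f := stereoToFun v)
        (g := fun w : (ℝ ∙ v)ᗮ => stereoInvFunAux v (w : E)) (h1.mono inter_subset_left) ?_
        h2.continuousOn ?_ (fun x hx => h4 x hx.1) (fun w _ => h5 w)
      · intro x hx h0
        have h0' : stereoToFun v x = 0 := h0
        have := h4 x hx.1
        rw [h0'] at this
        have h7 : ((0 : (ℝ ∙ v)ᗮ) : E) = 0 := rfl
        rw [h7, h6] at this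
        exact hx.2.2 this.symm
      · intro w hw
        refine ⟨h3 w, (h3 w).1, ?_⟩
        intro h
        have h7 := h5 w
        have h8 := h5 0
        have h9 : ((0 : (ℝ ∙ v)ᗮ) : E) = 0 := rfl
        rw [h9, h6] at h8
        have h10 : stereoInvFunAux v (w : E) = -v := h
        rw [h10] at h7
        exact hw (h7.symm.trans h8)
    have hXUV : X = U ∪ V := by
      ext x
      constructor
      · intro hx
        by_cases hxv : x = v
        · right
          exact ⟨hx, by rw [hxv]; exact hvnv⟩
        · left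
          exact ⟨hx, hxv⟩
      · rintro (hx | hx)
        · exact hx.1
        · exact hx.1
    refine ⟨_, IsSph.mv (E := {x : E | inner ℝ v x < 0}) hXUV hUo hVo hIo ?_ ?_
      (acyclic_sphere_minus hv) (acyclic_sphere_minus hnv) hI⟩
    · intro x hx hxV
      have hxe : x = -v := by
        by_contra hne
        exact hxV ⟨hx.1, hne⟩
      have : {x : E | inner ℝ v x < 0} ∈ 𝓝[X] x := by
        refine mem_nhdsWithin_of_mem_nhds ?_
        refine (isOpen_lt (by fun_prop) continuous_const).mem_nhds ?_
        rw [hxe]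
        simp only [Set.mem_ofPred_eq, inner_neg_right, real_inner_self_eq_norm_sq, hv]
        norm_num
      exact this
    · intro x hx hxU
      have hxe : x = v := by
        by_contra hne
        exact hxU ⟨hx.1, hne⟩
      have : {x : E | ¬ inner ℝ v x < 0} ∈ 𝓝[X] x := by
        refine mem_nhdsWithin_of_mem_nhds ?_
        have h7 : {x : E | 0 < inner ℝ v x} ⊆ {x : E | ¬ inner ℝ v x < 0} := by
          intro y hy
          simp only [Set.mem_ofPred_eq] at hy ⊢
          exact not_lt.mpr hy.le
        refine mem_of_superset ?_ h7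
        refine (isOpen_lt continuous_const (by fun_prop)).mem_nhds ?_
        rw [hxe]
        simp only [Set.mem_ofPred_eq, real_inner_self_eq_norm_sq, hv]
        norm_num
      exact this

end Coch

end Pool.Agent.Helper10
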