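import Pool.Agent.Helper10.AS8

/-!
# Maps of two-power order on Euclidean space
-/

set_option autoImplicit false
set_option linter.unusedSectionVars false

noncomputable section

namespace Pool.Agent.Helper10

open Topology Set Filter Module

namespace Coch

section chain

variable {M : Type*}

/-- Points of `X` fixed by the `2^j`-th iterate. -/
def Xj (τ : M → M) (X : Set M) (j : ℕ) : Set M := {x ∈ X | τ^[2 ^ j] x = x}

lemma Xj_mono {τ : M → M} {X : Set M} {i j : ℕ} (h : i ≤ j) : Xj τ X i ⊆ Xj τ X j := by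
  intro x hx
  refine ⟨hx.1, ?_⟩
  obtain ⟨k, rfl⟩ := Nat.exists_eq_add_of_le h
  have h1 : Function.IsPeriodicPt τ (2 ^ i) x := hx.2
  have h2 := h1.mul_const (2 ^ k)
  rw [← pow_add] at h2
  exact h2

lemma iterate_two_mul (τ : M → M) (j : ℕ) (x : M) :
    τ^[2 ^ j] (τ^[2 ^ j] x) = τ^[2 ^ (j + 1)] x := by
  rw [← Function.iterate_add_apply]
  congr 1
  rw [pow_succ]
  ring_nf

lemma iterate_maps {τ : M → M} {X : Set M} (hm : MapsTo τ X X) (j : ℕ) (i : ℕ) :
    MapsTo τ^[i] (Xj τ X j) (Xj τ X j) := by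
  intro x hx
  refine ⟨(hm.iterate i) hx.1, ?_⟩
  rw [← Function.iterate_add_apply, Nat.add_comm, Function.iterate_add_apply, hx.2]

lemma Fx_step {τ : M → M} {X : Set M} (j : ℕ) :
    Fx τ^[2 ^ j] (Xj τ X (j + 1)) = Xj τ X j := by
  ext x
  constructor
  · rintro ⟨hx, h⟩
    exact ⟨hx.1, h⟩
  · intro hx
    exact ⟨Xj_mono (Nat.le_succ j) hx, hx.2⟩

lemma Fx_step' {τ : M → M} {X : Set M} (j : ℕ) (y : M) :
    Fx τ^[2 ^ j] (Xj τ X (j + 1) \ {y}) = Xj τ X j \ {y} := by
  ext x
  constructor
  · rintro ⟨⟨hx, hxy⟩, h⟩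
    exact ⟨⟨hx.1, h⟩, hxy⟩
  · rintro ⟨hx, hxy⟩
    exact ⟨⟨Xj_mono (Nat.le_succ j) hx, hxy⟩, hx.2⟩

variable [TopologicalSpace M]

lemma iterate_cont {τ : M → M} {X : Set M} (hm : MapsTo τ X X) (hc : ContinuousOn τ X) (i : ℕ) :
    ContinuousOn τ^[i] X := hc.iterate hm i

lemma invOn_step {τ : M → M} {X : Set M} (hm : MapsTo τ X X) (hc : ContinuousOn τ X) (j : ℕ) :
    InvOn τ^[2 ^ j] (Xj τ X (j + 1)) where
  maps := iterate_maps hm _ _
  cont := (iterate_cont hm hc _).mono fun x hx => hx.1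
  inv := fun x hx => by rw [iterate_two_mul]; exact hx.2

lemma invOn_step' {τ : M → M} {X : Set M} (hm : MapsTo τ X X) (hc : ContinuousOn τ X) (j : ℕ)
    {y : M} (hy : y ∈ Xj τ X j) :
    InvOn τ^[2 ^ j] (Xj τ X (j + 1) \ {y}) where
  maps := fun x hx => by
    refine ⟨(invOn_step hm hc j).maps hx.1, fun h => hx.2 ?_⟩
    have h1 : τ^[2 ^ j] x = y := h
    have h2 := (invOn_step hm hc j).inv x hx.1
    rw [h1, hy.2] at h2
    exact h2.symm
  cont := (invOn_step hm hc j).cont.mono sdiff_subset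
  inv := fun x hx => (invOn_step hm hc j).inv x hx.1

lemma rootOn_step {τ : M → M} {X : Set M} (hm : MapsTo τ X X) (hc : ContinuousOn τ X) (j : ℕ) :
    RootOn τ^[2 ^ j] τ^[2 ^ (j + 1)] (Xj τ X (j + 2)) where
  maps := iterate_maps hm _ _
  cont := (iterate_cont hm hc _).mono fun x hx => hx.1
  sq := fun x _ => iterate_two_mul τ j x

end chain

section main

variable {M : Type*} [MetricSpace M]

/-- The chain inequality for maps of `2`-power order. -/
theorem chain_ineq {τ : M → M} {X : Set M} (hm : MapsTo τ X X) (hc : ContinuousOn τ X) {K n : ℕ}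
    (hK : ∀ x ∈ X, τ^[2 ^ K] x = x)
    (hodd : ∀ (S : M → M) (Y : Set M), InvOn S Y → HasOdd S Y)
    (hacyc : ∀ y ∈ X, Acyclic (X \ {y})) (hsph : ∃ θ, IsSph X (n + 1) θ)
    (hne : (Xj τ X 0).Nonempty) (w : ℕ → ℕ) (hw0 : w 0 ≤ 1) (hw2 : ∀ i, w i ≤ 2)
    (hw : ∀ i < K, w i ≠ 0 → ∃ y ∈ Xj τ X (i + 1), y ∉ Xj τ X i) :
    ∑ i ∈ Finset.range K, w i ≤ n := by
  have hXK : Xj τ X K = X := by
    ext x
    exact ⟨fun hx => hx.1, fun hx => ⟨hx, hK x hx⟩⟩
  -- acyclicity of the complement of a point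
  have hac : ∀ m ≤ K, ∀ y ∈ Xj τ X (K - m), Acyclic (Xj τ X (K - m) \ {y}) := by
    intro m
    induction m with
    | zero =>
      intro _ y hy
      rw [Nat.sub_zero, hXK] at *
      exact hacyc y hy
    | succ m ih =>
      intro hmK y hy
      obtain ⟨j, hj⟩ : ∃ j, j = K - (m + 1) := ⟨_, rfl⟩
      have hj1 : K - m = j + 1 := by omega
      rw [← hj] at hy ⊢
      have h1 := ih (by omega) y (by rw [hj1]; exact Xj_mono (Nat.le_succ j) hy)
      rw [hj1] at h1
      have hI := invOn_step' hm hc j hy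
      have h2 := smith_acyclic hI (hodd _ _ hI) h1
      rwa [Fx_step'] at h2
  have key : ∀ m ≤ K, ∃ k θ, IsSph (Xj τ X (K - m)) k θ ∧
      k + ∑ i ∈ Finset.Ico (K - m) K, w i ≤ n + 1 := by
    intro m
    induction m with
    | zero =>
      intro _
      obtain ⟨θ, hθ⟩ := hsph
      refine ⟨n + 1, θ, ?_, ?_⟩
      · rw [Nat.sub_zero, hXK]; exact hθ
      · simp
    | succ m ih =>
      intro hmK
      obtain ⟨k, θ, hθ, hk⟩ := ih (by omega)
      obtain ⟨j, hj⟩ : ∃ j, j = K - (m + 1) := ⟨_, rfl⟩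
      have hj1 : K - m = j + 1 := by omega
      rw [hj1] at hθ hk
      rw [← hj]
      have hI := invOn_step hm hc j
      obtain ⟨s, φ, hsk, hφ, heq⟩ := smith_sphere hI (hodd _ _ hI) hθ
      have hF : Fx τ^[2 ^ j] (Xj τ X (j + 1)) = Xj τ X j := Fx_step j
      have hsum : ∑ i ∈ Finset.Ico j K, w i = w j + ∑ i ∈ Finset.Ico (j + 1) K, w i := by
        rw [Finset.sum_eq_sum_Ico_succ_bot (by omega)]
      refine ⟨s, φ, by rw [← hF]; exact hφ, ?_⟩
      rw [hsum]
      suffices s + w j ≤ k by omega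
      by_cases hwj : w j = 0
      · omega
      obtain ⟨y, hy1, hy2⟩ := hw j (by omega) hwj
      have hlt : s < k := by
        rcases Nat.lt_or_ge s k with h | h
        · exact h
        · exfalso
          have hsk' : s = k := by omega
          have hφθ := heq hsk'
          have h1 := hac m (by omega) y (by rw [hj1]; exact hy1)
          rw [hj1] at h1
          have h2 : LZ (Xj τ X (j + 1) \ {y}) (Xj τ X (j + 1) \ {y}) (del θ) :=
            hθ.closed.sub sdiff_subset
          obtain ⟨b, hb, hbL⟩ := h1 θ hθ.bdd h2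
          have h3 : Fx τ^[2 ^ j] (Xj τ X (j + 1)) ⊆ Xj τ X (j + 1) \ {y} := by
            intro x hx
            refine ⟨hx.1, fun hxy => ?_⟩
            rw [hF] at hx
            have : x = y := hxy
            rw [this] at hx
            exact hy2 hx
          have h4 := hbL.sub h3
          rw [hφθ] at hφ
          exact hφ.nonexact b hb h4
      rcases Nat.eq_zero_or_pos j with hj0 | hj0
      · subst hj0
        omega
      · obtain ⟨i, rfl⟩ : ∃ i, j = i + 1 := ⟨j - 1, by omega⟩
        have hR := rootOn_step hm hc i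
        have hev := smith_parity hI (hodd _ _ hI) hR hθ hφ hsk
        obtain ⟨r, hr⟩ := hev
        have := hw2 (i + 1)
        omega
  obtain ⟨k, θ, hθ, hk⟩ := key K le_rfl
  rw [Nat.sub_self] at hθ hk
  have hk1 : 1 ≤ k := by
    rcases Nat.eq_zero_or_pos k with h | h
    · exfalso
      subst h
      obtain ⟨x, hx⟩ := hne
      have h1 := hθ.closed.2 x hx
      obtain ⟨V, hV, hVv⟩ := h1
      have hxV : x ∈ V := mem_of_mem_nhdsWithin hx hV
      have h2 := hVv [x] (by simpa using hxV)
      rw [del_cons, del_nil, add_zero] at h2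
      have h3 : θ = 0 := sup_zero_eq hθ.sup h2
      exact hθ.not_LZ (by rw [h3]; exact LZ.zero _ _)
    · exact h
  rw [Finset.range_eq_Ico]
  omega

end main

section euclid

/-- Coordinates give odd functions. -/
lemma hasOdd_euclid {d : ℕ} (S : EuclideanSpace ℝ (Fin d) → EuclideanSpace ℝ (Fin d))
    (Y : Set (EuclideanSpace ℝ (Fin d))) (hS : InvOn S Y) : HasOdd S Y := by
  refine ⟨d, fun i x => x i - S x i, ?_, ?_, ?_⟩
  · intro i
    have h1 : Continuous fun x : EuclideanSpace ℝ (Fin d) => x i := by fun_prop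
    exact h1.continuousOn.sub (h1.comp_continuousOn hS.cont)
  · intro i x hx
    simp only [hS.inv x hx]
    ring
  · intro x _ h
    ext i
    have := h i
    linarith

lemma finrank_cond (n : ℕ) : finrank ℝ (Fin n → ℝ) + 1 = Fintype.card (Fin (n + 1)) := by
  simp

/-- **Main inequality.** Let `T` be a continuous self-map of `ℝⁿ` with `T^(2^K) = id`. If `w`
is a weight function with `w 0 ≤ 1`, `w i ≤ 2`, supported on those `i` for which there is a point
of exact period `2^(i+1)`, then the total weight is at most `n`. -/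
theorem weight_le {n K : ℕ} {T : (Fin n → ℝ) → (Fin n → ℝ)} (hT : Continuous T)
    (hTK : ∀ x, T^[2 ^ K] x = x) (w : ℕ → ℕ) (hw0 : w 0 ≤ 1) (hw2 : ∀ i, w i ≤ 2)
    (hw : ∀ i < K, w i ≠ 0 → ∃ y, T^[2 ^ (i + 1)] y = y ∧ T^[2 ^ i] y ≠ y) :
    ∑ i ∈ Finset.range K, w i ≤ n := by
  classical
  let V := Fin n → ℝ
  let E := EuclideanSpace ℝ (Fin (n + 1))
  -- `T` is a homeomorphism
  let h : V ≃ₜ V :=
    { toFun := T
      invFun := T^[2 ^ K - 1]
      left_inv := fun x => by
        have h1 : T^[2 ^ K - 1] (T x) = T^[2 ^ K - 1 + 1] x := by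
          rw [Function.iterate_succ_apply]
        rw [h1, Nat.sub_add_cancel Nat.one_le_two_pow]
        exact hTK x
      right_inv := fun x => by
        have h1 : T (T^[2 ^ K - 1] x) = T^[2 ^ K - 1 + 1] x := by
          rw [Function.iterate_succ_apply']
        rw [h1, Nat.sub_add_cancel Nat.one_le_two_pow]
        exact hTK x
      continuous_toFun := hT
      continuous_invFun := hT.iterate _ }
  let h' : OnePoint V ≃ₜ OnePoint V := h.onePointCongr
  let e : OnePoint V ≃ₜ Metric.sphere (0 : E) 1 := onePointEquivSphereOfFinrankEq (finrank_cond n)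
  let σ : Metric.sphere (0 : E) 1 → Metric.sphere (0 : E) 1 := fun x => e (h' (e.symm x))
  have hσ : Continuous σ := e.continuous.comp (h'.continuous.comp e.symm.continuous)
  let τ : E → E := fun x => if hx : x ∈ Metric.sphere (0 : E) 1 then (σ ⟨x, hx⟩ : E) else x
  have hτσ : ∀ x : Metric.sphere (0 : E) 1, τ x = σ x := by
    intro x
    simp only [τ]
    rw [dif_pos x.2]
  have hm : MapsTo τ (Metric.sphere (0 : E) 1) (Metric.sphere (0 : E) 1) := by
    intro x hx
    have := hτσ ⟨x, hx⟩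
    simp only at this
    rw [this]
    exact (σ ⟨x, hx⟩).2
  have hc : ContinuousOn τ (Metric.sphere (0 : E) 1) := by
    rw [continuousOn_iff_continuous_domRestrict]
    have : (Metric.sphere (0 : E) 1).domRestrict τ = fun x => (σ x : E) := by
      funext x
      exact hτσ x
    rw [this]
    exact continuous_subtype_val.comp hσ
  have hiter : ∀ (k : ℕ) (p : OnePoint V), τ^[k] (e p : E) = (e (h'^[k] p) : E) := by
    intro k
    induction k with
    | zero => intro p; rfl
    | succ k ih =>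
      intro p
      rw [Function.iterate_succ_apply, Function.iterate_succ_apply, hτσ]
      simp only [σ]
      rw [e.symm_apply_apply]
      exact ih (h' p)
  have hcoe : ∀ (k : ℕ) (x : V), h'^[k] (x : OnePoint V) = ((T^[k] x : V) : OnePoint V) := by
    intro k
    induction k with
    | zero => intro x; rfl
    | succ k ih =>
      intro x
      rw [Function.iterate_succ_apply, Function.iterate_succ_apply]
      exact ih (T x)
  have hinf : ∀ k : ℕ, h'^[k] (OnePoint.infty : OnePoint V) = OnePoint.infty := by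
    intro k
    induction k with
    | zero => rfl
    | succ k ih =>
      rw [Function.iterate_succ_apply]
      exact ih
  have hXe : ∀ x ∈ Metric.sphere (0 : E) 1, ∃ p : OnePoint V, (e p : E) = x := by
    intro x hx
    exact ⟨e.symm ⟨x, hx⟩, by rw [e.apply_symm_apply]⟩
  have hKτ : ∀ x ∈ Metric.sphere (0 : E) 1, τ^[2 ^ K] x = x := by
    intro x hx
    obtain ⟨p, rfl⟩ := hXe x hx
    rw [hiter]
    induction p using OnePoint.rec with
    | infty => rw [hinf]
    | coe v => rw [hcoe, hTK v]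
  have hfin : finrank ℝ E = n + 1 := by simp [E]
  refine chain_ineq (n := n) hm hc hKτ (fun S Y hS => hasOdd_euclid S Y hS) ?_
    (sphere_isSph (n + 1) E hfin) ?_ w hw0 hw2 ?_
  · intro y hy
    exact acyclic_sphere_minus (mem_sphere_zero_iff_norm.mp hy)
  · refine ⟨(e OnePoint.infty : E), (e OnePoint.infty).2, ?_⟩
    rw [hiter, hinf]
  · intro i hi hwi
    obtain ⟨y, hy1, hy2⟩ := hw i hi hwi
    refine ⟨(e (y : OnePoint V) : E), ⟨(e (y : OnePoint V)).2, ?_⟩, ?_⟩
    · rw [hiter, hcoe, hy1]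
    · rintro ⟨_, h2⟩
      rw [hiter, hcoe] at h2
      have h3 := e.injective (Subtype.ext h2)
      exact hy2 (OnePoint.coe_injective h3)

end euclid

end Coch

end Pool.Agent.Helper10
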