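import Pool.Agent.Helper10.AS9

/-!
# The linear model and the conclusion
-/

set_option autoImplicit false

noncomputable section

namespace Pool.Agent.Helper10

open Topology Set Filter Module

/-- The model space. -/
abbrev Mod (m : ℕ) := (Fin (m / 2) → ℂ) × (Fin (m % 2) → ℝ)

/-- A root of unity of order `2^j`. -/
def zet (j : ℕ) : ℂ := Complex.exp (2 * Real.pi * Complex.I / ((2 ^ j : ℕ) : ℂ))

lemma zet_prim (j : ℕ) : IsPrimitiveRoot (zet j) (2 ^ j) :=
  Complex.isPrimitiveRoot_exp (2 ^ j) (by positivity)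

/-- The model map. -/
def modMap (m : ℕ) (p : Mod m) : Mod m :=
  (fun i : Fin (m / 2) => zet ((i : ℕ) + 2) * p.1 i, fun i => - p.2 i)

lemma modMap_iterate (m k : ℕ) (p : Mod m) :
    (modMap m)^[k] p =
      (fun i : Fin (m / 2) => zet ((i : ℕ) + 2) ^ k * p.1 i, fun i => (-1) ^ k * p.2 i) := by
  induction k generalizing p with
  | zero => simp
  | succ k ih =>
    rw [Function.iterate_succ_apply, ih]
    simp only [modMap]
    ext i
    · simp only [pow_succ]; ring
    · simp only [pow_succ]; ring

lemma modMap_cont (m : ℕ) : Continuous (modMap m) := by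
  unfold modMap
  fun_prop

lemma modMap_pow (m : ℕ) (p : Mod m) : (modMap m)^[2 ^ (m / 2 + 1)] p = p := by
  rw [modMap_iterate]
  ext i
  · have h1 : zet ((i : ℕ) + 2) ^ (2 ^ (m / 2 + 1)) = 1 := by
      rw [(zet_prim _).pow_eq_one_iff_dvd]
      exact pow_dvd_pow 2 (by have := i.2; omega)
    simp [h1]
  · have h1 : (-1 : ℝ) ^ (2 ^ (m / 2 + 1)) = 1 := by
      rw [pow_succ' 2, pow_mul]; simp
    simp [h1]

/-- The weight function. -/
def wt (m : ℕ) (i : ℕ) : ℕ := if i = 0 then m % 2 else if i ≤ m / 2 then 2 else 0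

lemma sum_wt (m : ℕ) : ∑ i ∈ Finset.range (m / 2 + 1), wt m i = m := by
  rw [Finset.sum_range_succ']
  have h1 : ∀ i ∈ Finset.range (m / 2), wt m (i + 1) = 2 := by
    intro i hi
    have := Finset.mem_range.mp hi
    rw [wt, if_neg (by omega), if_pos (by omega)]
  rw [Finset.sum_congr rfl h1]
  simp only [Finset.sum_const, Finset.card_range, smul_eq_mul, wt, if_true]
  omega

lemma exists_period (m : ℕ) (i : ℕ) (hi : wt m i ≠ 0) :
    ∃ p : Mod m, (modMap m)^[2 ^ (i + 1)] p = p ∧ (modMap m)^[2 ^ i] p ≠ p := by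
  rcases Nat.eq_zero_or_pos i with h0 | h0
  · subst h0
    have hm : 0 < m % 2 := by
      rw [wt, if_pos rfl] at hi; omega
    refine ⟨(0, fun _ => 1), ?_, ?_⟩
    · rw [modMap_iterate]; ext i <;> simp
    · rw [modMap_iterate]
      intro h
      have h1 := congrFun (congrArg Prod.snd h) ⟨0, hm⟩
      norm_num at h1
  · have hi' : i ≤ m / 2 := by
      rw [wt, if_neg (by omega)] at hi
      by_contra h
      rw [if_neg h] at hi
      exact hi rfl
    have hidx : i - 1 < m / 2 := by omega
    refine ⟨(Pi.single ⟨i - 1, hidx⟩ 1, 0), ?_, ?_⟩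
    · rw [modMap_iterate]
      ext j
      · simp only
        by_cases hj : j = ⟨i - 1, hidx⟩
        · subst hj
          rw [Pi.single_eq_same, mul_one]
          have : (i - 1 + 2) = i + 1 := by omega
          simp only [this]
          exact (zet_prim (i + 1)).pow_eq_one
        · rw [Pi.single_eq_of_ne hj, mul_zero]
      · simp
    · rw [modMap_iterate]
      intro h
      have h1 := congrFun (congrArg Prod.fst h) ⟨i - 1, hidx⟩
      simp only [Pi.single_eq_same, mul_one] at h1
      have h2 : (i - 1 + 2) = i + 1 := by omega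
      rw [h2, (zet_prim (i + 1)).pow_eq_one_iff_dvd] at h1
      have h3 := Nat.le_of_dvd (by positivity) h1
      have h4 : 2 ^ i < 2 ^ (i + 1) := Nat.pow_lt_pow_right (by norm_num) (by omega)
      omega

lemma conj_iterate {A B : Type*} (e : A ≃ B) (f : A → A) (k : ℕ) (x : B) :
    (fun y => e (f (e.symm y)))^[k] x = e (f^[k] (e.symm x)) := by
  induction k generalizing x with
  | zero => simp
  | succ k ih =>
    rw [Function.iterate_succ_apply, ih, Function.iterate_succ_apply, e.symm_apply_apply]

/-- The full theorem: for every `m` there is a linear map `T` of finite order on `ℝ^m` which is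
not conjugate by *any* bijection to a continuous map of `ℝ^n`, for any `n < m`. -/
theorem exists_rigid (m : ℕ) : ∃ T : (Fin m → ℝ) → (Fin m → ℝ),
    Continuous T ∧ Function.Injective T ∧
      ∀ n : ℕ, n < m → ∀ U : (Fin m → ℝ) ≃ (Fin n → ℝ), ¬ Continuous (U ∘ T ∘ U.symm) := by
  have hfin : finrank ℝ (Fin m → ℝ) = finrank ℝ (Mod m) := by
    simp only [finrank_fintype_fun_eq_card, Fintype.card_fin, finrank_prod, finrank_pi_fintype,
      Complex.finrank_real_complex, Finset.sum_const, Finset.card_univ, smul_eq_mul]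
    omega
  let e : (Fin m → ℝ) ≃L[ℝ] Mod m := ContinuousLinearEquiv.ofFinrankEq hfin
  let e' : Mod m ≃ (Fin m → ℝ) := e.toEquiv.symm
  let T : (Fin m → ℝ) → (Fin m → ℝ) := fun x => e' (modMap m (e'.symm x))
  have hTi : ∀ k x, T^[k] x = e' ((modMap m)^[k] (e'.symm x)) := fun k x =>
    conj_iterate e' (modMap m) k x
  have hTc : Continuous T := e.symm.continuous.comp ((modMap_cont m).comp e.continuous)
  have hTK : ∀ x, T^[2 ^ (m / 2 + 1)] x = x := by
    intro x
    rw [hTi, modMap_pow, e'.apply_symm_apply]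
  have hTinj : Function.Injective T := by
    intro x y hxy
    have h1 : T^[2 ^ (m / 2 + 1) - 1 + 1] x = T^[2 ^ (m / 2 + 1) - 1 + 1] y := by
      rw [Function.iterate_succ_apply, Function.iterate_succ_apply, hxy]
    rwa [Nat.sub_add_cancel Nat.one_le_two_pow, hTK, hTK] at h1
  refine ⟨T, hTc, hTinj, fun n hn U hU => ?_⟩
  have hconj : ∀ k x, (U ∘ T ∘ U.symm)^[k] x = U (T^[k] (U.symm x)) := fun k x =>
    conj_iterate U T k x
  have h := Coch.weight_le (K := m / 2 + 1) hU (fun x => by
    rw [hconj, hTK, U.apply_symm_apply]) (wt m)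
    (by rw [wt, if_pos rfl]; omega) (fun i => by rw [wt]; split_ifs <;> omega)
    (fun i _ hi => by
      obtain ⟨p, hp1, hp2⟩ := exists_period m i hi
      refine ⟨U (e' p), ?_, ?_⟩
      · rw [hconj, U.symm_apply_apply, hTi, e'.symm_apply_apply, hp1]
      · rw [hconj, U.symm_apply_apply, hTi, e'.symm_apply_apply]
        intro h
        exact hp2 (e'.injective (U.injective h)))
  rw [sum_wt] at h
  omega

end Pool.Agent.Helper10
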