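import Mathlib

/-! Definitions: the function space `C_p(X)`, l-embedded and t-embedded subspaces,
extendial and t-extendial spaces (Arhangel'skii and Choban). -/

namespace Pool.Agent.Helper10.EX

/-- `C_p(X)`: the continuous functions `X → ℝ`, as a linear subspace of `X → ℝ`; it carries the
subspace topology of the product topology, that is, the topology of pointwise convergence. -/
def Cp (X : Type*) [TopologicalSpace X] : Submodule ℝ (X → ℝ) where
  carrier := {f | Continuous f}
  add_mem' := fun hf hg => Continuous.add hf hg
  zero_mem' := continuous_zero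
  smul_mem' := fun c _ hf => Continuous.const_smul hf c

/-- `K` is l-embedded in `X`: there is a continuous linear extender `C_p(K) → C_p(X)`. -/
def LEmbedded {X : Type*} [TopologicalSpace X] (K : Set X) : Prop :=
  ∃ φ : Cp K →L[ℝ] Cp X, ∀ (f : Cp K) (y : K), (φ f : X → ℝ) y = (f : K → ℝ) y

/-- `K` is t-embedded in `X`: there is a continuous extender `C_p(K) → C_p(X)`. -/
def TEmbedded {X : Type*} [TopologicalSpace X] (K : Set X) : Prop :=
  ∃ φ : Cp K → Cp X, Continuous φ ∧ ∀ (f : Cp K) (y : K), (φ f : X → ℝ) y = (f : K → ℝ) y

/-- `X` is extendial: each closed subspace is l-embedded in `X`. -/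
def Extendial (X : Type*) [TopologicalSpace X] : Prop :=
  ∀ K : Set X, IsClosed K → LEmbedded K

/-- `X` is t-extendial: each closed subspace is t-embedded in `X`. -/
def TExtendial (X : Type*) [TopologicalSpace X] : Prop :=
  ∀ K : Set X, IsClosed K → TEmbedded K

end Pool.Agent.Helper10.EX
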