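import Pool.Agent.Helper10.EX0

/-! Extendial spaces: definitions and the positive part
(closed retracts in every closed position implies that the product with a one-point
compactification of a discrete space is extendial). -/

set_option linter.unusedSectionVars false

namespace Pool.Agent.Helper10.EX

open Topology Set Filter

/-- every nonempty closed subset is a retract -/
def RetractProp (D : Type*) [TopologicalSpace D] : Prop :=
  ∀ K : Set D, IsClosed K → K.Nonempty →
    ∃ r : D → D, Continuous r ∧ (∀ d, r d ∈ K) ∧ ∀ k ∈ K, r k = k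

section Positive

variable {D I : Type*} [TopologicalSpace D] [CompactSpace D] [T2Space D]
  [TopologicalSpace I] [DiscreteTopology I]

/-- slice retraction package -/
theorem slice_retraction (hD : RetractProp D) (W : Set (D × OnePoint I)) (hW : IsClosed W) :
    ∃ r : OnePoint I → D → D, (∀ a, Continuous (r a)) ∧
      (∀ a, (∀ d, (r a d, a) ∈ W) ∨ (∀ d, (d, a) ∉ W)) ∧
      (∀ a d, (d, a) ∈ W → r a d = d) := by
  have key : ∀ a : OnePoint I, ∃ r : D → D, Continuous r ∧
      ((∀ d, (r d, a) ∈ W) ∨ (∀ d, (d, a) ∉ W)) ∧ (∀ d, (d, a) ∈ W → r d = d) := by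
    intro a
    by_cases h : ∃ d, (d, a) ∈ W
    · have hc : IsClosed {d | (d, a) ∈ W} :=
        hW.preimage (f := fun d : D => (d, a)) (by fun_prop)
      obtain ⟨r, h1, h2, h3⟩ := hD {d | (d, a) ∈ W} hc h
      exact ⟨r, h1, Or.inl h2, h3⟩
    · push Not at h
      exact ⟨id, continuous_id, Or.inr h, fun d hd => rfl⟩
  choose r h1 h2 h3 using key
  exact ⟨r, h1, h2, h3⟩

variable (W : Set (D × OnePoint I)) (r : OnePoint I → D → D)

open Classical in
/-- evaluation along slice retraction -/
noncomputable def ev (a : OnePoint I) (f : W → ℝ) (u : D) : ℝ :=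
  if h : (r a u, a) ∈ W then f ⟨(r a u, a), h⟩ else 0

open Classical in
/-- the extension formula -/
noncomputable def extF (f : W → ℝ) (x : D × OnePoint I) : ℝ :=
  ev W r OnePoint.infty f x.1 +
    (if (r x.2 x.1, x.2) ∈ W then ev W r x.2 f x.1 - ev W r OnePoint.infty f (r x.2 x.1) else 0)

variable {W r}

theorem ev_cont (hr : ∀ a, Continuous (r a))
    (hd : ∀ a, (∀ d, (r a d, a) ∈ W) ∨ (∀ d, (d, a) ∉ W)) (a : OnePoint I)
    (f : W → ℝ) (hf : Continuous f) : Continuous (ev W r a f) := by
  rcases hd a with h | h
  · have : ev W r a f = fun u => f ⟨(r a u, a), h u⟩ := by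
      funext u
      simp [ev, h u]
    rw [this]
    have hra := hr a
    fun_prop
  · have : ev W r a f = fun _ => 0 := by
      funext u
      simp [ev, h]
    rw [this]
    exact continuous_const

theorem extF_extends (hx : ∀ a d, (d, a) ∈ W → r a d = d) (f : W → ℝ) (y : W) :
    extF W r f y = f y := by
  obtain ⟨⟨w, a⟩, hw⟩ := y
  have h1 : r a w = w := hx a w hw
  have h2 : ev W r a f w = f ⟨(w, a), hw⟩ := by
    simp [ev, h1, hw]
  simp only [extF]
  rw [h2, h1, if_pos hw]
  ring

theorem extF_cont (hW : IsClosed W) (hr : ∀ a, Continuous (r a))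
    (hd : ∀ a, (∀ d, (r a d, a) ∈ W) ∨ (∀ d, (d, a) ∉ W))
    (hx : ∀ a d, (d, a) ∈ W → r a d = d)
    (f : W → ℝ) (hf : Continuous f) : Continuous (extF W r f) := by
  classical
  have hB := ev_cont hr hd OnePoint.infty f hf
  rw [continuous_iff_continuousAt]
  rintro ⟨u, a⟩
  induction a using OnePoint.rec with
  | infty =>
    -- at infinity
    have hval : extF W r f (u, OnePoint.infty) = ev W r OnePoint.infty f u := by
      unfold extF
      simp only
      split_ifs with h
      · have h2 : r OnePoint.infty (r OnePoint.infty u) = r OnePoint.infty u := hx _ _ h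
        simp only [ev, h2, h, dif_pos]
        ring
      · ring
    rw [ContinuousAt, hval, Metric.tendsto_nhds]
    intro ε hε
    -- the bad compact set
    have : CompactSpace W := isCompact_iff_compactSpace.mp hW.isCompact
    let C : Set W := {w | ε / 2 ≤ |f w - ev W r OnePoint.infty f w.1.1|}
    have hC : IsClosed C := by
      apply isClosed_le continuous_const
      exact (hf.sub (hB.comp (continuous_fst.comp continuous_subtype_val))).abs
    have hC2 : IsCompact ((fun w : W => w.1.2) '' C) :=
      hC.isCompact.image (continuous_snd.comp continuous_subtype_val)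
    have hC3 : IsClosed ((fun w : W => w.1.2) '' C) := hC2.isClosed
    have hC4 : OnePoint.infty ∉ ((fun w : W => w.1.2) '' C) := by
      rintro ⟨⟨⟨w, a⟩, hw⟩, hwC, ha⟩
      simp only at ha
      subst ha
      have h1 : r OnePoint.infty w = w := hx _ w hw
      have h2 : ε / 2 ≤ |f ⟨(w, OnePoint.infty), hw⟩ - ev W r OnePoint.infty f w| := hwC
      simp only [ev, h1, hw, dif_pos, sub_self, abs_zero] at h2
      linarith
    have e1 : ∀ᶠ x : D × OnePoint I in 𝓝 (u, OnePoint.infty),
        x.2 ∉ ((fun w : W => w.1.2) '' C) := by
      have := hC3.isOpen_compl.mem_nhds hC4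
      exact (continuous_snd.tendsto (u, (OnePoint.infty : OnePoint I))) this
    have e2 : ∀ᶠ x : D × OnePoint I in 𝓝 (u, OnePoint.infty),
        dist (ev W r OnePoint.infty f x.1) (ev W r OnePoint.infty f u) < ε / 2 := by
      have := (hB.comp continuous_fst).tendsto (u, (OnePoint.infty : OnePoint I))
      rw [Metric.tendsto_nhds] at this
      exact this (ε / 2) (by linarith)
    filter_upwards [e1, e2] with x hx1 hx2
    have e3 : dist (extF W r f x) (ev W r OnePoint.infty f x.1) ≤ ε / 2 := by
      rw [Real.dist_eq]
      unfold extF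
      split_ifs with h
      · have h3 : ¬ (⟨(r x.2 x.1, x.2), h⟩ : W) ∈ C := fun hh => hx1 ⟨_, hh, rfl⟩
        have h4 : |f ⟨(r x.2 x.1, x.2), h⟩ - ev W r OnePoint.infty f (r x.2 x.1)| < ε / 2 :=
          not_le.mp h3
        have h5 : ev W r x.2 f x.1 = f ⟨(r x.2 x.1, x.2), h⟩ := by
          simp [ev, h]
        rw [h5, add_sub_cancel_left]
        exact h4.le
      · simp only [add_zero, sub_self, abs_zero]
        linarith
    calc dist (extF W r f x) (ev W r OnePoint.infty f u)
        ≤ dist (extF W r f x) (ev W r OnePoint.infty f x.1) +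
          dist (ev W r OnePoint.infty f x.1) (ev W r OnePoint.infty f u) := dist_triangle _ _ _
      _ < ε := by linarith
  | coe i =>
    have hopen : IsOpen ({(i : OnePoint I)} : Set (OnePoint I)) := by
      have := OnePoint.isOpenEmbedding_coe.isOpenMap _ (isOpen_discrete ({i} : Set I))
      simpa using this
    have hev : extF W r f =ᶠ[𝓝 (u, (i : OnePoint I))] fun x => extF W r f (x.1, (i : OnePoint I)) := by
      have : {x : D × OnePoint I | x.2 = (i : OnePoint I)} ∈ 𝓝 (u, (i : OnePoint I)) :=
        (hopen.preimage continuous_snd).mem_nhds rfl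
      filter_upwards [this] with x hx
      have hx' : x.2 = (i : OnePoint I) := hx
      rw [← hx']
    refine ContinuousAt.congr ?_ hev.symm
    have hc : Continuous (fun v : D => extF W r f (v, (i : OnePoint I))) := by
      rcases hd (i : OnePoint I) with h | h
      · have : (fun v : D => extF W r f (v, (i : OnePoint I))) = fun v =>
            ev W r OnePoint.infty f v +
              (ev W r (i : OnePoint I) f v - ev W r OnePoint.infty f (r (i : OnePoint I) v)) := by
          funext v
          simp [extF, h v]
        rw [this]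
        exact hB.add ((ev_cont hr hd _ f hf).sub (hB.comp (hr _)))
      · have : (fun v : D => extF W r f (v, (i : OnePoint I))) = fun v =>
            ev W r OnePoint.infty f v := by
          funext v
          simp [extF, h]
        rw [this]
        exact hB
    exact (hc.comp continuous_fst).continuousAt

theorem ev_add (a : OnePoint I) (f g : W → ℝ) (u : D) :
    ev W r a (f + g) u = ev W r a f u + ev W r a g u := by
  unfold ev
  split_ifs <;> simp

theorem ev_smul (a : OnePoint I) (c : ℝ) (f : W → ℝ) (u : D) :
    ev W r a (c • f) u = c * ev W r a f u := by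
  unfold ev
  split_ifs <;> simp

theorem ev_cont_fun (a : OnePoint I) (u : D) :
    Continuous (fun f : Cp W => ev W r a (f : W → ℝ) u) := by
  unfold ev
  split_ifs with h
  · exact (continuous_apply (⟨(r a u, a), h⟩ : W)).comp continuous_subtype_val
  · exact continuous_const

theorem extF_cont_fun (x : D × OnePoint I) :
    Continuous (fun f : Cp W => extF W r (f : W → ℝ) x) := by
  unfold extF
  have h1 := ev_cont_fun (W := W) (r := r) OnePoint.infty x.1
  split_ifs with h
  · exact h1.add ((ev_cont_fun _ _).sub (ev_cont_fun _ _))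
  · exact h1.add continuous_const

theorem extF_add (f g : W → ℝ) (x : D × OnePoint I) :
    extF W r (f + g) x = extF W r f x + extF W r g x := by
  unfold extF
  split_ifs <;> simp only [ev_add] <;> ring

theorem extF_smul (c : ℝ) (f : W → ℝ) (x : D × OnePoint I) :
    extF W r (c • f) x = c * extF W r f x := by
  unfold extF
  split_ifs <;> simp only [ev_smul] <;> ring

theorem extendial_prod (hD : RetractProp D) : Extendial (D × OnePoint I) := by
  intro W hW
  obtain ⟨r, hr, hd, hx⟩ := slice_retraction hD W hW
  refine ⟨{ toFun := fun f => ⟨extF W r (f : W → ℝ), extF_cont hW hr hd hx _ f.2⟩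
            map_add' := ?_
            map_smul' := ?_
            cont := ?_ }, ?_⟩
  · intro f g
    ext x
    exact extF_add _ _ x
  · intro c f
    ext x
    exact extF_smul c _ x
  · apply Continuous.subtype_mk
    apply continuous_pi
    intro x
    exact extF_cont_fun x
  · intro f y
    exact extF_extends hx _ y

end Positive

end Pool.Agent.Helper10.EX
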