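import Pool.Agent.Helper10.EX1

/-! The double arrow space of initial segments of `ℝ`, and its closed retracts. -/

set_option linter.unusedSectionVars false

namespace Pool.Agent.Helper10.EX

open Topology Set Filter

/-- the double arrow space -/
abbrev DA : Type := {u : ℝ → Bool // Antitone u}

theorem isClosed_DA : IsClosed {u : ℝ → Bool | Antitone u} := by
  have : OrderClosedTopology Bool := ⟨isClosed_discrete _⟩
  exact isClosed_antitone

instance : CompactSpace DA :=
  isCompact_iff_compactSpace.mp (isClosed_DA.isCompact)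

theorem DA_cont_eval (s : ℝ) : Continuous (fun u : DA => u.1 s) :=
  (continuous_apply s).comp continuous_subtype_val

section Retr

variable (K : Set DA)

/-- profile of a coordinate -/
def prof (s : ℝ) : Set DA := {k | k ∈ K ∧ k.1 s = true}

/-- the canonical coordinate with given profile -/
noncomputable def can (s : ℝ) : ℝ := Classical.epsilon (fun s' => prof K s' = prof K s)

theorem prof_can (s : ℝ) : prof K (can K s) = prof K s :=
  Classical.epsilon_spec (p := fun s' => prof K s' = prof K s) ⟨s, rfl⟩

theorem can_congr {s t : ℝ} (h : prof K s = prof K t) : can K s = can K t := by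
  unfold can
  rw [h]

theorem prof_anti {s t : ℝ} (h : s ≤ t) : prof K t ⊆ prof K s := by
  rintro k ⟨hk, hkt⟩
  refine ⟨hk, ?_⟩
  have := k.2 h
  rw [hkt] at this
  exact top_le_iff.mp this

open Classical in
/-- values of the retraction -/
noncomputable def rv (u : ℝ → Bool) (s : ℝ) : Bool :=
  if prof K s = K then true else if prof K s = ∅ then false else u (can K s)

theorem rv_congr (u : ℝ → Bool) {s t : ℝ} (h : prof K s = prof K t) :
    rv K u s = rv K u t := by
  unfold rv
  rw [h, can_congr K h]

theorem rv_anti (u : ℝ → Bool) (hu : Antitone u) : Antitone (rv K u) := by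
  intro s t hst
  unfold rv
  by_cases h1 : prof K s = K
  · simp only [h1, if_true]
    exact le_top
  by_cases h2 : prof K t = ∅
  · by_cases h3 : prof K t = K
    · exfalso
      apply h1
      apply Subset.antisymm (fun k hk => hk.1)
      have h' := prof_anti K hst
      rw [h3] at h'
      exact h'
    · rw [if_neg h3, if_pos h2]
      exact bot_le
  have h4 : prof K t ≠ K := by
    intro h
    apply h1
    apply Subset.antisymm (fun k hk => hk.1)
    have h' := prof_anti K hst
    rw [h] at h'
    exact h'
  have h5 : prof K s ≠ ∅ := by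
    intro h
    apply h2
    rw [← subset_empty_iff, ← h]
    exact prof_anti K hst
  rw [if_neg h1, if_neg h5, if_neg h4, if_neg h2]
  by_cases h6 : prof K s = prof K t
  · rw [can_congr K h6]
  · apply hu
    by_contra h7
    push Not at h7
    apply h6
    apply Subset.antisymm
    · rw [← prof_can K s, ← prof_can K t]
      exact prof_anti K h7.le
    · exact prof_anti K hst

/-- the retraction -/
noncomputable def retr (u : DA) : DA := ⟨rv K u.1, rv_anti K u.1 u.2⟩

theorem retr_cont : Continuous (retr K) := by
  apply Continuous.subtype_mk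
  apply continuous_pi
  intro s
  unfold rv
  split_ifs
  · exact continuous_const
  · exact continuous_const
  · exact DA_cont_eval _

theorem retr_id {k : DA} (hk : k ∈ K) : retr K k = k := by
  apply Subtype.ext
  funext s
  change rv K k.1 s = k.1 s
  unfold rv
  split_ifs with h1 h2
  · have : k ∈ prof K s := by rw [h1]; exact hk
    exact this.2.symm
  · have : k ∉ prof K s := by rw [h2]; exact fun h => h
    have h3 : ¬ (k.1 s = true) := fun h => this ⟨hk, h⟩
    exact (Bool.eq_false_iff.mpr h3).symm
  · have h3 := prof_can K s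
    rw [Bool.eq_iff_iff]
    constructor
    · intro h
      have : k ∈ prof K (can K s) := ⟨hk, h⟩
      rw [h3] at this
      exact this.2
    · intro h
      have : k ∈ prof K s := ⟨hk, h⟩
      rw [← h3] at this
      exact this.2

theorem rv_true_ne (hK : K.Nonempty) (u : ℝ → Bool) {s : ℝ} (h : rv K u s = true) :
    prof K s ≠ ∅ := by
  intro h0
  unfold rv at h
  by_cases h1 : prof K s = K
  · rw [h1] at h0
    exact hK.ne_empty h0
  · rw [if_neg h1, if_pos h0] at h
    exact Bool.false_ne_true h

theorem rv_false_ne (u : ℝ → Bool) {s : ℝ} (h : rv K u s = false) :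
    prof K s ≠ K := by
  intro h0
  unfold rv at h
  rw [if_pos h0] at h
  exact Bool.false_ne_true h.symm

theorem retr_approx (hK : K.Nonempty) (u : DA) (F : Finset ℝ) :
    ∃ k ∈ K, ∀ s ∈ F, k.1 s = (retr K u).1 s := by
  classical
  set v := (retr K u).1 with hv
  have hvanti : Antitone v := (retr K u).2
  have hvdef : ∀ s, v s = rv K u.1 s := fun s => rfl
  -- upper constraint
  have hA : ∀ G : Finset ℝ, (∀ s ∈ G, v s = true) → G.Nonempty → ∃ a ∈ G, ∀ s ∈ G, s ≤ a :=
    fun G _ hG => ⟨G.max' hG, G.max'_mem hG, fun s hs => G.le_max' s hs⟩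
  have hB : ∀ G : Finset ℝ, (∀ s ∈ G, v s = false) → G.Nonempty → ∃ a ∈ G, ∀ s ∈ G, a ≤ s :=
    fun G _ hG => ⟨G.min' hG, G.min'_mem hG, fun s hs => G.min'_le s hs⟩
  set FA := F.filter (fun s => v s = true) with hFA
  set FB := F.filter (fun s => v s = false) with hFB
  -- it suffices to match on FA and FB
  suffices h : ∃ k ∈ K, (∀ s ∈ FA, k.1 s = true) ∧ (∀ s ∈ FB, k.1 s = false) by
    obtain ⟨k, hk, h1, h2⟩ := h
    refine ⟨k, hk, fun s hs => ?_⟩
    cases hvs : v s with
    | true => exact h1 s (Finset.mem_filter.mpr ⟨hs, hvs⟩)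
    | false => exact h2 s (Finset.mem_filter.mpr ⟨hs, hvs⟩)
  have upA : ∀ (k : DA) (a : ℝ), k.1 a = true → (∀ s ∈ FA, s ≤ a) → ∀ s ∈ FA, k.1 s = true := by
    intro k a hka ha s hs
    have := k.2 (ha s hs)
    rw [hka] at this
    exact top_le_iff.mp this
  have downB : ∀ (k : DA) (a : ℝ), k.1 a = false → (∀ s ∈ FB, a ≤ s) → ∀ s ∈ FB, k.1 s = false := by
    intro k a hka ha s hs
    have := k.2 (ha s hs)
    rw [hka] at this
    exact le_bot_iff.mp this
  rcases FA.eq_empty_or_nonempty with hAe | hAn
  · rcases FB.eq_empty_or_nonempty with hBe | hBn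
    · obtain ⟨k, hk⟩ := hK
      exact ⟨k, hk, by simp [hAe], by simp [hBe]⟩
    · obtain ⟨b, hb, hb2⟩ := hB FB (fun s hs => (Finset.mem_filter.mp hs).2) hBn
      have hbv : v b = false := (Finset.mem_filter.mp hb).2
      have h1 := rv_false_ne K u.1 ((hvdef b).symm.trans hbv)
      have : ∃ k ∈ K, k ∉ prof K b := by
        by_contra hcon
        push Not at hcon
        exact h1 (Subset.antisymm (fun k hk => hk.1) hcon)
      obtain ⟨k, hk, hkb⟩ := this
      have hkb' : k.1 b = false := Bool.eq_false_iff.mpr (fun h => hkb ⟨hk, h⟩)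
      exact ⟨k, hk, by simp [hAe], downB k b hkb' hb2⟩
  · obtain ⟨a, ha, ha2⟩ := hA FA (fun s hs => (Finset.mem_filter.mp hs).2) hAn
    have hav : v a = true := (Finset.mem_filter.mp ha).2
    rcases FB.eq_empty_or_nonempty with hBe | hBn
    · have h1 := rv_true_ne K hK u.1 ((hvdef a).symm.trans hav)
      obtain ⟨k, hk⟩ := nonempty_iff_ne_empty.mpr h1
      exact ⟨k, hk.1, upA k a hk.2 ha2, by simp [hBe]⟩
    · obtain ⟨b, hb, hb2⟩ := hB FB (fun s hs => (Finset.mem_filter.mp hs).2) hBn
      have hbv : v b = false := (Finset.mem_filter.mp hb).2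
      have hne : prof K a ≠ prof K b := by
        intro h
        have := rv_congr K u.1 h
        rw [← hvdef, ← hvdef, hav, hbv] at this
        exact Bool.false_ne_true this.symm
      have hab : a ≤ b := by
        by_contra hab
        push Not at hab
        have := hvanti hab.le
        rw [hav, hbv] at this
        exact absurd this (by decide)
      have hsub := prof_anti K hab
      have : ∃ k ∈ prof K a, k ∉ prof K b := by
        by_contra hcon
        push Not at hcon
        exact hne (Subset.antisymm hcon hsub)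
      obtain ⟨k, hk, hkb⟩ := this
      have hkb' : k.1 b = false := Bool.eq_false_iff.mpr (fun h => hkb ⟨hk.1, h⟩)
      exact ⟨k, hk.1, upA k a hk.2 ha2, downB k b hkb' hb2⟩

theorem retr_mem (hKc : IsClosed K) (hK : K.Nonempty) (u : DA) : retr K u ∈ K := by
  suffices h : retr K u ∈ closure K by rwa [hKc.closure_eq] at h
  rw [mem_closure_iff_nhds]
  intro U hU
  rw [nhds_subtype_eq_comap, mem_comap] at hU
  obtain ⟨V, hV, hVU⟩ := hU
  rw [nhds_pi, Filter.mem_pi] at hV
  obtain ⟨S, hS, t, ht, htV⟩ := hV
  obtain ⟨k, hk, hk2⟩ := retr_approx K hK u hS.toFinset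
  refine ⟨k, hVU (htV ?_), hk⟩
  intro s hs
  have := hk2 s (hS.mem_toFinset.mpr hs)
  rw [this]
  exact mem_of_mem_nhds (ht s)

end Retr

theorem retractProp_DA : RetractProp DA := fun K hKc hK =>
  ⟨retr K, retr_cont K, retr_mem K hKc hK, fun _ hk => retr_id K hk⟩

end Pool.Agent.Helper10.EX
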