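import Pool.Agent.Helper10.EX2

/-! Points of the double arrow space and the key lemma on extender families. -/

set_option linter.unusedSectionVars false

namespace Pool.Agent.Helper10.EX

open Topology Set Filter

/-- left point -/
noncomputable def Mp (t : ℝ) : DA :=
  ⟨fun r => decide (r < t), by
    intro a b hab
    by_cases h : b < t
    · have h' : a < t := lt_of_le_of_lt hab h
      simp [h, h']
    · simp [h]⟩

/-- right point -/
noncomputable def Pp (t : ℝ) : DA :=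
  ⟨fun r => decide (r ≤ t), by
    intro a b hab
    by_cases h : b ≤ t
    · have h' : a ≤ t := le_trans hab h
      simp [h, h']
    · simp [h]⟩

theorem tendsto_Pp_left (t : ℝ) : Tendsto Pp (𝓝[<] t) (𝓝 (Mp t)) := by
  rw [tendsto_subtype_rng, tendsto_pi_nhds]
  intro r
  apply tendsto_nhds_of_eventually_eq
  rcases lt_or_ge r t with h | h
  · have : ∀ᶠ s in 𝓝[<] t, r < s := by
      apply mem_nhdsWithin_of_mem_nhds
      exact Ioi_mem_nhds h
    filter_upwards [this] with s hs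
    simp [Pp, Mp, h, hs.le]
  · filter_upwards [self_mem_nhdsWithin] with s hs
    have hs' : s < t := hs
    have h1 : ¬ r ≤ s := by linarith
    have h2 : ¬ r < t := by linarith
    simp [Pp, Mp, h1, h2]

theorem tendsto_Pp_right (t : ℝ) : Tendsto Pp (𝓝[>] t) (𝓝 (Pp t)) := by
  rw [tendsto_subtype_rng, tendsto_pi_nhds]
  intro r
  apply tendsto_nhds_of_eventually_eq
  rcases lt_or_ge t r with h | h
  · have : ∀ᶠ s in 𝓝[>] t, s < r := by
      apply mem_nhdsWithin_of_mem_nhds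
      exact Iio_mem_nhds h
    filter_upwards [this] with s hs
    have h1 : ¬ r ≤ s := by linarith
    have h2 : ¬ r ≤ t := by linarith
    simp [Pp, h1, h2]
  · filter_upwards [self_mem_nhdsWithin] with s hs
    have hs' : t < s := hs
    have h1 : r ≤ s := by linarith
    simp [Pp, h1, h]

/-- clopen interval functions -/
noncomputable def hf (x y : ℝ) : Cp DA :=
  ⟨fun u => if u.1 x = true ∧ u.1 y = false then 1 else 0, by
    have h : Continuous (fun b : Bool × Bool => if b.1 = true ∧ b.2 = false then (1 : ℝ) else 0) :=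
      continuous_of_discreteTopology
    exact h.comp ((DA_cont_eval x).prodMk (DA_cont_eval y))⟩

theorem hf_apply (x y : ℝ) (u : DA) :
    (hf x y : DA → ℝ) u = if u.1 x = true ∧ u.1 y = false then 1 else 0 := rfl

theorem hf_zero {x y : ℝ} {u : DA} (h : u.1 x = false ∨ u.1 y = true) :
    (hf x y : DA → ℝ) u = 0 := by
  rw [hf_apply]
  rcases h with h | h <;> simp [h]

theorem tendsto_of_pointwise {L : Cp DA → ℝ} (hL : Continuous L) {g : ℕ → Cp DA} {g0 : Cp DA}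
    (hg : ∀ v, ∀ᶠ j in atTop, (g j : DA → ℝ) v = (g0 : DA → ℝ) v) :
    Tendsto (fun j => L (g j)) atTop (𝓝 (L g0)) := by
  apply (hL.tendsto g0).comp
  rw [tendsto_subtype_rng, tendsto_pi_nhds]
  intro v
  exact tendsto_nhds_of_eventually_eq (hg v)

theorem left_lemma {T : Set ℝ} (hT : ¬ T.Countable) (η : ℕ → ℝ → ℝ)
    (hη : ∀ j, ∀ t ∈ T, 0 < η j t) : ∃ s ∈ T, ∀ j, ∃ t ∈ T, t - η j t < s ∧ s < t := by
  by_contra hcon
  push Not at hcon
  apply hT
  have hB : ∀ j, {s | s ∈ T ∧ ∀ t ∈ T, t - η j t < s → t ≤ s}.Countable := by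
    intro j
    refine Countable.mono ?_ (countable_setOfPred_isolated_left_within
      (s := {s | s ∈ T ∧ ∀ t ∈ T, t - η j t < s → t ≤ s}))
    rintro x ⟨hx, hx2⟩
    refine ⟨⟨hx, hx2⟩, ?_⟩
    rw [← empty_mem_iff_bot, mem_nhdsWithin]
    refine ⟨Ioi (x - η j x), isOpen_Ioi, ?_, ?_⟩
    · have := hη j x hx
      simp only [mem_Ioi]
      linarith
    · rintro s ⟨hs1, ⟨hs2, hs3⟩, hs4⟩
      have h5 : x ≤ s := hs3 x hx hs1
      have h6 : s < x := hs4
      exact absurd h5 (not_le.mpr h6)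
  refine Countable.mono ?_ (countable_iUnion hB)
  intro s hs
  obtain ⟨j, hj⟩ := hcon s hs
  exact mem_iUnion.mpr ⟨j, hs, hj⟩

theorem right_lemma {T : Set ℝ} (hT : ¬ T.Countable) (η : ℕ → ℝ → ℝ)
    (hη : ∀ j, ∀ t ∈ T, 0 < η j t) : ∃ s ∈ T, ∀ j, ∃ t ∈ T, t < s ∧ s < t + η j t := by
  by_contra hcon
  push Not at hcon
  apply hT
  have hB : ∀ j, {s | s ∈ T ∧ ∀ t ∈ T, t < s → t + η j t ≤ s}.Countable := by
    intro j
    refine Countable.mono ?_ (countable_setOfPred_isolated_right_within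
      (s := {s | s ∈ T ∧ ∀ t ∈ T, t < s → t + η j t ≤ s}))
    rintro x ⟨hx, hx2⟩
    refine ⟨⟨hx, hx2⟩, ?_⟩
    rw [← empty_mem_iff_bot, mem_nhdsWithin]
    refine ⟨Iio (x + η j x), isOpen_Iio, ?_, ?_⟩
    · have := hη j x hx
      simp only [mem_Iio]
      linarith
    · rintro s ⟨hs1, ⟨hs2, hs3⟩, hs4⟩
      have h5 : x + η j x ≤ s := hs3 x hx hs4
      have h6 : s < x + η j x := hs1
      exact absurd h5 (not_le.mpr h6)
  refine Countable.mono ?_ (countable_iUnion hB)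
  intro s hs
  obtain ⟨j, hj⟩ := hcon s hs
  exact mem_iUnion.mpr ⟨j, hs, hj⟩

theorem small_seq (s y : ℝ) (h : s < y) (c : ℝ) : ∀ᶠ j : ℕ in atTop, s + c * (1 / ((j : ℝ) + 1)) < y := by
  have h1 : Tendsto (fun j : ℕ => s + c * (1 / ((j : ℝ) + 1))) atTop (𝓝 (s + c * 0)) :=
    tendsto_const_nhds.add (tendsto_const_nhds.mul tendsto_one_div_add_atTop_nhds_zero_nat)
  rw [mul_zero, add_zero] at h1
  exact h1.eventually (Iio_mem_nhds h)

theorem small_seq' (s y : ℝ) (h : y < s) (c : ℝ) : ∀ᶠ j : ℕ in atTop, y < s - c * (1 / ((j : ℝ) + 1)) := by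
  have h1 : Tendsto (fun j : ℕ => s - c * (1 / ((j : ℝ) + 1))) atTop (𝓝 (s - c * 0)) :=
    tendsto_const_nhds.sub (tendsto_const_nhds.mul tendsto_one_div_add_atTop_nhds_zero_nat)
  rw [mul_zero, sub_zero] at h1
  exact h1.eventually (Ioi_mem_nhds h)

theorem DA_true_of_le (v : DA) {x y : ℝ} (h : x ≤ y) (hy : v.1 y = true) : v.1 x = true := by
  have := v.2 h
  rw [hy] at this
  exact top_le_iff.mp this

theorem DA_false_of_le (v : DA) {x y : ℝ} (h : x ≤ y) (hx : v.1 x = false) : v.1 y = false := by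
  have := v.2 h
  rw [hx] at this
  exact le_bot_iff.mp this

section Key

variable {E : Set ℝ} {Ψ : DA → Cp DA → ℝ}

theorem TR_countable (h1 : ∀ g, Continuous (fun u => Ψ u g)) (h2 : ∀ u, Continuous (Ψ u))
    (h3 : ∀ t ∈ E, ∀ g, Ψ (Mp t) g = Ψ (Pp t) g) :
    {t | t ∈ E ∧ ∀ η > 0, ∃ x', t < x' ∧ x' < t + η ∧
      1 / 5 < |Ψ (Pp t) (hf t x') - Ψ (Pp t) 0|}.Countable := by
  by_contra hT
  set T : Set ℝ := {t | t ∈ E ∧ ∀ η > 0, ∃ x', t < x' ∧ x' < t + η ∧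
      1 / 5 < |Ψ (Pp t) (hf t x') - Ψ (Pp t) 0|} with hTdef
  have step : ∀ (j : ℕ) (t : ℝ), t ∈ T → ∃ x' η : ℝ, t < x' ∧ x' < t + 1 / ((j : ℝ) + 1) ∧ 0 < η ∧
      η ≤ 1 / ((j : ℝ) + 1) ∧ ∀ s, t - η < s → s < t →
        1 / 5 < |Ψ (Pp s) (hf t x') - Ψ (Pp s) 0| := by
    intro j t ht
    have hj : (0 : ℝ) < 1 / ((j : ℝ) + 1) := by positivity
    obtain ⟨x', hx1, hx2, hx3⟩ := ht.2 _ hj
    rw [← h3 t ht.1, ← h3 t ht.1] at hx3
    have hc : Continuous (fun u => |Ψ u (hf t x') - Ψ u 0|) := ((h1 _).sub (h1 _)).abs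
    have hev : ∀ᶠ s in 𝓝[<] t, 1 / 5 < |Ψ (Pp s) (hf t x') - Ψ (Pp s) 0| :=
      ((hc.tendsto (Mp t)).comp (tendsto_Pp_left t)).eventually (Ioi_mem_nhds hx3)
    obtain ⟨l, hl, hl2⟩ := (mem_nhdsLT_iff_exists_Ioo_subset).mp hev
    have hl' : l < t := hl
    refine ⟨x', min (t - l) (1 / ((j : ℝ) + 1)), hx1, hx2, lt_min (by linarith) hj,
      min_le_right _ _, ?_⟩
    intro s hs1 hs2
    apply hl2
    have := min_le_left (t - l) (1 / ((j : ℝ) + 1))
    exact ⟨by linarith, hs2⟩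
  choose! x' η hx1 hx2 hη1 hη2 hs using step
  obtain ⟨s, hsT, hst⟩ := left_lemma hT η (fun j t ht => hη1 j t ht)
  choose t ht ht1 ht2 using hst
  have hlim : Tendsto (fun j => Ψ (Pp s) (hf (t j) (x' j (t j)))) atTop (𝓝 (Ψ (Pp s) 0)) := by
    apply tendsto_of_pointwise (h2 _)
    intro v
    by_cases hv : ∃ y, s < y ∧ v.1 y = true
    · obtain ⟨y, hy, hvy⟩ := hv
      filter_upwards [small_seq s y hy 2] with j hj
      have e1 := hx2 j (t j) (ht j)
      have e2 := hη2 j (t j) (ht j)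
      have e3 := ht1 j
      have e4 : x' j (t j) ≤ y := by linarith
      exact hf_zero (Or.inr (DA_true_of_le v e4 hvy))
    · push Not at hv
      filter_upwards with j
      exact hf_zero (Or.inl (Bool.eq_false_iff.mpr (hv (t j) (ht2 j))))
  have hlim2 : Tendsto (fun j => |Ψ (Pp s) (hf (t j) (x' j (t j))) - Ψ (Pp s) 0|) atTop
      (𝓝 |Ψ (Pp s) 0 - Ψ (Pp s) 0|) := (hlim.sub tendsto_const_nhds).abs
  rw [sub_self, abs_zero] at hlim2
  have hge : ∀ j, 1 / 5 ≤ |Ψ (Pp s) (hf (t j) (x' j (t j))) - Ψ (Pp s) 0| := fun j =>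
    (hs j (t j) (ht j) s (ht1 j) (ht2 j)).le
  have := ge_of_tendsto' hlim2 hge
  norm_num at this

theorem TL_countable (h1 : ∀ g, Continuous (fun u => Ψ u g)) (h2 : ∀ u, Continuous (Ψ u))
    (x x' : ℝ) :
    {t | t ∈ E ∧ x < t ∧ t < x' ∧ ∀ η > 0, ∃ y, t - η < y ∧ y < t ∧ x < y ∧
      1 / 5 < |Ψ (Pp t) (hf x y + hf t x') - Ψ (Pp t) (hf x x')|}.Countable := by
  by_contra hT
  set T : Set ℝ := {t | t ∈ E ∧ x < t ∧ t < x' ∧ ∀ η > 0, ∃ y, t - η < y ∧ y < t ∧ x < y ∧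
      1 / 5 < |Ψ (Pp t) (hf x y + hf t x') - Ψ (Pp t) (hf x x')|} with hTdef
  have step : ∀ (j : ℕ) (t : ℝ), t ∈ T → ∃ y η : ℝ, t - 1 / ((j : ℝ) + 1) < y ∧ y < t ∧ x < y ∧
      0 < η ∧ η ≤ 1 / ((j : ℝ) + 1) ∧ ∀ s, t < s → s < t + η →
        1 / 5 < |Ψ (Pp s) (hf x y + hf t x') - Ψ (Pp s) (hf x x')| := by
    intro j t ht
    have hj : (0 : ℝ) < 1 / ((j : ℝ) + 1) := by positivity
    obtain ⟨y, hy1, hy2, hy3, hy4⟩ := ht.2.2.2 _ hj
    have hc : Continuous (fun u => |Ψ u (hf x y + hf t x') - Ψ u (hf x x')|) :=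
      ((h1 _).sub (h1 _)).abs
    have hev : ∀ᶠ s in 𝓝[>] t, 1 / 5 < |Ψ (Pp s) (hf x y + hf t x') - Ψ (Pp s) (hf x x')| :=
      ((hc.tendsto (Pp t)).comp (tendsto_Pp_right t)).eventually (Ioi_mem_nhds hy4)
    obtain ⟨l, hl, hl2⟩ := (mem_nhdsGT_iff_exists_Ioo_subset).mp hev
    have hl' : t < l := hl
    refine ⟨y, min (l - t) (1 / ((j : ℝ) + 1)), hy1, hy2, hy3, lt_min (by linarith) hj,
      min_le_right _ _, ?_⟩
    intro s hs1 hs2
    apply hl2
    have := min_le_left (l - t) (1 / ((j : ℝ) + 1))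
    exact ⟨hs1, by linarith⟩
  choose! y η hy1 hy2 hy3 hη1 hη2 hs using step
  obtain ⟨s, hsT, hst⟩ := right_lemma hT η (fun j t ht => hη1 j t ht)
  choose t ht ht1 ht2 using hst
  have hxs : x < s := hsT.2.1
  have hsx' : s < x' := hsT.2.2.1
  have hlim : Tendsto (fun j => Ψ (Pp s) (hf x (y j (t j)) + hf (t j) x')) atTop
      (𝓝 (Ψ (Pp s) (hf x x'))) := by
    apply tendsto_of_pointwise (h2 _)
    intro v
    by_cases hv : ∃ z, z < s ∧ v.1 z = false
    · obtain ⟨z, hz, hvz⟩ := hv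
      filter_upwards [small_seq' s z hz 2] with j hj
      have e1 := hy1 j (t j) (ht j)
      have e2 := hη2 j (t j) (ht j)
      have e3 := ht2 j
      have e4 : z ≤ y j (t j) := by linarith
      have e5 := hy2 j (t j) (ht j)
      have e6 : z ≤ t j := by linarith
      have f1 : v.1 (y j (t j)) = false := DA_false_of_le v e4 hvz
      have f2 : v.1 (t j) = false := DA_false_of_le v e6 hvz
      have f3 : v.1 x' = false := DA_false_of_le v (by linarith) hvz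
      have g1 : ((hf x (y j (t j)) + hf (t j) x' : Cp DA) : DA → ℝ) v =
        (hf x (y j (t j)) : DA → ℝ) v + (hf (t j) x' : DA → ℝ) v := rfl
      rw [g1, hf_apply, hf_apply, hf_apply, f1, f2, f3]
      simp
    · push Not at hv
      filter_upwards with j
      have e5 := hy2 j (t j) (ht j)
      have e6 := ht1 j
      have f1 : v.1 (y j (t j)) = true := by
        have := hv (y j (t j)) (by linarith)
        simpa using this
      have f2 : v.1 (t j) = true := by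
        have := hv (t j) (by linarith)
        simpa using this
      have f3 : v.1 x = true := by
        have := hv x (by linarith)
        simpa using this
      have g1 : ((hf x (y j (t j)) + hf (t j) x' : Cp DA) : DA → ℝ) v =
        (hf x (y j (t j)) : DA → ℝ) v + (hf (t j) x' : DA → ℝ) v := rfl
      rw [g1, hf_apply, hf_apply, hf_apply, f1, f2, f3]
      simp
  have hlim2 : Tendsto (fun j => |Ψ (Pp s) (hf x (y j (t j)) + hf (t j) x') -
      Ψ (Pp s) (hf x x')|) atTop (𝓝 |Ψ (Pp s) (hf x x') - Ψ (Pp s) (hf x x')|) :=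
    (hlim.sub tendsto_const_nhds).abs
  rw [sub_self, abs_zero] at hlim2
  have hge : ∀ j, 1 / 5 ≤ |Ψ (Pp s) (hf x (y j (t j)) + hf (t j) x') - Ψ (Pp s) (hf x x')| :=
    fun j => (hs j (t j) (ht j) s (ht1 j) (ht2 j)).le
  have := ge_of_tendsto' hlim2 hge
  norm_num at this

theorem key_lemma (hE : ¬ E.Countable)
    (h1 : ∀ g, Continuous (fun u => Ψ u g)) (h2 : ∀ u, Continuous (Ψ u))
    (h3 : ∀ t ∈ E, ∀ g, Ψ (Mp t) g = Ψ (Pp t) g)
    (h4 : ∀ (x y : ℚ) (u : DA), |Ψ u (hf x y) - (hf x y : DA → ℝ) u| < 1 / 5)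
    (h5 : ∀ u : DA, |Ψ u 0| < 1 / 5) : False := by
  have c1 := TR_countable h1 h2 h3
  have c2 : (⋃ (p : ℚ × ℚ), {t | t ∈ E ∧ (p.1 : ℝ) < t ∧ t < (p.2 : ℝ) ∧ ∀ η > 0, ∃ y,
      t - η < y ∧ y < t ∧ (p.1 : ℝ) < y ∧
      1 / 5 < |Ψ (Pp t) (hf p.1 y + hf t p.2) - Ψ (Pp t) (hf p.1 p.2)|}).Countable :=
    countable_iUnion (fun p => TL_countable h1 h2 p.1 p.2)
  have hex : ∃ t ∈ E, t ∉ {t | t ∈ E ∧ ∀ η > 0, ∃ x', t < x' ∧ x' < t + η ∧
      1 / 5 < |Ψ (Pp t) (hf t x') - Ψ (Pp t) 0|} ∧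
      t ∉ (⋃ (p : ℚ × ℚ), {t | t ∈ E ∧ (p.1 : ℝ) < t ∧ t < (p.2 : ℝ) ∧ ∀ η > 0, ∃ y,
      t - η < y ∧ y < t ∧ (p.1 : ℝ) < y ∧
      1 / 5 < |Ψ (Pp t) (hf p.1 y + hf t p.2) - Ψ (Pp t) (hf p.1 p.2)|}) := by
    by_contra hcon
    push Not at hcon
    apply hE
    refine Countable.mono ?_ (c1.union c2)
    intro t ht
    by_cases htR : t ∈ {t | t ∈ E ∧ ∀ η > 0, ∃ x', t < x' ∧ x' < t + η ∧
      1 / 5 < |Ψ (Pp t) (hf t x') - Ψ (Pp t) 0|}
    · exact Or.inl htR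
    · exact Or.inr (hcon t ht htR)
  obtain ⟨t, htE, htR, htL⟩ := hex
  -- consequences
  have hR : ∃ η > 0, ∀ x', t < x' → x' < t + η → |Ψ (Pp t) (hf t x') - Ψ (Pp t) 0| ≤ 1 / 5 := by
    by_contra hcon
    push Not at hcon
    exact htR ⟨htE, hcon⟩
  obtain ⟨η, hη, hη2⟩ := hR
  obtain ⟨q, hq1, hq2⟩ := exists_rat_btwn (show t < t + η by linarith)
  have hq3 := hη2 q hq1 hq2
  have hq4 := h5 (Pp t)
  have hup : Ψ (Pp t) (hf t q) ≤ 2 / 5 := by
    have a1 := abs_le.mp hq3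
    have a2 := abs_lt.mp hq4
    linarith [a1.2, a2.2]
  -- left side
  have hL : ∀ p : ℚ, (p : ℝ) < t → ∃ η > 0, ∀ y, t - η < y → y < t → (p : ℝ) < y →
      |Ψ (Pp t) (hf p y + hf t q) - Ψ (Pp t) (hf p q)| ≤ 1 / 5 := by
    intro p hp
    by_contra hcon
    push Not at hcon
    apply htL
    exact mem_iUnion.mpr ⟨(p, q), htE, hp, hq1, hcon⟩
  have hL2 : ∀ p : ℚ, (p : ℝ) < t → ∃ y, (p : ℝ) < y ∧ y < t ∧
      3 / 5 ≤ Ψ (Pp t) (hf p y + hf t q) := by
    intro p hp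
    obtain ⟨η', hη', hy⟩ := hL p hp
    obtain ⟨y, hy1, hy2⟩ := exists_between (show max (t - η') (p : ℝ) < t from
      max_lt (by linarith) hp)
    have hy3 : t - η' < y := lt_of_le_of_lt (le_max_left _ _) hy1
    have hy4 : (p : ℝ) < y := lt_of_le_of_lt (le_max_right _ _) hy1
    refine ⟨y, hy4, hy2, ?_⟩
    have b1 := abs_le.mp (hy y hy3 hy2 hy4)
    have b2 := abs_lt.mp (h4 p q (Mp t))
    have b3 : (hf p q : DA → ℝ) (Mp t) = 1 := by
      rw [hf_apply, if_pos]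
      have : ¬ (q : ℝ) < t := by linarith
      simp [Mp, hp, this]
    rw [b3, h3 t htE] at b2
    linarith [b1.1, b2.1]
  have hp : ∀ j : ℕ, ∃ p : ℚ, t - 1 / ((j : ℝ) + 1) < p ∧ (p : ℝ) < t := by
    intro j
    have : (0 : ℝ) < 1 / ((j : ℝ) + 1) := by positivity
    exact exists_rat_btwn (by linarith)
  choose p hp1 hp2 using hp
  choose y hy1 hy2 hy3 using (fun j => hL2 (p j) (hp2 j))
  have hlim : Tendsto (fun j => Ψ (Pp t) (hf (p j) (y j) + hf t q)) atTop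
      (𝓝 (Ψ (Pp t) (hf t q))) := by
    apply tendsto_of_pointwise (h2 _)
    intro v
    have g1 : ∀ j, ((hf (p j) (y j) + hf t q : Cp DA) : DA → ℝ) v =
        (hf (p j) (y j) : DA → ℝ) v + (hf t q : DA → ℝ) v := fun j => rfl
    by_cases hv : ∃ z, z < t ∧ v.1 z = false
    · obtain ⟨z, hz, hvz⟩ := hv
      filter_upwards [small_seq' t z hz 1] with j hj
      have e1 := hp1 j
      have f1 : v.1 (p j) = false := DA_false_of_le v (by linarith) hvz
      rw [g1, hf_zero (Or.inl f1), zero_add]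
    · push Not at hv
      filter_upwards with j
      have f1 : v.1 (y j) = true := by
        have := hv (y j) (hy2 j)
        simpa using this
      rw [g1, hf_zero (Or.inr f1), zero_add]
  have := ge_of_tendsto' hlim hy3
  linarith

end Key

end Pool.Agent.Helper10.EX
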