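import Pool.Agent.Helper10.EX3

/-! The quotient space and the counterexample. -/

set_option linter.unusedSectionVars false

namespace Pool.Agent.Helper10.EX

open Topology Set Filter

/-- a discrete copy of the reals -/
structure Idx where
  /-- the underlying real -/
  val : ℝ

instance : TopologicalSpace Idx := ⊥
instance : DiscreteTopology Idx := ⟨rfl⟩

theorem exists_idx : ∃ idx : ℝ → Idx, ∀ i, ¬ {t | idx t = i}.Countable := by
  have e : Nonempty (ℝ ≃ ℝ × ℝ) := by
    rw [← Cardinal.eq, Cardinal.mk_prod]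
    simp
  obtain ⟨e⟩ := e
  refine ⟨fun t => ⟨(e t).1⟩, ?_⟩
  rintro ⟨i⟩ hc
  have h1 : {t | (⟨(e t).1⟩ : Idx) = ⟨i⟩} = range (fun s : ℝ => e.symm (i, s)) := by
    ext t
    simp only [mem_ofPred_eq, mem_range, Idx.mk.injEq]
    constructor
    · rintro h
      refine ⟨(e t).2, ?_⟩
      rw [← h]
      simp
    · rintro ⟨s, rfl⟩
      simp
  rw [h1] at hc
  have h2 : Function.Injective (fun s : ℝ => e.symm (i, s)) := by
    intro a b hab
    have := e.symm.injective hab
    exact (Prod.mk.inj this).2
  have h3 : (univ : Set ℝ).Countable := by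
    rw [← image_univ] at hc
    exact countable_of_injective_of_countable_image h2.injOn hc
  exact Cardinal.not_countable_real h3

/-- chosen index function -/
noncomputable def idx : ℝ → Idx := exists_idx.choose

theorem idx_spec (i : Idx) : ¬ {t | idx t = i}.Countable := exists_idx.choose_spec i

theorem idx_uncountable : ¬ (univ : Set Idx).Countable := by
  intro h
  have h2 : (univ : Set ℝ).Countable := by
    have h3 : Function.Injective (fun t : ℝ => (⟨t⟩ : Idx)) := by
      intro a b hab
      exact Idx.mk.inj hab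
    apply countable_of_injective_of_countable_image h3.injOn
    exact h.mono (subset_univ _)
  exact Cardinal.not_countable_real h2

open Classical in
/-- the quotient map -/
noncomputable def Fmap (x : DA × OnePoint Idx) : (ℝ → Bool) × OnePoint Idx :=
  (fun r => if x.2 = ((idx r : Idx) : OnePoint Idx) then false else x.1.1 r, x.2)

theorem Fmap_cont : Continuous Fmap := by
  classical
  refine Continuous.prodMk ?_ continuous_snd
  apply continuous_pi
  intro r
  have hclopen : IsClopen {x : DA × OnePoint Idx | x.2 = ((idx r : Idx) : OnePoint Idx)} := by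
    have hopen : IsOpen ({((idx r : Idx) : OnePoint Idx)} : Set (OnePoint Idx)) := by
      have := OnePoint.isOpenEmbedding_coe.isOpenMap _ (isOpen_discrete ({idx r} : Set Idx))
      simpa using this
    exact ⟨isClosed_singleton.preimage continuous_snd, hopen.preimage continuous_snd⟩
  refine Continuous.if ?_ continuous_const ((DA_cont_eval r).comp continuous_fst)
  intro a ha
  rw [hclopen.frontier_eq] at ha
  exact absurd ha (notMem_empty a)

/-- the image space -/
abbrev YY : Type := Set.range Fmap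

instance : CompactSpace YY := isCompact_iff_compactSpace.mp (isCompact_range Fmap_cont)

/-- the surjection -/
noncomputable def qmap (x : DA × OnePoint Idx) : YY := ⟨Fmap x, mem_range_self x⟩

theorem qmap_cont : Continuous qmap := Fmap_cont.subtype_mk _

theorem qmap_surj : Function.Surjective qmap := by
  rintro ⟨y, x, rfl⟩
  exact ⟨x, rfl⟩

theorem Fmap_infty (u : DA) : Fmap (u, OnePoint.infty) = (u.1, OnePoint.infty) := by
  unfold Fmap
  refine Prod.ext ?_ rfl
  funext r
  simp

theorem Fmap_glue (i : Idx) (t : ℝ) (ht : idx t = i) :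
    Fmap (Mp t, (i : OnePoint Idx)) = Fmap (Pp t, (i : OnePoint Idx)) := by
  unfold Fmap
  refine Prod.ext ?_ rfl
  funext r
  simp only
  by_cases h : (i : OnePoint Idx) = ((idx r : Idx) : OnePoint Idx)
  · simp [h]
  · rw [if_neg h, if_neg h]
    have hr : r ≠ t := by
      rintro rfl
      exact h (by rw [ht])
    rcases lt_or_gt_of_ne hr with h1 | h1
    · simp [Mp, Pp, h1, h1.le]
    · have h2 : ¬ r < t := by linarith
      have h3 : ¬ r ≤ t := by linarith
      simp [Mp, Pp, h2, h3]

/-- the closed subset -/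
def ZZ : Set YY := {y | y.1.2 = OnePoint.infty}

theorem ZZ_closed : IsClosed ZZ :=
  isClosed_singleton.preimage (continuous_snd.comp continuous_subtype_val)

theorem ZZ_anti (y : ZZ) : Antitone y.1.1.1 := by
  obtain ⟨⟨y, ⟨u, a⟩, rfl⟩, hy⟩ := y
  have ha : a = OnePoint.infty := hy
  subst ha
  change Antitone (Fmap (u, OnePoint.infty)).1
  rw [Fmap_infty]
  exact u.2

/-- coordinates on the closed subset -/
def iota (y : ZZ) : DA := ⟨y.1.1.1, ZZ_anti y⟩

theorem iota_cont : Continuous iota :=
  Continuous.subtype_mk (continuous_fst.comp (continuous_subtype_val.comp continuous_subtype_val)) _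

theorem qmap_infty_mem (u : DA) : qmap (u, OnePoint.infty) ∈ ZZ := by
  change (Fmap (u, OnePoint.infty)).2 = OnePoint.infty
  rw [Fmap_infty]

theorem iota_qmap (u : DA) : iota ⟨qmap (u, OnePoint.infty), qmap_infty_mem u⟩ = u := by
  apply Subtype.ext
  change (Fmap (u, OnePoint.infty)).1 = u.1
  rw [Fmap_infty]

/-- pull back along iota -/
def pull (g : Cp DA) : Cp ZZ := ⟨fun y => (g : DA → ℝ) (iota y), g.2.comp iota_cont⟩

theorem pull_cont : Continuous pull := by
  apply Continuous.subtype_mk
  apply continuous_pi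
  intro y
  exact (continuous_apply (iota y)).comp continuous_subtype_val

theorem ZZ_not_TEmbedded : ¬ TEmbedded ZZ := by
  rintro ⟨φ, hφ, hext⟩
  -- the functional family
  let Ψ : OnePoint Idx → DA → Cp DA → ℝ := fun a u g => (φ (pull g) : YY → ℝ) (qmap (u, a))
  have h1 : ∀ a g, Continuous (fun u => Ψ a u g) := by
    intro a g
    exact (φ (pull g)).2.comp (qmap_cont.comp (by fun_prop))
  have h2 : ∀ a u, Continuous (Ψ a u) := by
    intro a u
    exact (continuous_apply (qmap (u, a))).comp (continuous_subtype_val.comp (hφ.comp pull_cont))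
  have h3 : ∀ i : Idx, ∀ t, idx t = i → ∀ g, Ψ i (Mp t) g = Ψ i (Pp t) g := by
    intro i t ht g
    change (φ (pull g) : YY → ℝ) (qmap (Mp t, (i : OnePoint Idx))) =
      (φ (pull g) : YY → ℝ) (qmap (Pp t, (i : OnePoint Idx)))
    have : qmap (Mp t, (i : OnePoint Idx)) = qmap (Pp t, (i : OnePoint Idx)) :=
      Subtype.ext (Fmap_glue i t ht)
    rw [this]
  have hinf : ∀ u g, Ψ OnePoint.infty u g = (g : DA → ℝ) u := by
    intro u g
    have := hext (pull g) ⟨qmap (u, OnePoint.infty), qmap_infty_mem u⟩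
    change (φ (pull g) : YY → ℝ) (qmap (u, OnePoint.infty)) = (g : DA → ℝ) u
    rw [this]
    change (g : DA → ℝ) (iota ⟨qmap (u, OnePoint.infty), qmap_infty_mem u⟩) = _
    rw [iota_qmap]
  have h4 : ∀ g : Cp DA, {i : Idx | ∃ u, 1 / 5 ≤ |Ψ i u g - (g : DA → ℝ) u|}.Finite := by
    intro g
    let C : Set (DA × OnePoint Idx) := {x | 1 / 5 ≤ |Ψ x.2 x.1 g - (g : DA → ℝ) x.1|}
    have hC : IsClosed C := by
      apply isClosed_le continuous_const
      have e1 : Continuous (fun x : DA × OnePoint Idx => Ψ x.2 x.1 g) :=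
        (φ (pull g)).2.comp qmap_cont
      have e2 : Continuous (fun x : DA × OnePoint Idx => (g : DA → ℝ) x.1) :=
        g.2.comp continuous_fst
      exact (e1.sub e2).abs
    have hC2 : IsClosed (Prod.snd '' C) := (hC.isCompact.image continuous_snd).isClosed
    have hC3 : OnePoint.infty ∉ Prod.snd '' C := by
      rintro ⟨⟨u, a⟩, hx, ha⟩
      simp only at ha
      subst ha
      have hx' : 1 / 5 ≤ |Ψ OnePoint.infty u g - (g : DA → ℝ) u| := hx
      rw [hinf, sub_self, abs_zero] at hx'
      norm_num at hx'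
    have hO := hC2.isOpen_compl
    rw [OnePoint.isOpen_iff_of_mem (show OnePoint.infty ∈ (Prod.snd '' C)ᶜ from hC3)] at hO
    have hfin := hO.2.finite_of_discrete
    refine hfin.subset ?_
    rintro i ⟨u, hu⟩
    simp only [mem_compl_iff, mem_preimage, not_not]
    exact ⟨(u, (i : OnePoint Idx)), hu, rfl⟩
  -- choose a good index
  have hbad : (⋃ p : ℚ × ℚ, {i : Idx | ∃ u, 1 / 5 ≤ |Ψ i u (hf p.1 p.2) -
      (hf p.1 p.2 : DA → ℝ) u|} ∪ {i : Idx | ∃ u, 1 / 5 ≤ |Ψ i u 0 -
      ((0 : Cp DA) : DA → ℝ) u|}).Countable :=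
    countable_iUnion (fun p => ((h4 _).countable.union (h4 _).countable))
  have hgood : ∃ i : Idx, i ∉ (⋃ p : ℚ × ℚ, {i : Idx | ∃ u, 1 / 5 ≤ |Ψ i u (hf p.1 p.2) -
      (hf p.1 p.2 : DA → ℝ) u|} ∪ {i : Idx | ∃ u, 1 / 5 ≤ |Ψ i u 0 -
      ((0 : Cp DA) : DA → ℝ) u|}) := by
    by_contra hcon
    push Not at hcon
    exact idx_uncountable (hbad.mono (fun i _ => hcon i))
  obtain ⟨i, hi⟩ := hgood
  simp only [mem_iUnion, mem_union, mem_ofPred_eq, not_exists, not_or, not_le] at hi
  refine key_lemma (E := {t | idx t = i}) (Ψ := Ψ i) (idx_spec i) (h1 i) (h2 i)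
    (fun t ht g => h3 i t ht g) (fun x y u => (hi (x, y)).1 u) (fun u => ?_)
  have := (hi (0, 0)).2 u
  simpa using this

theorem main : ∃ (X Y : Type) (_ : TopologicalSpace X) (_ : TopologicalSpace Y) (f : X → Y),
    CompactSpace X ∧ T2Space X ∧ CompactSpace Y ∧ T2Space Y ∧ Continuous f ∧
    Function.Surjective f ∧ Extendial X ∧ ¬ TExtendial Y :=
  ⟨DA × OnePoint Idx, YY, inferInstance, inferInstance, qmap, inferInstance, inferInstance,
    inferInstance, inferInstance, qmap_cont, qmap_surj, extendial_prod retractProp_DA,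
    fun h => ZZ_not_TEmbedded (h ZZ ZZ_closed)⟩

end Pool.Agent.Helper10.EX
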